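import Mathlib

/-!
# Structures for sparse critical graphs for two-part defective colouring

A structure has vertices `V`, ordinary edges `h` (0/1), links `m` (multiplicities) and thresholds
`t` (first part), `s` (second part).
-/

open Finset

namespace Pool.Agent.Lib.MP_4006b4_co_b

/-- A structure. -/
structure Str where
  V : Finset ℕ
  h : ℕ → ℕ → ℕ
  m : ℕ → ℕ → ℕ
  t : ℕ → ℕ
  s : ℕ → ℕ

/-- Well-formedness. -/
structure Str.WF (a b : ℕ) (G : Str) : Prop where
  hsymm : ∀ v w, G.h v w = G.h w v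
  msymm : ∀ v w, G.m v w = G.m w v
  hirr : ∀ v, G.h v v = 0
  mirr : ∀ v, G.m v v = 0
  hle : ∀ v w, G.h v w ≤ 1
  tb : ∀ v ∈ G.V, ∀ w ∈ G.V, G.h v w ≠ 0 → G.t v + 1 ≤ b
  sb : ∀ v ∈ G.V, ∀ w ∈ G.V, G.h v w ≠ 0 → G.s v + 1 ≤ a

/-- Weight of a pair. -/
def wt (a b : ℕ) (G : Str) (v w : ℕ) : ℤ := (b : ℤ) * (a - 1) * G.h v w + a * G.m v w

/-- Weight of a vertex. -/
def rv (a b : ℕ) (G : Str) (v : ℕ) : ℤ := (a : ℤ) * G.t v + b * G.s v - b

/-- Cross weight. -/
def cross (a b : ℕ) (G : Str) (S T : Finset ℕ) : ℤ := ∑ v ∈ S, ∑ w ∈ T, wt a b G v w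

/-- Inner weight. -/
def inner (a b : ℕ) (G : Str) (S : Finset ℕ) : ℤ :=
  ∑ v ∈ S, ∑ w ∈ S, if v < w then wt a b G v w else 0

/-- The potential. -/
def rho (a b : ℕ) (G : Str) (S : Finset ℕ) : ℤ := (∑ v ∈ S, rv a b G v) - inner a b G S

/-- Number of edges and links from the first-part vertices of `T` to `S`. -/
def n1 (G : Str) (x : ℕ → Bool) (T S : Finset ℕ) : ℕ :=
  ∑ v ∈ T, ∑ w ∈ S, if x v then G.h v w + G.m v w else 0

/-- Load of a vertex. -/
def load (G : Str) (x : ℕ → Bool) (A : ℕ → ℕ → ℕ) (V : Finset ℕ) (v : ℕ) : ℕ :=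
  ∑ w ∈ V, ((if x v = x w then G.h v w else 0) + A v w)

/-- Threshold of the state `c` at `v`. -/
def thr (G : Str) (c : Bool) (v : ℕ) : ℕ := if c then G.t v else G.s v

/-- Colouring. -/
structure IsCol (G : Str) (x : ℕ → Bool) (A : ℕ → ℕ → ℕ) : Prop where
  cov : ∀ v ∈ G.V, ∀ w ∈ G.V, x v ≠ x w → G.m v w ≤ A v w + A w v
  cap : ∀ v ∈ G.V, load G x A G.V v + 1 ≤ thr G (x v) v

/-- Colourability. -/
def Colorable (G : Str) : Prop := ∃ x A, IsCol G x A

/-- Restriction to a vertex set. -/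
def Str.res (G : Str) (T : Finset ℕ) : Str := { G with V := T }

/-- Contraction of the coloured part `T`. -/
def Str.ctr (G : Str) (T : Finset ℕ) (x : ℕ → Bool) : Str where
  V := G.V \ T
  h := G.h
  m := G.m
  t := fun r => if (∑ v ∈ T, if x v then G.h v r else 0) = 0 then
    G.t r - ∑ v ∈ T, (if x v then 0 else G.m v r) else 0
  s := fun r => if (∑ v ∈ T, if x v then 0 else G.h v r) = 0 then
    G.s r - ∑ v ∈ T, (if x v then G.m v r else 0) else 0

section basic

variable {a b : ℕ} {G : Str}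

theorem wt_nonneg (ha : 1 ≤ a) (G : Str) (v w : ℕ) : 0 ≤ wt a b G v w := by
  unfold wt
  have : (0 : ℤ) ≤ (a : ℤ) - 1 := by
    have : (1 : ℤ) ≤ a := by exact_mod_cast ha
    linarith
  positivity

theorem wt_symm (wf : G.WF a b) (v w : ℕ) : wt a b G v w = wt a b G w v := by
  unfold wt
  rw [wf.hsymm, wf.msymm]

theorem wt_self (wf : G.WF a b) (v : ℕ) : wt a b G v v = 0 := by
  unfold wt
  rw [wf.hirr, wf.mirr]
  simp

theorem cross_symm (wf : G.WF a b) (S T : Finset ℕ) : cross a b G S T = cross a b G T S := by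
  unfold cross
  rw [sum_comm]
  exact sum_congr rfl fun v _ => sum_congr rfl fun w _ => wt_symm wf _ _

theorem cross_nonneg (ha : 1 ≤ a) (S T : Finset ℕ) : 0 ≤ cross a b G S T :=
  sum_nonneg fun _ _ => sum_nonneg fun _ _ => wt_nonneg ha _ _ _

theorem inner_union (wf : G.WF a b) {S T : Finset ℕ} (hd : Disjoint S T) :
    inner a b G (S ∪ T) = inner a b G S + inner a b G T + cross a b G S T := by
  unfold inner cross
  rw [sum_union hd]
  simp_rw [sum_union hd, sum_add_distrib]
  have h1 : ∑ v ∈ T, ∑ w ∈ S, (if v < w then wt a b G v w else 0)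
      = ∑ v ∈ S, ∑ w ∈ T, (if w < v then wt a b G v w else 0) := by
    rw [sum_comm]
    refine sum_congr rfl fun v _ => sum_congr rfl fun w _ => ?_
    split_ifs
    · exact wt_symm wf _ _
    · rfl
  have h2 : ∑ v ∈ S, ∑ w ∈ T, (if v < w then wt a b G v w else 0)
      + ∑ v ∈ S, ∑ w ∈ T, (if w < v then wt a b G v w else 0)
      = ∑ v ∈ S, ∑ w ∈ T, wt a b G v w := by
    rw [← sum_add_distrib]
    refine sum_congr rfl fun v hv => ?_
    rw [← sum_add_distrib]
    refine sum_congr rfl fun w hw => ?_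
    have hne : v ≠ w := fun h => disjoint_left.1 hd hv (h ▸ hw)
    rcases lt_or_gt_of_ne hne with h | h
    · rw [if_pos h, if_neg (not_lt.2 h.le), add_zero]
    · rw [if_neg (not_lt.2 h.le), if_pos h, zero_add]
  rw [h1]
  linarith

theorem rho_union (wf : G.WF a b) {S T : Finset ℕ} (hd : Disjoint S T) :
    rho a b G (S ∪ T) = rho a b G S + rho a b G T - cross a b G S T := by
  unfold rho
  rw [sum_union hd, inner_union wf hd]
  ring

theorem rho_empty : rho a b G ∅ = 0 := by simp [rho, inner]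

theorem rho_singleton (v : ℕ) : rho a b G {v} = rv a b G v := by
  simp [rho, inner]

theorem cross_singleton (v : ℕ) (T : Finset ℕ) :
    cross a b G {v} T = ∑ w ∈ T, wt a b G v w := by simp [cross]

theorem rho_insert (wf : G.WF a b) {v : ℕ} {S : Finset ℕ} (hv : v ∉ S) :
    rho a b G (insert v S) = rv a b G v + rho a b G S - ∑ w ∈ S, wt a b G v w := by
  rw [insert_eq, rho_union wf (disjoint_singleton_left.2 hv), rho_singleton, cross_singleton]

theorem rho_congr {G G' : Str} {S : Finset ℕ}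
    (h1 : ∀ v ∈ S, ∀ w ∈ S, G.h v w = G'.h v w) (h2 : ∀ v ∈ S, ∀ w ∈ S, G.m v w = G'.m v w)
    (h3 : ∀ v ∈ S, G.t v = G'.t v) (h4 : ∀ v ∈ S, G.s v = G'.s v) :
    rho a b G S = rho a b G' S := by
  unfold rho inner
  congr 1
  · exact sum_congr rfl fun v hv => by unfold rv; rw [h3 v hv, h4 v hv]
  · refine sum_congr rfl fun v hv => sum_congr rfl fun w hw => ?_
    unfold wt
    rw [h1 v hv w hw, h2 v hv w hw]

/-- Indicator of the unordered pair `{p, q}`. -/
def dl (p q v w : ℕ) : ℕ := if (v = p ∧ w = q) ∨ (v = q ∧ w = p) then 1 else 0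

theorem dl_symm (p q v w : ℕ) : dl p q v w = dl p q w v := by
  unfold dl
  by_cases h : (v = p ∧ w = q) ∨ (v = q ∧ w = p)
  · rw [if_pos h, if_pos (by tauto)]
  · rw [if_neg h, if_neg (by tauto)]

theorem sum_dl {p q : ℕ} (hpq : p ≠ q) (S : Finset ℕ) (c : ℤ) :
    ∑ v ∈ S, ∑ w ∈ S, (if v < w then c * (dl p q v w : ℤ) else 0)
      = if p ∈ S ∧ q ∈ S then c else 0 := by
  classical
  wlog hlt : p < q generalizing p q with H
  · have h := H (p := q) (q := p) hpq.symm (lt_of_le_of_ne (not_lt.1 hlt) hpq.symm)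
    have e1 : ∀ v w, dl p q v w = dl q p v w := by
      intro v w
      unfold dl
      by_cases h : (v = p ∧ w = q) ∨ (v = q ∧ w = p)
      · rw [if_pos h, if_pos (by tauto)]
      · rw [if_neg h, if_neg (by tauto)]
    simp_rw [e1]
    rw [h]
    simp [and_comm]
  have key : ∀ v ∈ S, ∀ w ∈ S, (if v < w then c * (dl p q v w : ℤ) else 0)
      = if v = p then (if w = q then c else 0) else 0 := by
    intro v _ w _
    unfold dl
    by_cases hv : v = p
    · subst hv
      by_cases hw : w = q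
      · subst hw
        simp [hlt]
      · have : ¬ ((v = v ∧ w = q) ∨ (v = q ∧ w = v)) := by
          rintro (⟨_, h⟩ | ⟨h, _⟩)
          · exact hw h
          · exact hpq h
        rw [if_neg this]
        simp [hw]
    · by_cases hvw : v < w
      · have : ¬ ((v = p ∧ w = q) ∨ (v = q ∧ w = p)) := by
          rintro (⟨h, _⟩ | ⟨h1, h2⟩)
          · exact hv h
          · omega
        rw [if_neg this]
        simp [hv]
      · simp [hv, hvw]
  rw [sum_congr rfl fun v hv => sum_congr rfl fun w hw => key v hv w hw]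
  by_cases hp : p ∈ S
  · by_cases hq : q ∈ S
    · simp [hp, hq]
    · simp [hp, hq]
  · have : ∀ v ∈ S, ∑ w ∈ S, (if v = p then (if w = q then c else 0) else 0) = 0 := by
      intro v hv
      have : v ≠ p := fun h => hp (h ▸ hv)
      simp [this]
    rw [sum_congr rfl this]
    simp [hp]

/-- General comparison of potentials: edges and links at the pair `{p, q}` change by `dh`, `dm`,
vertex weights change by `dr`. -/
theorem rho_mod {G G' : Str} {p q : ℕ} (hpq : p ≠ q) (S : Finset ℕ) (ch cm : ℤ) (dr : ℕ → ℤ)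
    (h1 : ∀ v ∈ S, ∀ w ∈ S, (G'.h v w : ℤ) = G.h v w - ch * dl p q v w)
    (h2 : ∀ v ∈ S, ∀ w ∈ S, (G'.m v w : ℤ) = G.m v w - cm * dl p q v w)
    (h3 : ∀ v ∈ S, rv a b G' v = rv a b G v - dr v) :
    rho a b G' S = rho a b G S - (∑ v ∈ S, dr v)
      + if p ∈ S ∧ q ∈ S then (b : ℤ) * (a - 1) * ch + a * cm else 0 := by
  unfold rho inner
  rw [← sum_dl hpq S ((b : ℤ) * (a - 1) * ch + a * cm)]
  have e1 : ∑ v ∈ S, rv a b G' v = ∑ v ∈ S, rv a b G v - ∑ v ∈ S, dr v := by
    rw [← sum_sub_distrib]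
    exact sum_congr rfl h3
  have e2 : (∑ v ∈ S, ∑ w ∈ S, if v < w then wt a b G' v w else 0)
      = (∑ v ∈ S, ∑ w ∈ S, if v < w then wt a b G v w else 0)
        - ∑ v ∈ S, ∑ w ∈ S, (if v < w then ((b : ℤ) * (a - 1) * ch + a * cm) * (dl p q v w : ℤ)
            else 0) := by
    rw [← sum_sub_distrib]
    refine sum_congr rfl fun v hv => ?_
    rw [← sum_sub_distrib]
    refine sum_congr rfl fun w hw => ?_
    split_ifs
    · unfold wt
      rw [h1 v hv w hw, h2 v hv w hw]
      ring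
    · ring
  rw [e1, e2]
  ring

theorem thr_true (G : Str) (v : ℕ) : thr G true v = G.t v := rfl

theorem thr_false (G : Str) (v : ℕ) : thr G false v = G.s v := rfl

theorem ctr_t_pos {G : Str} {T : Finset ℕ} {x : ℕ → Bool} {r : ℕ}
    (h : (∑ v ∈ T, if x v then G.h v r else 0) = 0) :
    (G.ctr T x).t r = G.t r - ∑ v ∈ T, (if x v then 0 else G.m v r) := if_pos h

theorem ctr_t_neg {G : Str} {T : Finset ℕ} {x : ℕ → Bool} {r : ℕ}
    (h : ¬ (∑ v ∈ T, if x v then G.h v r else 0) = 0) : (G.ctr T x).t r = 0 := if_neg h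

theorem ctr_s_pos {G : Str} {T : Finset ℕ} {x : ℕ → Bool} {r : ℕ}
    (h : (∑ v ∈ T, if x v then 0 else G.h v r) = 0) :
    (G.ctr T x).s r = G.s r - ∑ v ∈ T, (if x v then G.m v r else 0) := if_pos h

theorem ctr_s_neg {G : Str} {T : Finset ℕ} {x : ℕ → Bool} {r : ℕ}
    (h : ¬ (∑ v ∈ T, if x v then 0 else G.h v r) = 0) : (G.ctr T x).s r = 0 := if_neg h

theorem comb (wf : G.WF a b) {T : Finset ℕ} (hT : T ⊆ G.V) {x : ℕ → Bool} {A : ℕ → ℕ → ℕ}
    (hc : IsCol (G.res T) x A) {y : ℕ → Bool} {B : ℕ → ℕ → ℕ} (hy : IsCol (G.ctr T x) y B) :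
    ∃ x' A', IsCol G x' A' ∧ (∀ v ∈ T, x' v = x v) ∧
      (∀ v ∈ T, load G x' A' G.V v = load G x A T v) ∧ (∀ v, v ∉ T → x' v = y v) := by
  classical
  -- no monochromatic edges between `T` and the rest
  have key : ∀ r ∈ G.V \ T, ∀ v ∈ T, x v = y r → G.h v r = 0 := by
    intro r hr v hv hxy
    have h1 := hy.cap r hr
    have h2 : 0 < thr (G.ctr T x) (y r) r := by omega
    cases hyr : y r
    · rw [hyr, thr_false] at h2
      rw [hyr] at hxy
      have h3 : (∑ v ∈ T, if x v then 0 else G.h v r) = 0 := by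
        by_contra hne
        rw [ctr_s_neg hne] at h2
        omega
      rw [sum_eq_zero_iff] at h3
      have h4 := h3 v hv
      rw [hxy] at h4
      simpa using h4
    · rw [hyr, thr_true] at h2
      rw [hyr] at hxy
      have h3 : (∑ v ∈ T, if x v then G.h v r else 0) = 0 := by
        by_contra hne
        rw [ctr_t_neg hne] at h2
        omega
      rw [sum_eq_zero_iff] at h3
      have h4 := h3 v hv
      rw [hxy] at h4
      simpa using h4
  have key2 : ∀ r ∈ G.V \ T, load (G.ctr T x) y B (G.V \ T) r + 1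
      + ∑ v ∈ T, (if x v = y r then 0 else G.m v r) ≤ thr G (y r) r := by
    intro r hr
    have h1 := hy.cap r hr
    have hV : (G.ctr T x).V = G.V \ T := rfl
    rw [hV] at h1
    cases hyr : y r
    · rw [hyr, thr_false] at h1
      rw [thr_false]
      have h3 : (∑ v ∈ T, if x v then 0 else G.h v r) = 0 := by
        by_contra hne
        have := ctr_s_neg hne
        omega
      have h4 := ctr_s_pos h3
      have h5 : ∑ v ∈ T, (if x v = false then 0 else G.m v r)
          = ∑ v ∈ T, (if x v then G.m v r else 0) := by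
        refine sum_congr rfl fun v _ => ?_
        cases x v <;> simp
      rw [h4] at h1
      rw [h5]
      omega
    · rw [hyr, thr_true] at h1
      rw [thr_true]
      have h3 : (∑ v ∈ T, if x v then G.h v r else 0) = 0 := by
        by_contra hne
        have := ctr_t_neg hne
        omega
      have h4 := ctr_t_pos h3
      have h5 : ∑ v ∈ T, (if x v = true then 0 else G.m v r)
          = ∑ v ∈ T, (if x v then 0 else G.m v r) := by
        refine sum_congr rfl fun v _ => ?_
        cases x v <;> simp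
      rw [h4] at h1
      rw [h5]
      omega
  let x' : ℕ → Bool := fun v => if v ∈ T then x v else y v
  let A' : ℕ → ℕ → ℕ := fun v w =>
    if v ∈ T then (if w ∈ T then A v w else 0)
    else (if w ∈ T then (if x w = y v then 0 else G.m w v) else B v w)
  have hx'T : ∀ v ∈ T, x' v = x v := fun v hv => by simp [x', hv]
  have hx'R : ∀ v, v ∉ T → x' v = y v := fun v hv => by simp [x', hv]
  have hloadT : ∀ v ∈ T, load G x' A' G.V v = load G x A T v := by
    intro v hv
    unfold load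
    rw [← sum_sdiff hT]
    have e1 : ∑ w ∈ G.V \ T, ((if x' v = x' w then G.h v w else 0) + A' v w) = 0 := by
      refine sum_eq_zero fun w hw => ?_
      have hwT : w ∉ T := (mem_sdiff.1 hw).2
      have hA : A' v w = 0 := by simp [A', hv, hwT]
      rw [hA, hx'T v hv, hx'R w hwT, add_zero]
      split_ifs with h
      · exact key w hw v hv h
      · rfl
    rw [e1, zero_add]
    refine sum_congr rfl fun w hw => ?_
    have hA : A' v w = A v w := by simp [A', hv, hw]
    rw [hA, hx'T v hv, hx'T w hw]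
  refine ⟨x', A', ⟨?_, ?_⟩, hx'T, hloadT, hx'R⟩
  · intro v hv w hw hne
    by_cases hvT : v ∈ T
    · by_cases hwT : w ∈ T
      · have h1 : A' v w = A v w := by simp [A', hvT, hwT]
        have h2 : A' w v = A w v := by simp [A', hvT, hwT]
        rw [h1, h2]
        rw [hx'T v hvT, hx'T w hwT] at hne
        exact hc.cov v hvT w hwT hne
      · have h2 : A' w v = (if x v = y w then 0 else G.m v w) := by simp [A', hvT, hwT]
        rw [hx'T v hvT, hx'R w hwT] at hne
        rw [h2, if_neg hne]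
        exact Nat.le_add_left _ _
    · by_cases hwT : w ∈ T
      · have h2 : A' v w = (if x w = y v then 0 else G.m w v) := by simp [A', hvT, hwT]
        rw [hx'R v hvT, hx'T w hwT] at hne
        rw [h2, if_neg (Ne.symm hne), wf.msymm v w]
        exact Nat.le_add_right _ _
      · have h1 : A' v w = B v w := by simp [A', hvT, hwT]
        have h2 : A' w v = B w v := by simp [A', hvT, hwT]
        rw [h1, h2]
        rw [hx'R v hvT, hx'R w hwT] at hne
        exact hy.cov v (mem_sdiff.2 ⟨hv, hvT⟩) w (mem_sdiff.2 ⟨hw, hwT⟩) hne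
  · intro v hv
    by_cases hvT : v ∈ T
    · rw [hloadT v hvT, hx'T v hvT]
      exact hc.cap v hvT
    · have hvR : v ∈ G.V \ T := mem_sdiff.2 ⟨hv, hvT⟩
      rw [hx'R v hvT]
      refine le_trans ?_ (key2 v hvR)
      have e : load G x' A' G.V v = load (G.ctr T x) y B (G.V \ T) v
          + ∑ w ∈ T, (if x w = y v then 0 else G.m w v) := by
        unfold load
        rw [← sum_sdiff hT]
        congr 1
        · refine sum_congr rfl fun w hw => ?_
          have hwT : w ∉ T := (mem_sdiff.1 hw).2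
          have hA : A' v w = B v w := by simp [A', hvT, hwT]
          rw [hA, hx'R v hvT, hx'R w hwT]
          rfl
        · refine sum_congr rfl fun w hw => ?_
          have hA : A' v w = (if x w = y v then 0 else G.m w v) := by simp [A', hvT, hw]
          rw [hA, hx'R v hvT, hx'T w hw]
          have : (if y v = x w then G.h v w else 0) = 0 := by
            split_ifs with h
            · rw [wf.hsymm]
              exact key v hvR w hw h.symm
            · rfl
          rw [this, zero_add]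
      rw [e]
      omega

theorem ctr_t_le (G : Str) (T : Finset ℕ) (x : ℕ → Bool) (r : ℕ) : (G.ctr T x).t r ≤ G.t r := by
  by_cases h : (∑ v ∈ T, if x v then G.h v r else 0) = 0
  · rw [ctr_t_pos h]; exact Nat.sub_le _ _
  · rw [ctr_t_neg h]; exact Nat.zero_le _

theorem ctr_s_le (G : Str) (T : Finset ℕ) (x : ℕ → Bool) (r : ℕ) : (G.ctr T x).s r ≤ G.s r := by
  by_cases h : (∑ v ∈ T, if x v then 0 else G.h v r) = 0
  · rw [ctr_s_pos h]; exact Nat.sub_le _ _
  · rw [ctr_s_neg h]; exact Nat.zero_le _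

theorem ctr_wf (wf : G.WF a b) (T : Finset ℕ) (x : ℕ → Bool) : (G.ctr T x).WF a b where
  hsymm := wf.hsymm
  msymm := wf.msymm
  hirr := wf.hirr
  mirr := wf.mirr
  hle := wf.hle
  tb := fun v hv w hw h => (Nat.add_le_add_right (ctr_t_le G T x v) 1).trans
    (wf.tb v (mem_sdiff.1 hv).1 w (mem_sdiff.1 hw).1 h)
  sb := fun v hv w hw h => (Nat.add_le_add_right (ctr_s_le G T x v) 1).trans
    (wf.sb v (mem_sdiff.1 hv).1 w (mem_sdiff.1 hw).1 h)

theorem ctr_rv (wf : G.WF a b) {T : Finset ℕ} (hT : T ⊆ G.V) (x : ℕ → Bool)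
    {r : ℕ} (hr : r ∈ G.V) :
    rv a b G r - (∑ v ∈ T, wt a b G v r)
      + ((a : ℤ) - b) * ((∑ v ∈ T, if x v then G.h v r + G.m v r else 0 : ℕ) : ℤ)
      ≤ rv a b (G.ctr T x) r := by
  obtain ⟨Ht, hHt⟩ : ∃ k, k = ∑ v ∈ T, if x v then G.h v r else 0 := ⟨_, rfl⟩
  obtain ⟨Hs, hHs⟩ : ∃ k, k = ∑ v ∈ T, if x v then 0 else G.h v r := ⟨_, rfl⟩
  obtain ⟨Mt, hMt⟩ : ∃ k, k = ∑ v ∈ T, if x v then G.m v r else 0 := ⟨_, rfl⟩
  obtain ⟨Ms, hMs⟩ : ∃ k, k = ∑ v ∈ T, if x v then 0 else G.m v r := ⟨_, rfl⟩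
  have e1 : (∑ v ∈ T, if x v then G.h v r + G.m v r else 0) = Ht + Mt := by
    rw [hHt, hMt, ← sum_add_distrib]
    refine sum_congr rfl fun v _ => ?_
    split_ifs <;> rfl
  have e2 : (∑ v ∈ T, wt a b G v r) = (b : ℤ) * (a - 1) * (Ht + Hs) + a * (Mt + Ms) := by
    have h1 : (∑ v ∈ T, G.h v r) = Ht + Hs := by
      rw [hHt, hHs, ← sum_add_distrib]
      refine sum_congr rfl fun v _ => ?_
      split_ifs <;> simp
    have h2 : (∑ v ∈ T, G.m v r) = Mt + Ms := by
      rw [hMt, hMs, ← sum_add_distrib]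
      refine sum_congr rfl fun v _ => ?_
      split_ifs <;> simp
    unfold wt
    rw [sum_add_distrib, ← mul_sum, ← mul_sum]
    have h3 : (∑ v ∈ T, (G.h v r : ℤ)) = (Ht : ℤ) + Hs := by exact_mod_cast h1
    have h4 : (∑ v ∈ T, (G.m v r : ℤ)) = (Mt : ℤ) + Ms := by exact_mod_cast h2
    rw [h3, h4]
  have ht : (a : ℤ) * G.t r ≤ a * (G.ctr T x).t r + a * (b - 1) * Ht + a * Ms := by
    by_cases h0 : Ht = 0
    · have h1 := ctr_t_pos (hHt ▸ h0)
      rw [← hMs] at h1
      have h2 : G.t r ≤ (G.ctr T x).t r + Ms := by omega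
      have h3 : (G.t r : ℤ) ≤ (G.ctr T x).t r + Ms := by exact_mod_cast h2
      rw [h0]
      push_cast
      nlinarith
    · have h1 : ∃ v ∈ T, (if x v then G.h v r else 0) ≠ 0 := by
        by_contra hcon
        push Not at hcon
        exact h0 (by rw [hHt]; exact sum_eq_zero hcon)
      obtain ⟨v, hv, hne⟩ := h1
      have h2 : G.h v r ≠ 0 := by
        intro h
        apply hne
        rw [h]
        simp
      have h3 := wf.tb r hr v (hT hv) (by rwa [wf.hsymm])
      have h4 : (G.t r : ℤ) ≤ b - 1 := by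
        have : (G.t r : ℤ) + 1 ≤ b := by exact_mod_cast h3
        linarith
      have h5 : (1 : ℤ) ≤ Ht := by exact_mod_cast Nat.one_le_iff_ne_zero.2 h0
      have h6 : (0 : ℤ) ≤ G.t r := Int.natCast_nonneg _
      have h7 : (0 : ℤ) ≤ (G.ctr T x).t r := Int.natCast_nonneg _
      have h8 : (0 : ℤ) ≤ Ms := Int.natCast_nonneg _
      have h9 : (0 : ℤ) ≤ a := Int.natCast_nonneg _
      have h10 : (b : ℤ) - 1 ≤ (b - 1) * Ht := by nlinarith
      nlinarith [mul_nonneg h9 h7, mul_nonneg h9 h8, mul_le_mul_of_nonneg_left h4 h9,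
        mul_le_mul_of_nonneg_left h10 h9]
  have hs : (b : ℤ) * G.s r ≤ b * (G.ctr T x).s r + b * (a - 1) * Hs + b * Mt := by
    by_cases h0 : Hs = 0
    · have h1 := ctr_s_pos (hHs ▸ h0)
      rw [← hMt] at h1
      have h2 : G.s r ≤ (G.ctr T x).s r + Mt := by omega
      have h3 : (G.s r : ℤ) ≤ (G.ctr T x).s r + Mt := by exact_mod_cast h2
      rw [h0]
      push_cast
      nlinarith
    · have h1 : ∃ v ∈ T, (if x v then 0 else G.h v r) ≠ 0 := by
        by_contra hcon
        push Not at hcon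
        exact h0 (by rw [hHs]; exact sum_eq_zero hcon)
      obtain ⟨v, hv, hne⟩ := h1
      have h2 : G.h v r ≠ 0 := by
        intro h
        apply hne
        rw [h]
        simp
      have h3 := wf.sb r hr v (hT hv) (by rwa [wf.hsymm])
      have h4 : (G.s r : ℤ) ≤ a - 1 := by
        have : (G.s r : ℤ) + 1 ≤ a := by exact_mod_cast h3
        linarith
      have h5 : (1 : ℤ) ≤ Hs := by exact_mod_cast Nat.one_le_iff_ne_zero.2 h0
      have h6 : (0 : ℤ) ≤ G.s r := Int.natCast_nonneg _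
      have h7 : (0 : ℤ) ≤ (G.ctr T x).s r := Int.natCast_nonneg _
      have h8 : (0 : ℤ) ≤ Mt := Int.natCast_nonneg _
      have h9 : (0 : ℤ) ≤ b := Int.natCast_nonneg _
      have h10 : (a : ℤ) - 1 ≤ (a - 1) * Hs := by nlinarith
      nlinarith [mul_nonneg h9 h7, mul_nonneg h9 h8, mul_le_mul_of_nonneg_left h4 h9,
        mul_le_mul_of_nonneg_left h10 h9]
  rw [e1, e2]
  unfold rv
  push_cast
  nlinarith

theorem ctr_rho (wf : G.WF a b) {T : Finset ℕ} (hT : T ⊆ G.V) (x : ℕ → Bool)
    {S : Finset ℕ} (hS : S ⊆ G.V) :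
    rho a b G S - cross a b G T S + ((a : ℤ) - b) * (n1 G x T S : ℤ)
      ≤ rho a b (G.ctr T x) S := by
  have e1 : inner a b (G.ctr T x) S = inner a b G S := rfl
  have e2 : cross a b G T S = ∑ r ∈ S, ∑ v ∈ T, wt a b G v r := by
    unfold cross
    rw [sum_comm]
  have e3 : (n1 G x T S : ℤ)
      = ∑ r ∈ S, ((∑ v ∈ T, if x v then G.h v r + G.m v r else 0 : ℕ) : ℤ) := by
    unfold n1
    rw [sum_comm]
    push_cast
    rfl
  unfold rho
  rw [e1, e2, e3, mul_sum]
  have := sum_le_sum fun r hr => ctr_rv wf hT x (hS hr)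
  rw [sum_add_distrib, sum_sub_distrib] at this
  linarith

end basic

end Pool.Agent.Lib.MP_4006b4_co_b
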