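import Mathlib
import Pool.Agent.Lib.MP_4006b4_co_b.Ext

/-!
# First reductions for a minimal counterexample
-/

open Finset

namespace Pool.Agent.Lib.MP_4006b4_co_b

theorem sum_dec2_le {f : ℕ → ℕ} {u w : ℕ} (S : Finset ℕ) {c : ℤ} (hc : 0 ≤ c) :
    ∑ v ∈ S, c * ((f v : ℤ) - dec (dec f u) w v)
      ≤ (if u ∈ S then c else 0) + (if w ∈ S then c else 0) := by
  have e : ∑ v ∈ S, c * ((f v : ℤ) - dec (dec f u) w v)
      = ∑ v ∈ S, c * ((f v : ℤ) - dec f u v)
        + ∑ v ∈ S, c * ((dec f u v : ℤ) - dec (dec f u) w v) := by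
    rw [← sum_add_distrib]
    exact sum_congr rfl fun v _ => by ring
  rw [e]
  exact add_le_add (sum_dec_le S hc) (sum_dec_le (f := dec f u) S hc)

theorem sum_same (f : ℕ → ℕ) (S : Finset ℕ) (c : ℤ) :
    ∑ v ∈ S, c * ((f v : ℤ) - f v) = 0 :=
  sum_eq_zero fun v _ => by ring

theorem Par.hU {a b : ℕ} (P : Par a b) : 2 * (a : ℤ) + 2 * b ≤ (b : ℤ) * (a - 1) := by
  have h : (2 * (a : ℤ) + 3 * b) ≤ a * b := by exact_mod_cast P.hu
  linarith

theorem Par.hab {a b : ℕ} (P : Par a b) : (b : ℤ) + 2 ≤ a := by exact_mod_cast P.ab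

theorem Par.hb3 {a b : ℕ} (P : Par a b) : (3 : ℤ) ≤ b := by exact_mod_cast P.b3

section

variable {a b : ℕ} {G : Str}

theorem MinCE.extp (M : MinCE a b G) (P : Par a b) {T : Finset ℕ} (hT : T ⊆ G.V)
    {x : ℕ → Bool} {A : ℕ → ℕ → ℕ} (hcol : IsCol (G.res T) x A) {v0 r0 : ℕ} (hv0 : v0 ∈ T)
    (hsp : load G x A T v0 + 2 ≤ thr G (x v0) v0) (hr0 : r0 ∈ G.V \ T)
    (hadj : G.h v0 r0 + G.m v0 r0 ≠ 0) :
    ∃ S ⊆ G.V \ T, S.Nonempty ∧ ((r0 ∉ S ∧ rho a b G (T ∪ S) ≤ rho a b G T - b) ∨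
      (r0 ∈ S ∧ rho a b G (T ∪ S) ≤ rho a b G T - b - a)) := by
  have hU := P.hU
  have hab := P.hab
  have hb0 : (0 : ℤ) ≤ b := Int.natCast_nonneg _
  have hab' : b ≤ a := by have := P.ab; omega
  by_cases hm : G.m v0 r0 = 0
  · have hh : 1 ≤ G.h v0 r0 := by omega
    cases hx : x v0
    · refine M.extp_aux hab' hT hcol hv0 hsp hr0 (dh := 1) (dm := 0) hh (Nat.zero_le _) rfl
        (t := G.t) (s := dec G.s r0) (fun _ => le_rfl) (dec_le _ _) (fun _ _ => rfl)
        (fun v hv => dec_ne _ hv) ?_ (C := (b : ℤ)) ?_ ?_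
      · intro k hk
        rw [hx, if_neg (by simp), dec_self] at hk
        rw [hx, thr_false]
        omega
      · push_cast
        linarith
      · intro S
        rw [sum_same, zero_add]
        exact sum_dec_le S hb0
    · refine M.extp_aux hab' hT hcol hv0 hsp hr0 (dh := 1) (dm := 0) hh (Nat.zero_le _) rfl
        (t := dec G.t r0) (s := G.s) (dec_le _ _) (fun _ => le_rfl) (fun v hv => dec_ne _ hv)
        (fun _ _ => rfl) ?_ (C := (a : ℤ)) ?_ ?_
      · intro k hk
        rw [hx, if_pos rfl, dec_self] at hk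
        rw [hx, thr_true]
        omega
      · push_cast
        linarith
      · intro S
        rw [sum_same, add_zero]
        exact sum_dec_le S (Int.natCast_nonneg _)
  · refine M.extp_aux hab' hT hcol hv0 hsp hr0 (dh := 0) (dm := 1) (Nat.zero_le _) (by omega) rfl
        (t := G.t) (s := G.s) (fun _ => le_rfl) (fun _ => le_rfl) (fun _ _ => rfl)
        (fun _ _ => rfl) ?_ (C := 0) ?_ ?_
    · intro k hk
      unfold thr
      exact hk
    · push_cast
      linarith
    · intro S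
      rw [sum_same, sum_same]
      split_ifs <;> simp

theorem MinCE.Vne (M : MinCE a b G) : G.V.Nonempty := by
  by_contra h
  rw [not_nonempty_iff_eq_empty] at h
  refine M.nc ⟨fun _ => true, fun _ _ => 0, ?_, ?_⟩
  · intro v hv
    rw [h] at hv
    exact absurd hv (notMem_empty v)
  · intro v hv
    rw [h] at hv
    exact absurd hv (notMem_empty v)

theorem MinCE.rhoV (M : MinCE a b G) : -(b : ℤ) + 1 ≤ rho a b G G.V :=
  M.pos _ (Subset.refl _) M.Vne

theorem MinCE.conn (M : MinCE a b G) (P : Par a b) {T : Finset ℕ} (hT : T ⊆ G.V)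
    (hne : T.Nonempty) (hTV : T ≠ G.V) :
    ∃ v0 ∈ T, ∃ r0 ∈ G.V \ T, G.h v0 r0 + G.m v0 r0 ≠ 0 := by
  by_contra hcon
  push Not at hcon
  obtain ⟨x, A, hc⟩ := M.colres hT hTV
  obtain ⟨S, hS, hSne, hr⟩ := M.ext hT hne hc
  have h1 : Disjoint T S := disjoint_left.2 fun v hv hvS => (mem_sdiff.1 (hS hvS)).2 hv
  rw [rho_union M.wf h1] at hr
  have h2 : cross a b G T S = 0 := by
    unfold cross
    refine sum_eq_zero fun v hv => sum_eq_zero fun w hw => ?_
    have := hcon v hv w (hS hw)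
    have h3 : G.h v w = 0 := by omega
    have h4 : G.m v w = 0 := by omega
    unfold wt
    rw [h3, h4]
    simp
  have h3 := M.pos S (hS.trans sdiff_subset) hSne
  have h4 : (0 : ℤ) ≤ ((a : ℤ) - b) * (n1 G x T S : ℤ) :=
    mul_nonneg (by have := P.hab; linarith) (Int.natCast_nonneg _)
  linarith

theorem n1_ge {x : ℕ → Bool} {T S : Finset ℕ} {v r : ℕ} (hv : v ∈ T) (hr : r ∈ S)
    (hx : x v = true) : G.h v r + G.m v r ≤ n1 G x T S := by
  unfold n1
  calc G.h v r + G.m v r = if x v then G.h v r + G.m v r else 0 := by rw [hx]; rfl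
    _ ≤ ∑ w ∈ S, if x v then G.h v w + G.m v w else 0 :=
        single_le_sum (f := fun w => if x v then G.h v w + G.m v w else 0)
          (fun _ _ => Nat.zero_le _) hr
    _ ≤ _ := single_le_sum (f := fun v => ∑ w ∈ S, if x v then G.h v w + G.m v w else 0)
          (fun _ _ => Nat.zero_le _) hv

theorem MinCE.p1 (M : MinCE a b G) (P : Par a b) {T : Finset ℕ} (hT : T ⊆ G.V)
    (hne : T.Nonempty) (hTV : T ≠ G.V) : rho a b G G.V + a ≤ rho a b G T := by
  classical
  have hab := P.hab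
  have hb3 := P.hb3
  let Q := G.V.powerset.filter (fun T => T.Nonempty ∧ T ≠ G.V)
  have hQ : ∀ T, T ∈ Q ↔ T ⊆ G.V ∧ T.Nonempty ∧ T ≠ G.V := by
    intro T
    simp [Q]
  obtain ⟨T0, hT0Q, hmin⟩ := exists_min_image Q (fun T => rho a b G T) ⟨T, (hQ T).2 ⟨hT, hne, hTV⟩⟩
  obtain ⟨h0, h0ne, h0V⟩ := (hQ T0).1 hT0Q
  refine le_trans ?_ (hmin T ((hQ T).2 ⟨hT, hne, hTV⟩))
  show rho a b G G.V + a ≤ rho a b G T0
  have hmin' : ∀ S ⊆ G.V, S.Nonempty → S ≠ G.V → rho a b G T0 ≤ rho a b G S :=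
    fun S h1 h2 h3 => hmin S ((hQ S).2 ⟨h1, h2, h3⟩)
  by_contra hcon
  push Not at hcon
  -- any colouring of `T0`
  have claim : ∀ x A, IsCol (G.res T0) x A → n1 G x T0 (G.V \ T0) = 0 := by
    intro x A hc
    obtain ⟨S, hS, hSne, hr⟩ := M.ext h0 h0ne hc
    have h4 : (0 : ℤ) ≤ ((a : ℤ) - b) * (n1 G x T0 S : ℤ) :=
      mul_nonneg (by linarith) (Int.natCast_nonneg _)
    have h5 : T0 ∪ S = G.V := by
      by_contra hne5
      have := hmin' (T0 ∪ S) (union_subset h0 (hS.trans sdiff_subset))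
        (h0ne.mono subset_union_left) hne5
      linarith
    have h6 : S = G.V \ T0 := by
      refine Subset.antisymm hS fun v hv => ?_
      have : v ∈ T0 ∪ S := by rw [h5]; exact (mem_sdiff.1 hv).1
      rcases mem_union.1 this with h | h
      · exact absurd h (mem_sdiff.1 hv).2
      · exact h
    rw [h5, h6] at hr
    by_contra hne0
    have h7 : (1 : ℤ) ≤ (n1 G x T0 (G.V \ T0) : ℤ) := by
      exact_mod_cast Nat.one_le_iff_ne_zero.2 hne0
    nlinarith
  obtain ⟨v0, hv0, r0, hr0, hadj⟩ := M.conn P h0 h0ne h0V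
  have claim2 : ∀ x A, IsCol (G.res T0) x A → x v0 = false := by
    intro x A hc
    have h1 := claim x A hc
    by_contra hx
    have hx' : x v0 = true := by simpa using hx
    have := n1_ge (G := G) hv0 hr0 hx'
    omega
  by_cases hcs : Colorable (G.sub T0 G.t (dec G.s v0))
  · obtain ⟨x, A, hc⟩ := hcs
    have hc' : IsCol (G.res T0) x A :=
      IsCol.mono (G := G.sub T0 G.t (dec G.s v0)) (G' := G.res T0) (fun _ h => h)
        (fun _ _ _ _ => le_rfl) (fun _ _ _ _ => le_rfl) (fun _ _ => le_rfl)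
        (fun v _ => dec_le _ _ _) hc
    have hx := claim2 x A hc'
    have hcap : load G x A T0 v0 + 1 ≤ thr (G.sub T0 G.t (dec G.s v0)) (x v0) v0 := hc.cap v0 hv0
    have hsp : load G x A T0 v0 + 2 ≤ thr G (x v0) v0 := by
      rw [hx] at hcap ⊢
      rw [thr_false] at hcap ⊢
      have : (G.sub T0 G.t (dec G.s v0)).s v0 = G.s v0 - 1 := dec_self _ _
      omega
    obtain ⟨S, hS, hSne, hr⟩ := M.extp P h0 hc' hv0 hsp hr0 hadj
    have hsub : T0 ∪ S ⊆ G.V := union_subset h0 (hS.trans sdiff_subset)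
    have hune : (T0 ∪ S).Nonempty := h0ne.mono subset_union_left
    rcases hr with ⟨h1, h2⟩ | ⟨h1, h2⟩
    · have hne5 : T0 ∪ S ≠ G.V := by
        intro h
        have : r0 ∈ T0 ∪ S := by rw [h]; exact (mem_sdiff.1 hr0).1
        rcases mem_union.1 this with h | h
        · exact (mem_sdiff.1 hr0).2 h
        · exact h1 h
      have := hmin' _ hsub hune hne5
      linarith
    · by_cases hne5 : T0 ∪ S = G.V
      · rw [hne5] at h2
        linarith
      · have := hmin' _ hsub hune hne5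
        linarith
  · obtain ⟨S, hS, hSne, hr⟩ := M.sub h0 h0V (fun _ => le_rfl) (dec_le _ _) hcs
    rw [sum_same] at hr
    have h1 := sum_dec_le (f := G.s) (u := v0) S (c := (b : ℤ)) (by linarith)
    have h2 : rho a b G S ≤ 0 := by
      have : (if v0 ∈ S then (b : ℤ) else 0) ≤ b := by
        split_ifs
        · exact le_rfl
        · linarith
      linarith
    have h3 : S ≠ G.V := fun h => h0V (Subset.antisymm h0 (h ▸ hS))
    have h4 := hmin' S (hS.trans h0) hSne h3
    obtain ⟨x, A, hc⟩ := M.colres h0 h0V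
    obtain ⟨S', hS', hSne', hr'⟩ := M.ext h0 h0ne hc
    have h5 : (0 : ℤ) ≤ ((a : ℤ) - b) * (n1 G x T0 S' : ℤ) :=
      mul_nonneg (by linarith) (Int.natCast_nonneg _)
    have h6 := M.pos (T0 ∪ S') (union_subset h0 (hS'.trans sdiff_subset))
      (h0ne.mono subset_union_left)
    linarith

/-- A usable form of `p1`. -/
theorem MinCE.p1' (M : MinCE a b G) (P : Par a b) {T : Finset ℕ} (hT : T ⊆ G.V)
    (hne : T.Nonempty) (hTV : T ≠ G.V) : (a : ℤ) - b + 1 ≤ rho a b G T := by
  have h1 := M.p1 P hT hne hTV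
  have h2 := M.rhoV
  linarith

theorem MinCE.rem2 (M : MinCE a b G) {p q dh dm : ℕ} (hp : p ∈ G.V) (hq : q ∈ G.V) (hpq : p ≠ q)
    (h1 : dh ≤ G.h p q) (h2 : dm ≤ G.m p q) (h3 : dh + dm = 1) {t s : ℕ → ℕ}
    (ht : ∀ v, t v ≤ G.t v) (hs : ∀ v, s v ≤ G.s v) {cp cq : ℤ}
    (hcost : ∀ S : Finset ℕ, (∑ v ∈ S, (a : ℤ) * ((G.t v : ℤ) - t v))
      + (∑ v ∈ S, (b : ℤ) * ((G.s v : ℤ) - s v))
      ≤ (if p ∈ S then cp else 0) + (if q ∈ S then cq else 0))
    (hsum : cp + cq ≤ (b : ℤ) * (a - 1) * dh + a * dm)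
    (hn : ¬ Colorable (G.rem p q dh dm t s)) :
    ∃ S ⊆ G.V, S.Nonempty ∧ S ≠ G.V ∧ ((p ∈ S ∧ q ∉ S ∧ rho a b G S ≤ cp - b) ∨
      (q ∈ S ∧ p ∉ S ∧ rho a b G S ≤ cq - b)) := by
  obtain ⟨S, hS, hne, hr⟩ := M.rem hp hq hpq h1 h2 h3 ht hs hn
  have hc := hcost S
  have hpos := M.pos S hS hne
  by_cases hpS : p ∈ S
  · by_cases hqS : q ∈ S
    · rw [if_pos ⟨hpS, hqS⟩] at hr
      rw [if_pos hpS, if_pos hqS] at hc
      linarith
    · rw [if_neg (fun h => hqS h.2)] at hr
      rw [if_pos hpS, if_neg hqS] at hc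
      exact ⟨S, hS, hne, fun h => hqS (h ▸ hq), Or.inl ⟨hpS, hqS, by linarith⟩⟩
  · rw [if_neg (fun h => hpS h.1)] at hr
    by_cases hqS : q ∈ S
    · rw [if_neg hpS, if_pos hqS] at hc
      exact ⟨S, hS, hne, fun h => hpS (h ▸ hp), Or.inr ⟨hqS, hpS, by linarith⟩⟩
    · rw [if_neg hpS, if_neg hqS] at hc
      linarith

theorem MinCE.rem3 (M : MinCE a b G) (P : Par a b) {p q dh dm : ℕ} (hp : p ∈ G.V)
    (hq : q ∈ G.V) (hpq : p ≠ q)
    (h1 : dh ≤ G.h p q) (h2 : dm ≤ G.m p q) (h3 : dh + dm = 1) {t s : ℕ → ℕ}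
    (ht : ∀ v, t v ≤ G.t v) (hs : ∀ v, s v ≤ G.s v) {cp cq : ℤ} (hcp : cp ≤ a) (hcq : cq ≤ a)
    (hcost : ∀ S : Finset ℕ, (∑ v ∈ S, (a : ℤ) * ((G.t v : ℤ) - t v))
      + (∑ v ∈ S, (b : ℤ) * ((G.s v : ℤ) - s v))
      ≤ (if p ∈ S then cp else 0) + (if q ∈ S then cq else 0))
    (hsum : cp + cq ≤ (b : ℤ) * (a - 1) * dh + a * dm) :
    Colorable (G.rem p q dh dm t s) := by
  by_contra hn
  obtain ⟨S, hS, hne, hSV, hr⟩ := M.rem2 hp hq hpq h1 h2 h3 ht hs hcost hsum hn
  have := M.p1' P hS hne hSV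
  rcases hr with ⟨_, _, h⟩ | ⟨_, _, h⟩ <;> linarith

theorem MinCE.single (M : MinCE a b G) {v : ℕ} : ({v} : Finset ℕ) ≠ G.V := by
  intro h
  have h1 := M.pos {v} (by rw [h]) (singleton_nonempty v)
  rw [rho_singleton] at h1
  unfold rv at h1
  have key : ∀ c : Bool, 1 ≤ thr G c v → False := by
    intro c hc
    refine M.nc ⟨fun _ => c, fun _ _ => 0, ?_, ?_⟩
    · intro _ _ _ _ hne
      exact absurd rfl hne
    · intro w hw
      rw [← h, mem_singleton] at hw
      subst hw
      have : load G (fun _ => c) (fun _ _ => 0) G.V w = 0 := by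
        unfold load
        rw [← h]
        simp [M.wf.hirr]
      rw [this]
      omega
  have k1 := key true
  have k2 := key false
  rw [thr_true] at k1
  rw [thr_false] at k2
  have h3 : G.t v = 0 := by
    by_contra h
    exact k1 (by omega)
  have h4 : G.s v = 0 := by
    by_contra h
    exact k2 (by omega)
  rw [h3, h4] at h1
  push_cast at h1
  linarith

theorem MinCE.spos (M : MinCE a b G) (P : Par a b) {f : ℕ} (hf : f ∈ G.V) : 1 ≤ G.s f := by
  by_contra hcon
  have h0 : G.s f = 0 := by omega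
  have hU := P.hU
  have hab := P.hab
  have hb3 := P.hb3
  have ha0 : (0 : ℤ) ≤ a := Int.natCast_nonneg _
  obtain ⟨f', hf', y, hy, hadj⟩ := M.conn P (singleton_subset_iff.2 hf) (singleton_nonempty f)
    M.single
  rw [mem_singleton] at hf'
  subst hf'
  have hyV : y ∈ G.V := (mem_sdiff.1 hy).1
  have hne : f' ≠ y := fun h => (mem_sdiff.1 hy).2 (mem_singleton.2 h.symm)
  by_cases hm : G.m f' y = 0
  · have hh : 1 ≤ G.h f' y := by omega
    obtain ⟨x, B, hc⟩ := M.rem3 P hf hyV hne (dh := 1) (dm := 0) hh (Nat.zero_le _) rfl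
      (t := dec (dec G.t f') y) (s := G.s)
      (fun v => (dec_le _ _ _).trans (dec_le _ _ _)) (fun _ => le_rfl) (cp := a) (cq := a)
      le_rfl le_rfl (fun S => by rw [sum_same, add_zero]; exact sum_dec2_le S ha0)
      (by push_cast; linarith)
    refine M.nc (restore hyV hne hc ?_)
    intro v hv
    have hcv := hc.cap v hv
    have hVV : (G.rem f' y 1 0 (dec (dec G.t f') y) G.s).V = G.V := rfl
    rw [hVV] at hcv
    have hxf : x f' = true := by
      by_contra hx
      have hx' : x f' = false := by simpa using hx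
      have := hc.cap f' hf
      rw [hx', thr_false] at this
      have h5 : (G.rem f' y 1 0 (dec (dec G.t f') y) G.s).s f' = 0 := h0
      omega
    by_cases hvf : v = f'
    · subst hvf
      rw [hxf, thr_true] at hcv ⊢
      have h5 : (G.rem v y 1 0 (dec (dec G.t v) y) G.s).t v = G.t v - 1 := by
        show dec (dec G.t v) y v = _
        rw [dec_ne _ hne, dec_self]
      rw [h5] at hcv
      split_ifs <;> omega
    · rw [if_neg hvf, add_zero]
      by_cases hvy : v = y
      · subst hvy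
        by_cases hxx : x f' = x v
        · rw [if_pos ⟨hxx, Or.inr rfl⟩]
          rw [← hxx, hxf, thr_true] at hcv ⊢
          have h5 : (G.rem f' v 1 0 (dec (dec G.t f') v) G.s).t v = G.t v - 1 := by
            show dec (dec G.t f') v v = _
            rw [dec_self, dec_ne _ (Ne.symm hne)]
          rw [h5] at hcv
          omega
        · rw [if_neg (fun hh => hxx hh.1), add_zero]
          refine hcv.trans ?_
          unfold thr
          split_ifs
          · exact (dec_le _ _ _).trans (dec_le _ _ _)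
          · exact le_rfl
      · rw [if_neg (fun hh => by tauto), add_zero]
        refine hcv.trans ?_
        unfold thr
        split_ifs
        · exact (dec_le _ _ _).trans (dec_le _ _ _)
        · exact le_rfl
  · obtain ⟨x, B, hc⟩ := M.rem3 P hf hyV hne (dh := 0) (dm := 1) (Nat.zero_le _) (by omega) rfl
      (t := dec G.t f') (s := G.s)
      (fun v => dec_le _ _ _) (fun _ => le_rfl) (cp := a) (cq := 0)
      le_rfl ha0 (fun S => by
        rw [sum_same, add_zero]
        have := sum_dec_le (f := G.t) (u := f') S ha0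
        split_ifs at this ⊢ <;> linarith)
      (by push_cast; linarith)
    refine M.nc (restore hyV hne hc ?_)
    intro v hv
    have hcv := hc.cap v hv
    have hVV : (G.rem f' y 0 1 (dec G.t f') G.s).V = G.V := rfl
    rw [hVV] at hcv
    have hxf : x f' = true := by
      by_contra hx
      have hx' : x f' = false := by simpa using hx
      have := hc.cap f' hf
      rw [hx', thr_false] at this
      have h5 : (G.rem f' y 0 1 (dec G.t f') G.s).s f' = 0 := h0
      omega
    by_cases hvf : v = f'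
    · subst hvf
      rw [hxf, thr_true] at hcv ⊢
      have h5 : (G.rem v y 0 1 (dec G.t v) G.s).t v = G.t v - 1 := dec_self _ _
      rw [h5] at hcv
      split_ifs <;> omega
    · rw [if_neg hvf, add_zero]
      have h6 : (if x f' = x y ∧ (v = f' ∨ v = y) then 0 else 0) = 0 := by split_ifs <;> rfl
      rw [h6, add_zero]
      refine hcv.trans ?_
      unfold thr
      split_ifs
      · exact dec_le _ _ _
      · exact le_rfl

theorem MinCE.tpos (M : MinCE a b G) (P : Par a b) {f : ℕ} (hf : f ∈ G.V) : 1 ≤ G.t f := by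
  by_contra hcon
  have h0 : G.t f = 0 := by omega
  have hU := P.hU
  have hab := P.hab
  have hb3 := P.hb3
  have ha0 : (0 : ℤ) ≤ a := Int.natCast_nonneg _
  have hb0 : (0 : ℤ) ≤ b := Int.natCast_nonneg _
  obtain ⟨f', hf', y, hy, hadj⟩ := M.conn P (singleton_subset_iff.2 hf) (singleton_nonempty f)
    M.single
  rw [mem_singleton] at hf'
  subst hf'
  have hyV : y ∈ G.V := (mem_sdiff.1 hy).1
  have hne : f' ≠ y := fun h => (mem_sdiff.1 hy).2 (mem_singleton.2 h.symm)
  by_cases hm : G.m f' y = 0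
  · have hh : 1 ≤ G.h f' y := by omega
    obtain ⟨x, B, hc⟩ := M.rem3 P hf hyV hne (dh := 1) (dm := 0) hh (Nat.zero_le _) rfl
      (t := G.t) (s := dec (dec G.s f') y)
      (fun _ => le_rfl) (fun v => (dec_le _ _ _).trans (dec_le _ _ _)) (cp := b) (cq := b)
      (by linarith) (by linarith)
      (fun S => by rw [sum_same, zero_add]; exact sum_dec2_le S hb0)
      (by push_cast; linarith)
    refine M.nc (restore hyV hne hc ?_)
    intro v hv
    have hcv := hc.cap v hv
    have hVV : (G.rem f' y 1 0 G.t (dec (dec G.s f') y)).V = G.V := rfl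
    rw [hVV] at hcv
    have hxf : x f' = false := by
      by_contra hx
      have hx' : x f' = true := by simpa using hx
      have := hc.cap f' hf
      rw [hx', thr_true] at this
      have h5 : (G.rem f' y 1 0 G.t (dec (dec G.s f') y)).t f' = 0 := h0
      omega
    by_cases hvf : v = f'
    · subst hvf
      rw [hxf, thr_false] at hcv ⊢
      have h5 : (G.rem v y 1 0 G.t (dec (dec G.s v) y)).s v = G.s v - 1 := by
        show dec (dec G.s v) y v = _
        rw [dec_ne _ hne, dec_self]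
      rw [h5] at hcv
      split_ifs <;> omega
    · rw [if_neg hvf, add_zero]
      by_cases hvy : v = y
      · subst hvy
        by_cases hxx : x f' = x v
        · rw [if_pos ⟨hxx, Or.inr rfl⟩]
          rw [← hxx, hxf, thr_false] at hcv ⊢
          have h5 : (G.rem f' v 1 0 G.t (dec (dec G.s f') v)).s v = G.s v - 1 := by
            show dec (dec G.s f') v v = _
            rw [dec_self, dec_ne _ (Ne.symm hne)]
          rw [h5] at hcv
          omega
        · rw [if_neg (fun hh => hxx hh.1), add_zero]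
          refine hcv.trans ?_
          unfold thr
          split_ifs
          · exact le_rfl
          · exact (dec_le _ _ _).trans (dec_le _ _ _)
      · rw [if_neg (fun hh => by tauto), add_zero]
        refine hcv.trans ?_
        unfold thr
        split_ifs
        · exact le_rfl
        · exact (dec_le _ _ _).trans (dec_le _ _ _)
  · obtain ⟨x, B, hc⟩ := M.rem3 P hf hyV hne (dh := 0) (dm := 1) (Nat.zero_le _) (by omega) rfl
      (t := G.t) (s := dec G.s f')
      (fun _ => le_rfl) (fun v => dec_le _ _ _) (cp := b) (cq := 0)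
      (by linarith) ha0 (fun S => by
        rw [sum_same, zero_add]
        have := sum_dec_le (f := G.s) (u := f') S hb0
        split_ifs at this ⊢ <;> linarith)
      (by push_cast; linarith)
    refine M.nc (restore hyV hne hc ?_)
    intro v hv
    have hcv := hc.cap v hv
    have hVV : (G.rem f' y 0 1 G.t (dec G.s f')).V = G.V := rfl
    rw [hVV] at hcv
    have hxf : x f' = false := by
      by_contra hx
      have hx' : x f' = true := by simpa using hx
      have := hc.cap f' hf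
      rw [hx', thr_true] at this
      have h5 : (G.rem f' y 0 1 G.t (dec G.s f')).t f' = 0 := h0
      omega
    by_cases hvf : v = f'
    · subst hvf
      rw [hxf, thr_false] at hcv ⊢
      have h5 : (G.rem v y 0 1 G.t (dec G.s v)).s v = G.s v - 1 := dec_self _ _
      rw [h5] at hcv
      split_ifs <;> omega
    · rw [if_neg hvf, add_zero]
      have h6 : (if x f' = x y ∧ (v = f' ∨ v = y) then 0 else 0) = 0 := by split_ifs <;> rfl
      rw [h6, add_zero]
      refine hcv.trans ?_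
      unfold thr
      split_ifs
      · exact le_rfl
      · exact dec_le _ _ _

/-- Boundary of `T`. -/
noncomputable def bd (G : Str) (T : Finset ℕ) : Finset ℕ := by
  classical exact T.filter (fun v => ∃ r ∈ G.V \ T, G.h v r + G.m v r ≠ 0)

theorem mem_bd {T : Finset ℕ} {v : ℕ} :
    v ∈ bd G T ↔ v ∈ T ∧ ∃ r ∈ G.V \ T, G.h v r + G.m v r ≠ 0 := by
  classical
  unfold bd
  rw [mem_filter]

theorem MinCE.bd_ne (M : MinCE a b G) (P : Par a b) {T : Finset ℕ} (hT : T ⊆ G.V)
    (hne : T.Nonempty) (hTV : T ≠ G.V) : (bd G T).Nonempty := by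
  obtain ⟨v0, hv0, r0, hr0, hadj⟩ := M.conn P hT hne hTV
  exact ⟨v0, mem_bd.2 ⟨hv0, r0, hr0, hadj⟩⟩

theorem union_ne {T S V : Finset ℕ} {r : ℕ} (hr : r ∈ V \ T) (hrS : r ∉ S) : T ∪ S ≠ V := by
  intro h
  have : r ∈ T ∪ S := by rw [h]; exact (mem_sdiff.1 hr).1
  rcases mem_union.1 this with h | h
  · exact (mem_sdiff.1 hr).2 h
  · exact hrS h

theorem MinCE.sat (M : MinCE a b G) (P : Par a b) {T : Finset ℕ} (hT : T ⊆ G.V)
    (hsm : rho a b G T ≤ a) {x : ℕ → Bool} {A : ℕ → ℕ → ℕ}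
    (hcol : IsCol (G.res T) x A) {v0 : ℕ} (hv : v0 ∈ bd G T) :
    load G x A T v0 + 1 = thr G (x v0) v0 := by
  obtain ⟨hv0, r0, hr0, hadj⟩ := mem_bd.1 hv
  have hcap : load G x A T v0 + 1 ≤ thr G (x v0) v0 := hcol.cap v0 hv0
  by_contra hcon
  obtain ⟨S, hS, hSne, hr⟩ := M.extp P hT hcol hv0 (by omega) hr0 hadj
  have hsub : T ∪ S ⊆ G.V := union_subset hT (hS.trans sdiff_subset)
  have hune : (T ∪ S).Nonempty := hSne.mono subset_union_right
  rcases hr with ⟨h1, h2⟩ | ⟨h1, h2⟩
  · have := M.p1' P hsub hune (union_ne hr0 h1)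
    linarith
  · have := M.pos _ hsub hune
    linarith

theorem MinCE.n1le (M : MinCE a b G) (P : Par a b) {T : Finset ℕ} (hT : T ⊆ G.V)
    (hne : T.Nonempty) (hsm : rho a b G T ≤ a) {x : ℕ → Bool} {A : ℕ → ℕ → ℕ}
    (hcol : IsCol (G.res T) x A) :
    rho a b G G.V + ((a : ℤ) - b) * (n1 G x T (G.V \ T) : ℤ) ≤ rho a b G T - b := by
  obtain ⟨S, hS, hSne, hr⟩ := M.ext hT hne hcol
  have h4 : (0 : ℤ) ≤ ((a : ℤ) - b) * (n1 G x T S : ℤ) :=
    mul_nonneg (by have := P.hab; linarith) (Int.natCast_nonneg _)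
  have h5 : T ∪ S = G.V := by
    by_contra hne5
    have := M.p1' P (union_subset hT (hS.trans sdiff_subset)) (hne.mono subset_union_left) hne5
    linarith
  have h6 : S = G.V \ T := by
    refine Subset.antisymm hS fun v hv => ?_
    have : v ∈ T ∪ S := by rw [h5]; exact (mem_sdiff.1 hv).1
    rcases mem_union.1 this with h | h
    · exact absurd h (mem_sdiff.1 hv).2
    · exact h
  rw [h5, h6] at hr
  exact hr

theorem MinCE.both (M : MinCE a b G) (P : Par a b) {T : Finset ℕ} (hT : T ⊆ G.V)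
    (hTV : T ≠ G.V) (hsm : rho a b G T ≤ a) {v0 : ℕ} (hv : v0 ∈ bd G T) (c : Bool) :
    ∃ x A, IsCol (G.res T) x A ∧ x v0 = c := by
  have hab := P.hab
  have hb3 := P.hb3
  have ha0 : (0 : ℤ) ≤ a := Int.natCast_nonneg _
  have hb0 : (0 : ℤ) ≤ b := Int.natCast_nonneg _
  have hv0 := (mem_bd.1 hv).1
  cases c
  · have hcol : Colorable (G.sub T (dec G.t v0) G.s) := by
      by_contra hn
      obtain ⟨S, hS, hSne, hr⟩ := M.sub hT hTV (dec_le _ _) (fun _ => le_rfl) hn
      rw [sum_same] at hr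
      have h1 := sum_dec_le (f := G.t) (u := v0) S ha0
      have h3 : S ≠ G.V := fun h => hTV (Subset.antisymm hT (h ▸ hS))
      have h4 := M.p1' P (hS.trans hT) hSne h3
      split_ifs at h1 <;> linarith
    obtain ⟨x, A, hc⟩ := hcol
    have hc' : IsCol (G.res T) x A :=
      IsCol.mono (G := G.sub T (dec G.t v0) G.s) (G' := G.res T) (fun _ h => h)
        (fun _ _ _ _ => le_rfl) (fun _ _ _ _ => le_rfl) (fun v _ => dec_le _ _ _)
        (fun _ _ => le_rfl) hc
    refine ⟨x, A, hc', ?_⟩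
    by_contra hx
    have hx' : x v0 = true := by simpa using hx
    have hcap : load G x A T v0 + 1 ≤ thr (G.sub T (dec G.t v0) G.s) (x v0) v0 := hc.cap v0 hv0
    have hs := M.sat P hT hsm hc' hv
    rw [hx'] at hcap hs
    rw [thr_true] at hcap hs
    have : (G.sub T (dec G.t v0) G.s).t v0 = G.t v0 - 1 := dec_self _ _
    omega
  · have hcol : Colorable (G.sub T G.t (dec G.s v0)) := by
      by_contra hn
      obtain ⟨S, hS, hSne, hr⟩ := M.sub hT hTV (fun _ => le_rfl) (dec_le _ _) hn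
      rw [sum_same] at hr
      have h1 := sum_dec_le (f := G.s) (u := v0) S hb0
      have h3 : S ≠ G.V := fun h => hTV (Subset.antisymm hT (h ▸ hS))
      have h4 := M.p1' P (hS.trans hT) hSne h3
      split_ifs at h1 <;> linarith
    obtain ⟨x, A, hc⟩ := hcol
    have hc' : IsCol (G.res T) x A :=
      IsCol.mono (G := G.sub T G.t (dec G.s v0)) (G' := G.res T) (fun _ h => h)
        (fun _ _ _ _ => le_rfl) (fun _ _ _ _ => le_rfl) (fun _ _ => le_rfl)
        (fun v _ => dec_le _ _ _) hc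
    refine ⟨x, A, hc', ?_⟩
    by_contra hx
    have hx' : x v0 = false := by simpa using hx
    have hcap : load G x A T v0 + 1 ≤ thr (G.sub T G.t (dec G.s v0)) (x v0) v0 := hc.cap v0 hv0
    have hs := M.sat P hT hsm hc' hv
    rw [hx'] at hcap hs
    rw [thr_false] at hcap hs
    have : (G.sub T G.t (dec G.s v0)).s v0 = G.s v0 - 1 := dec_self _ _
    omega

theorem sum_dec_dec_le {t s : ℕ → ℕ} {u w : ℕ} (S : Finset ℕ) {c d : ℤ} (hc : 0 ≤ c)
    (hd : 0 ≤ d) : (∑ v ∈ S, c * ((t v : ℤ) - dec (dec t u) w v))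
      + (∑ v ∈ S, d * ((s v : ℤ) - dec (dec s u) w v))
      ≤ (if u ∈ S then c + d else 0) + (if w ∈ S then c + d else 0) := by
  have h1 := sum_dec2_le (f := t) (u := u) (w := w) S hc
  have h2 := sum_dec2_le (f := s) (u := u) (w := w) S hd
  split_ifs at h1 h2 ⊢ <;> linarith

/-- For an edge `uw` there is a small set containing exactly one of `u, w`. -/
theorem MinCE.f5 (M : MinCE a b G) (P : Par a b) {u w : ℕ} (hu : u ∈ G.V) (hw : w ∈ G.V)
    (hh : G.h u w ≠ 0) :
    ∃ S ⊆ G.V, S.Nonempty ∧ S ≠ G.V ∧ rho a b G S ≤ a ∧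
      ((u ∈ S ∧ w ∉ S) ∨ (w ∈ S ∧ u ∉ S)) := by
  have hU := P.hU
  have ha0 : (0 : ℤ) ≤ a := Int.natCast_nonneg _
  have hb0 : (0 : ℤ) ≤ b := Int.natCast_nonneg _
  have hne : u ≠ w := fun h => hh (by rw [h]; exact M.wf.hirr w)
  have hn : ¬ Colorable (G.rem u w 1 0 (dec (dec G.t u) w) (dec (dec G.s u) w)) := by
    rintro ⟨x, B, hc⟩
    refine M.nc (restore hw hne hc ?_)
    intro v hv
    have hcv := hc.cap v hv
    have hVV : (G.rem u w 1 0 (dec (dec G.t u) w) (dec (dec G.s u) w)).V = G.V := rfl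
    rw [hVV] at hcv
    have e1 : (if v = u then 0 else 0) = 0 := by split_ifs <;> rfl
    rw [e1, add_zero]
    have key : thr (G.rem u w 1 0 (dec (dec G.t u) w) (dec (dec G.s u) w)) (x v) v
        = thr G (x v) v - if v = u ∨ v = w then 1 else 0 := by
      unfold thr
      show (if (x v) = true then dec (dec G.t u) w v else dec (dec G.s u) w v) = _
      by_cases h1 : v = u
      · subst h1
        rw [dec_ne _ hne, dec_ne _ hne, dec_self, dec_self, if_pos (Or.inl rfl)]
        split_ifs <;> rfl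
      · by_cases h2 : v = w
        · subst h2
          rw [dec_self, dec_self, dec_ne _ h1, dec_ne _ h1, if_pos (Or.inr rfl)]
          split_ifs <;> rfl
        · have h3 : ¬ (v = u ∨ v = w) := by tauto
          rw [dec_ne _ h2, dec_ne _ h2, dec_ne _ h1, dec_ne _ h1]
          simp only [h3, if_false, Nat.sub_zero]
    rw [key] at hcv
    split_ifs at hcv ⊢ <;> first | omega | tauto
  obtain ⟨S, hS, hne, hSV, hr⟩ := M.rem2 hu hw hne (dh := 1) (dm := 0) (by omega)
    (Nat.zero_le _) rfl (fun v => (dec_le _ _ _).trans (dec_le _ _ _))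
    (fun v => (dec_le _ _ _).trans (dec_le _ _ _))
    (cp := a + b) (cq := a + b) (fun S => sum_dec_dec_le S ha0 hb0)
    (by push_cast; linarith) hn
  refine ⟨S, hS, hne, hSV, ?_⟩
  rcases hr with ⟨h1, h2, h3⟩ | ⟨h1, h2, h3⟩
  · exact ⟨by linarith, Or.inl ⟨h1, h2⟩⟩
  · exact ⟨by linarith, Or.inr ⟨h1, h2⟩⟩

end

end Pool.Agent.Lib.MP_4006b4_co_b
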