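import Mathlib
import Pool.Agent.Lib.MP_4006b4_co_b.Red

/-!
# The gain functional and absorbing a maximal minimiser
-/

open Finset

namespace Pool.Agent.Lib.MP_4006b4_co_b

section

variable {a b : ℕ} {K : Str}

/-- The gain of `X` over the coloured set `T`. -/
def gn (a b : ℕ) (K : Str) (x : ℕ → Bool) (T X : Finset ℕ) : ℤ :=
  rho a b K X - cross a b K T X + ((a : ℤ) - b) * (n1 K x T X : ℤ)

theorem cross_union_left {S S' : Finset ℕ} (h : Disjoint S S') (T : Finset ℕ) :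
    cross a b K (S ∪ S') T = cross a b K S T + cross a b K S' T := by
  unfold cross
  rw [sum_union h]

theorem cross_union_right (S : Finset ℕ) {T T' : Finset ℕ} (h : Disjoint T T') :
    cross a b K S (T ∪ T') = cross a b K S T + cross a b K S T' := by
  unfold cross
  rw [← sum_add_distrib]
  exact sum_congr rfl fun v _ => sum_union h

theorem n1_union_left (x : ℕ → Bool) {S S' : Finset ℕ} (h : Disjoint S S') (T : Finset ℕ) :
    n1 K x (S ∪ S') T = n1 K x S T + n1 K x S' T := by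
  unfold n1
  rw [sum_union h]

theorem n1_union_right (x : ℕ → Bool) (S : Finset ℕ) {T T' : Finset ℕ} (h : Disjoint T T') :
    n1 K x S (T ∪ T') = n1 K x S T + n1 K x S T' := by
  unfold n1
  rw [← sum_add_distrib]
  exact sum_congr rfl fun v _ => sum_union h

theorem n1_congr {x x' : ℕ → Bool} {T : Finset ℕ} (h : ∀ v ∈ T, x v = x' v) (X : Finset ℕ) :
    n1 K x T X = n1 K x' T X := by
  unfold n1
  refine sum_congr rfl fun v hv => sum_congr rfl fun w _ => ?_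
  rw [h v hv]

theorem n1_mono (x : ℕ → Bool) (T : Finset ℕ) {X Y : Finset ℕ} (h : X ⊆ Y) :
    n1 K x T X ≤ n1 K x T Y := by
  unfold n1
  exact sum_le_sum fun v _ => sum_le_sum_of_subset h

theorem n1_empty (x : ℕ → Bool) (T : Finset ℕ) : n1 K x T ∅ = 0 := by simp [n1]

theorem cross_empty_left (T : Finset ℕ) : cross a b K ∅ T = 0 := by simp [cross]

theorem cross_empty_right (T : Finset ℕ) : cross a b K T ∅ = 0 := by simp [cross]

theorem gn_empty (x : ℕ → Bool) (T : Finset ℕ) : gn a b K x T ∅ = 0 := by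
  unfold gn
  rw [rho_empty, cross_empty_right, n1_empty]
  simp

theorem gn_nil (x : ℕ → Bool) (X : Finset ℕ) : gn a b K x ∅ X = rho a b K X := by
  unfold gn
  have : n1 K x ∅ X = 0 := by simp [n1]
  rw [cross_empty_left, this]
  simp

theorem gn_union (wf : K.WF a b) (x : ℕ → Bool) (T : Finset ℕ) {X Y : Finset ℕ}
    (h : Disjoint X Y) :
    gn a b K x T (X ∪ Y) = gn a b K x T X + gn a b K x T Y - cross a b K X Y := by
  unfold gn
  rw [rho_union wf h, cross_union_right _ h, n1_union_right x T h]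
  push_cast
  ring

theorem gn_comb (x : ℕ → Bool) {T S : Finset ℕ} (h : Disjoint T S) (X : Finset ℕ) :
    gn a b K x (T ∪ S) X = gn a b K x T X - cross a b K S X
      + ((a : ℤ) - b) * (n1 K x S X : ℤ) := by
  unfold gn
  rw [cross_union_left h, n1_union_left x h]
  push_cast
  ring

theorem gn_congr {x x' : ℕ → Bool} {T : Finset ℕ} (h : ∀ v ∈ T, x v = x' v) (X : Finset ℕ) :
    gn a b K x T X = gn a b K x' T X := by
  unfold gn
  rw [n1_congr h]

theorem rho_gn (wf : K.WF a b) (x : ℕ → Bool) {T X : Finset ℕ} (h : Disjoint T X) :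
    rho a b K (T ∪ X) = rho a b K T + gn a b K x T X - ((a : ℤ) - b) * (n1 K x T X : ℤ) := by
  unfold gn
  rw [rho_union wf h]
  ring

theorem gn_submod (wf : K.WF a b) (x : ℕ → Bool) (T X Y : Finset ℕ) :
    gn a b K x T (X ∪ Y) + gn a b K x T (X ∩ Y) + cross a b K (X \ Y) (Y \ X)
      = gn a b K x T X + gn a b K x T Y := by
  have d1 : Disjoint (X \ Y) (X ∩ Y) := disjoint_left.2 fun v h1 h2 =>
    (mem_sdiff.1 h1).2 (mem_inter.1 h2).2
  have d2 : Disjoint (Y \ X) (X ∩ Y) := disjoint_left.2 fun v h1 h2 =>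
    (mem_sdiff.1 h1).2 (mem_inter.1 h2).1
  have d3 : Disjoint (X \ Y) Y := sdiff_disjoint
  have e1 : X = (X \ Y) ∪ (X ∩ Y) := by
    ext v
    simp only [mem_union, mem_sdiff, mem_inter]
    tauto
  have e2 : Y = (Y \ X) ∪ (X ∩ Y) := by
    ext v
    simp only [mem_union, mem_sdiff, mem_inter]
    tauto
  have e3 : X ∪ Y = (X \ Y) ∪ Y := by
    ext v
    simp only [mem_union, mem_sdiff]
    tauto
  have k1 := gn_union wf x T d1
  rw [← e1] at k1
  have k2 := gn_union wf x T d2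
  rw [← e2] at k2
  have k3 := gn_union wf x T d3
  rw [← e3] at k3
  have k4 : cross a b K (X \ Y) Y = cross a b K (X \ Y) (Y \ X) + cross a b K (X \ Y) (X ∩ Y) := by
    rw [← cross_union_right _ d2, ← e2]
  linarith

theorem gn_submod_le (wf : K.WF a b) (ha : 1 ≤ a) (x : ℕ → Bool) (T X Y : Finset ℕ) :
    gn a b K x T (X ∪ Y) + gn a b K x T (X ∩ Y) ≤ gn a b K x T X + gn a b K x T Y := by
  have h1 := gn_submod wf x T X Y
  have h2 : 0 ≤ cross a b K (X \ Y) (Y \ X) := cross_nonneg ha _ _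
  linarith

theorem rho_submod_le (wf : K.WF a b) (ha : 1 ≤ a) (X Y : Finset ℕ) :
    rho a b K (X ∪ Y) + rho a b K (X ∩ Y) ≤ rho a b K X + rho a b K Y := by
  have h := gn_submod_le wf ha (fun _ => true) ∅ X Y
  simpa only [gn_nil] using h

theorem maxmin (f : Finset ℕ → ℤ) (W : Finset ℕ) :
    ∃ S ⊆ W, (∀ X ⊆ W, f S ≤ f X) ∧ (∀ X ⊆ W, S ⊆ X → X ≠ S → f S + 1 ≤ f X) := by
  obtain ⟨S0, hS0, hmin⟩ := exists_min_image W.powerset f ⟨∅, empty_mem_powerset W⟩
  obtain ⟨S, hS, hmax⟩ := exists_max_image (W.powerset.filter (fun X => f X = f S0))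
    (fun X => #X) ⟨S0, mem_filter.2 ⟨hS0, rfl⟩⟩
  obtain ⟨hSW, hSe⟩ := mem_filter.1 hS
  refine ⟨S, mem_powerset.1 hSW, ?_, ?_⟩
  · intro X hX
    rw [hSe]
    exact hmin X (mem_powerset.2 hX)
  · intro X hX hSX hne
    have h1 : f S ≤ f X := by
      rw [hSe]
      exact hmin X (mem_powerset.2 hX)
    by_contra hcon
    have h2 : f X = f S0 := by
      rw [← hSe]
      omega
    have h3 := hmax X (mem_filter.2 ⟨mem_powerset.2 hX, h2⟩)
    have h4 : #S < #X := card_lt_card ((ssubset_iff_subset_ne).2 ⟨hSX, Ne.symm hne⟩)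
    omega

/-- The induction hypothesis. -/
def IH (a b N : ℕ) : Prop := ∀ G' : Str, G'.WF a b →
  (∀ S ⊆ G'.V, S.Nonempty → -(b : ℤ) + 1 ≤ rho a b G' S) → hc G' < N → Colorable G'

theorem res_wf (wf : K.WF a b) {T : Finset ℕ} (hT : T ⊆ K.V) : (K.res T).WF a b where
  hsymm := wf.hsymm
  msymm := wf.msymm
  hirr := wf.hirr
  mirr := wf.mirr
  hle := wf.hle
  tb := fun v hv w hw h => wf.tb v (hT hv) w (hT hw) h
  sb := fun v hv w hw h => wf.sb v (hT hv) w (hT hw) h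

theorem ctrcol {N : ℕ} (ih : IH a b N) (wf : K.WF a b) (hN : hc K < N) {T : Finset ℕ}
    (hT : T ⊆ K.V) (x : ℕ → Bool) {R : Finset ℕ} (hR : R ⊆ K.V \ T)
    (hg : ∀ X ⊆ R, X.Nonempty → -(b : ℤ) + 1 ≤ gn a b K x T X) :
    ∃ y D, IsCol ((K.ctr T x).res R) y D := by
  refine ih ((K.ctr T x).res R) (res_wf (ctr_wf wf T x) hR) ?_ ?_
  · intro S hS hne
    have hS' : S ⊆ R := hS
    have h1 := ctr_rho wf hT x (S := S) ((hS'.trans hR).trans sdiff_subset)
    have h2 := hg S hS' hne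
    unfold gn at h2
    have h3 : rho a b ((K.ctr T x).res R) S = rho a b (K.ctr T x) S := rfl
    rw [h3]
    linarith
  · refine lt_of_le_of_lt ?_ hN
    exact hc_mono (G := K) (G' := (K.ctr T x).res R) (hR.trans sdiff_subset)
      fun v _ w _ => le_rfl

theorem ctr_res_eq (K : Str) (T R : Finset ℕ) (x : ℕ → Bool) (h : Disjoint T R) :
    (K.res (T ∪ R)).ctr T x = (K.ctr T x).res R := by
  have hV : (T ∪ R) \ T = R := by
    ext v
    simp only [mem_sdiff, mem_union]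
    constructor
    · rintro ⟨h1 | h1, h2⟩
      · exact absurd h1 h2
      · exact h1
    · intro h1
      exact ⟨Or.inr h1, fun h2 => disjoint_left.1 h h2 h1⟩
  unfold Str.ctr Str.res
  simp only [hV]

theorem combR (wf : K.WF a b) {T R : Finset ℕ} (hT : T ⊆ K.V) (hR : R ⊆ K.V \ T)
    {x : ℕ → Bool} {C : ℕ → ℕ → ℕ} (hc : IsCol (K.res T) x C) {y : ℕ → Bool}
    {D : ℕ → ℕ → ℕ} (hy : IsCol ((K.ctr T x).res R) y D) :
    ∃ x' C', IsCol (K.res (T ∪ R)) x' C' ∧ (∀ v ∈ T, x' v = x v) ∧ (∀ v ∈ R, x' v = y v) := by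
  have hd : Disjoint T R := disjoint_left.2 fun v h1 h2 => (mem_sdiff.1 (hR h2)).2 h1
  have hTR : T ∪ R ⊆ K.V := union_subset hT (hR.trans sdiff_subset)
  obtain ⟨x', C', h1, h2, _, h3⟩ := comb (G := K.res (T ∪ R)) (res_wf wf hTR)
    (T := T) subset_union_left (x := x) (A := C) hc (y := y) (B := D)
    (by rw [ctr_res_eq K T R x hd]; exact hy)
  exact ⟨x', C', h1, h2, fun v hv => h3 v fun hvT => disjoint_left.1 hd hvT hv⟩

/-- Extending a colouring. -/
theorem extcol {N : ℕ} (ih : IH a b N) (wf : K.WF a b) (hN : hc K < N) {T R : Finset ℕ}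
    (hT : T ⊆ K.V) (hR : R ⊆ K.V \ T) {x : ℕ → Bool} {C : ℕ → ℕ → ℕ} (hc : IsCol (K.res T) x C)
    (hg : ∀ X ⊆ R, X.Nonempty → -(b : ℤ) + 1 ≤ gn a b K x T X) :
    ∃ x' C', IsCol (K.res (T ∪ R)) x' C' ∧ (∀ v ∈ T, x' v = x v) := by
  obtain ⟨y, D, hy⟩ := ctrcol ih wf hN hT x hR hg
  obtain ⟨x', C', h1, h2, _⟩ := combR wf hT hR hc hy
  exact ⟨x', C', h1, h2⟩

/-- Absorbing a maximal minimiser. -/
theorem absorb {N : ℕ} (ih : IH a b N) (wf : K.WF a b) (hN : hc K < N) (hab : b ≤ a)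
    {T : Finset ℕ} (hT : T ⊆ K.V) {x : ℕ → Bool} {C : ℕ → ℕ → ℕ} (hc : IsCol (K.res T) x C)
    (hg : ∀ X ⊆ K.V \ T, X.Nonempty → -(b : ℤ) + 1 ≤ gn a b K x T X) :
    ∃ S ⊆ K.V \ T, ∃ x' C', IsCol (K.res (T ∪ S)) x' C' ∧ (∀ v ∈ T, x' v = x v) ∧
      (∀ X ⊆ K.V \ (T ∪ S), X.Nonempty → 1 ≤ gn a b K x' (T ∪ S) X) ∧
      (∀ X ⊆ K.V \ T, gn a b K x T S ≤ gn a b K x T X) := by
  obtain ⟨S, hS, hmin, hmax⟩ := maxmin (fun X => gn a b K x T X) (K.V \ T)
  obtain ⟨x', C', h1, h2⟩ := extcol ih wf hN hT hS hc (fun X hX hne => hg X (hX.trans hS) hne)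
  refine ⟨S, hS, x', C', h1, h2, ?_, hmin⟩
  intro X hX hne
  have hdTS : Disjoint T S := disjoint_left.2 fun v h3 h4 => (mem_sdiff.1 (hS h4)).2 h3
  have hXT : X ⊆ K.V \ T := fun v hv => mem_sdiff.2 ⟨(mem_sdiff.1 (hX hv)).1,
    fun h3 => (mem_sdiff.1 (hX hv)).2 (mem_union_left _ h3)⟩
  have hdSX : Disjoint S X := disjoint_left.2 fun v h3 h4 =>
    (mem_sdiff.1 (hX h4)).2 (mem_union_right _ h3)
  have k1 := hmax (S ∪ X) (union_subset hS hXT) subset_union_left (by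
    intro h
    obtain ⟨v, hv⟩ := hne
    exact disjoint_left.1 hdSX (h ▸ mem_union_right _ hv) hv)
  have k2 := gn_union wf x T hdSX
  have k3 := gn_comb (a := a) (b := b) (K := K) x' hdTS X
  have k4 := gn_congr (a := a) (b := b) (K := K) h2 X
  have k5 : (0 : ℤ) ≤ ((a : ℤ) - b) * (n1 K x' S X : ℤ) :=
    mul_nonneg (by have : (b : ℤ) ≤ a := by exact_mod_cast hab
                   linarith) (Int.natCast_nonneg _)
  have k1' : gn a b K x T S + 1 ≤ gn a b K x T (S ∪ X) := k1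
  rw [k3, k4]
  linarith

end

end Pool.Agent.Lib.MP_4006b4_co_b
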