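import Mathlib
import Pool.Agent.Lib.MP_4006b4_co_b.Gain

/-!
# Phase one: the greedy run from a net coloured in the first part
-/

open Finset

namespace Pool.Agent.Lib.MP_4006b4_co_b

/-- The situation in which the greedy run takes place: `c` is a net linked only to `u`, the
vertices of `I` are nets with exactly one link. -/
structure Phase (a b N : ℕ) (K : Str) (I : Finset ℕ) (c u : ℕ) : Prop where
  wf : K.WF a b
  ih : IH a b N
  hN : hc K < N
  ab : b + 2 ≤ a
  hcV : c ∈ K.V
  huV : u ∈ K.V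
  huc : u ≠ c
  hI : I ⊆ K.V
  hcI : c ∉ I
  huI : u ∉ I
  tc : K.t c = 1
  sc : K.s c = 1
  hc0 : ∀ v ∈ K.V, K.h c v = 0
  mc : ∀ v ∈ K.V, K.m c v = if v = u then 1 else 0
  tI : ∀ p ∈ I, K.t p = 1
  sI : ∀ p ∈ I, K.s p = 1
  hI0 : ∀ p ∈ I, ∀ v ∈ K.V, K.h p v = 0
  mI : ∀ p ∈ I, ∑ v ∈ K.V, K.m p v ≤ 1
  mII : ∀ p ∈ I, ∀ q ∈ I, K.m p q = 0
  p1 : ∀ X ⊆ K.V, c ∈ X → (a : ℤ) - b + 1 ≤ rho a b K X

/-- A state of the run. -/
structure State (a b : ℕ) (K : Str) (I : Finset ℕ) (c u : ℕ) (T B : Finset ℕ) (x : ℕ → Bool)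
    (C : ℕ → ℕ → ℕ) (L : ℤ) : Prop where
  hT : T ⊆ K.V
  hBT : B ⊆ T
  hc : c ∈ B
  hBI : B ⊆ insert c I
  col : IsCol (K.res T) x C
  xc : x c = true
  xB : ∀ v ∈ B, v ≠ c → x v = false
  f1 : ∀ X ⊆ K.V \ T, X.Nonempty → 1 ≤ gn a b K x T X
  f2 : rho a b K T = a * (#B : ℤ) - L
  f3 : ∀ X ⊆ T, a * (#(X ∩ B) : ℤ) - L ≤ rho a b K X
  f4 : u ∈ T → (a : ℤ) - b ≤ L

section

variable {a b N : ℕ} {K : Str} {I : Finset ℕ} {c u : ℕ}

theorem net_rho {v : ℕ} (ht : K.t v = 1) (hs : K.s v = 1) : rho a b K {v} = a := by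
  rw [rho_singleton]
  unfold rv
  rw [ht, hs]
  push_cast
  ring

theorem State.L0 {T B : Finset ℕ} {x : ℕ → Bool} {C : ℕ → ℕ → ℕ} {L : ℤ}
    (S : State a b K I c u T B x C L) : 0 ≤ L := by
  have := S.f3 ∅ (empty_subset _)
  rw [empty_inter, card_empty, rho_empty] at this
  push_cast at this
  linarith

theorem Phase.base (H : Phase a b N K I c u) :
    ∃ T x C L, State a b K I c u T {c} x C L := by
  classical
  have hab : (b : ℤ) + 2 ≤ a := by exact_mod_cast H.ab
  have ha1 : 1 ≤ a := by have := H.ab; omega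
  have hcs : ({c} : Finset ℕ) ⊆ K.V := singleton_subset_iff.2 H.hcV
  have hcol : IsCol (K.res {c}) (fun _ => true) (fun _ _ => 0) := by
    refine ⟨fun _ _ _ _ hne => absurd rfl hne, ?_⟩
    intro w hw
    have hw' : w = c := mem_singleton.1 hw
    subst hw'
    have : load (K.res {w}) (fun _ => true) (fun _ _ => 0) (K.res {w}).V w = 0 := by
      unfold load
      show ∑ z ∈ {w}, _ = 0
      rw [sum_singleton]
      show (if true = true then K.h w w else 0) + 0 = 0
      rw [H.wf.hirr]
      rfl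
    rw [this]
    show 0 + 1 ≤ K.t w
    rw [H.tc]
  have hrc : rho a b K {c} = a := net_rho H.tc H.sc
  have hg : ∀ X ⊆ K.V \ {c}, X.Nonempty → -(b : ℤ) + 1 ≤ gn a b K (fun _ => true) {c} X := by
    intro X hX _
    have hd : Disjoint {c} X := disjoint_left.2 fun v h1 h2 => (mem_sdiff.1 (hX h2)).2 h1
    have h1 := rho_gn (a := a) (b := b) H.wf (fun _ => true) hd
    have h2 := H.p1 ({c} ∪ X) (union_subset hcs (hX.trans sdiff_subset))
      (mem_union_left _ (mem_singleton_self c))
    have h3 : (0 : ℤ) ≤ ((a : ℤ) - b) * (n1 K (fun _ => true) {c} X : ℤ) :=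
      mul_nonneg (by linarith) (Int.natCast_nonneg _)
    linarith
  obtain ⟨S, hS, x', C', h1, h2, h3, h4⟩ :=
    absorb H.ih H.wf H.hN (by have := H.ab; omega) hcs hcol hg
  have hdS : Disjoint {c} S := disjoint_left.2 fun v h1 h2 => (mem_sdiff.1 (hS h2)).2 h1
  have e1 := rho_gn (a := a) (b := b) H.wf (fun _ => true) hdS
  have e0 : gn a b K (fun _ => true) {c} S ≤ 0 := by
    have := h4 ∅ (empty_subset _)
    rw [gn_empty] at this
    exact this
  have hTV : {c} ∪ S ⊆ K.V := union_subset hcs (hS.trans sdiff_subset)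
  refine ⟨{c} ∪ S, x', C', a - rho a b K ({c} ∪ S), hTV, subset_union_left, mem_singleton_self c,
    singleton_subset_iff.2 (mem_insert_self _ _), h1, h2 c (mem_singleton_self c), ?_, h3, ?_,
    ?_, ?_⟩
  · intro v hv hne
    exact absurd (mem_singleton.1 hv) hne
  · rw [card_singleton]
    push_cast
    ring
  · intro X hX
    have key : ∀ Y ⊆ {c} ∪ S, c ∈ Y → rho a b K ({c} ∪ S) ≤ rho a b K Y := by
      intro Y hY hcY
      have hY' : Y \ {c} ⊆ S := by
        intro v hv
        rcases mem_union.1 (hY (mem_sdiff.1 hv).1) with h | h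
        · exact absurd h (mem_sdiff.1 hv).2
        · exact h
      have hYe : Y = {c} ∪ Y \ {c} := by
        ext v
        simp only [mem_union, mem_singleton, mem_sdiff]
        constructor
        · intro h
          by_cases hvc : v = c
          · exact Or.inl hvc
          · exact Or.inr ⟨h, hvc⟩
        · rintro (h | h)
          · rw [h]
            exact hcY
          · exact h.1
      have hd : Disjoint {c} (Y \ {c}) := disjoint_sdiff
      have e2 := rho_gn (a := a) (b := b) H.wf (fun _ => true) hd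
      rw [← hYe] at e2
      have e3 := h4 (Y \ {c}) (hY'.trans hS)
      have e4 : (n1 K (fun _ => true) {c} (Y \ {c}) : ℤ) ≤ n1 K (fun _ => true) {c} S := by
        exact_mod_cast n1_mono _ _ hY'
      have e5 : ((a : ℤ) - b) * (n1 K (fun _ => true) {c} (Y \ {c}) : ℤ)
          ≤ ((a : ℤ) - b) * (n1 K (fun _ => true) {c} S : ℤ) :=
        mul_le_mul_of_nonneg_left e4 (by linarith)
      linarith
    by_cases hcX : c ∈ X
    · have e : X ∩ {c} = {c} := by
        ext v
        simp only [mem_inter, mem_singleton]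
        constructor
        · exact fun h => h.2
        · intro h
          rw [h]
          exact ⟨hcX, rfl⟩
      rw [e, card_singleton]
      have := key X hX hcX
      push_cast
      linarith
    · have e : X ∩ {c} = ∅ := by
        ext v
        simp only [mem_inter, mem_singleton, notMem_empty, iff_false]
        rintro ⟨h5, h6⟩
        exact hcX (h6 ▸ h5)
      rw [e, card_empty]
      have h5 := key (X ∪ {c}) (union_subset hX subset_union_left)
        (mem_union_right _ (mem_singleton_self c))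
      have h6 := rho_submod_le (a := a) (b := b) H.wf ha1 X {c}
      rw [e, rho_empty] at h6
      push_cast
      linarith
  · intro hu
    have huS : u ∈ S := by
      rcases mem_union.1 hu with h | h
      · exact absurd (mem_singleton.1 h) H.huc
      · exact h
    have h5 : 1 ≤ n1 K (fun _ => true) {c} S := by
      have h6 := n1_ge (G := K) (x := fun _ => true) (T := {c}) (S := S)
        (mem_singleton_self c) huS rfl
      have h7 := H.mc u H.huV
      rw [if_pos rfl] at h7
      omega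
    have h8 : (1 : ℤ) ≤ n1 K (fun _ => true) {c} S := by exact_mod_cast h5
    have h9 : (a : ℤ) - b ≤ ((a : ℤ) - b) * (n1 K (fun _ => true) {c} S : ℤ) := by nlinarith
    linarith

theorem Phase.step (H : Phase a b N K I c u) {T B : Finset ℕ} {x : ℕ → Bool}
    {C : ℕ → ℕ → ℕ} {L : ℤ} (S : State a b K I c u T B x C L) {p : ℕ} (hp : p ∈ I)
    (hpT : p ∉ T) (hbig : ∀ X ⊆ K.V \ T, p ∈ X → (a : ℤ) - b + 1 ≤ gn a b K x T X) :
    ∃ T' x' C' L', State a b K I c u T' (insert p B) x' C' L' := by
  classical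
  have hab : (b : ℤ) + 2 ≤ a := by exact_mod_cast H.ab
  have ha1 : 1 ≤ a := by have := H.ab; omega
  have hb0 : (0 : ℤ) ≤ b := Int.natCast_nonneg _
  have hpV : p ∈ K.V := H.hI hp
  have hpR : p ∈ K.V \ T := mem_sdiff.2 ⟨hpV, hpT⟩
  have hpc : p ≠ c := fun h => H.hcI (h ▸ hp)
  have hrp : rho a b K {p} = a := net_rho (H.tI p hp) (H.sI p hp)
  have hdTp : Disjoint T {p} := disjoint_singleton_right.2 hpT
  have hcT : c ∈ T := S.hBT S.hc
  -- `p` is not linked to `T`
  have hm0 : ∀ v ∈ T, K.m v p = 0 := by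
    have hh0 : ∀ v ∈ T, K.h v p = 0 := fun v hv => by
      rw [H.wf.hsymm]
      exact H.hI0 p hp v (S.hT hv)
    have hsum : ∑ v ∈ T, K.m v p ≤ 1 := by
      have h1 : ∑ v ∈ T, K.m v p = ∑ v ∈ T, K.m p v :=
        sum_congr rfl fun v _ => H.wf.msymm v p
      rw [h1]
      exact (sum_le_sum_of_subset S.hT).trans (H.mI p hp)
    have h1 := hbig {p} (singleton_subset_iff.2 hpR) (mem_singleton_self p)
    unfold gn at h1
    rw [hrp] at h1
    have h2 : cross a b K T {p} = a * ((∑ v ∈ T, K.m v p : ℕ) : ℤ) := by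
      unfold cross
      push_cast
      rw [mul_sum]
      refine sum_congr rfl fun v hv => ?_
      rw [sum_singleton]
      unfold wt
      rw [hh0 v hv]
      push_cast
      ring
    have h3 : n1 K x T {p} ≤ ∑ v ∈ T, K.m v p := by
      unfold n1
      refine sum_le_sum fun v hv => ?_
      rw [sum_singleton, hh0 v hv]
      split_ifs <;> omega
    rw [h2] at h1
    by_contra hcon
    push Not at hcon
    obtain ⟨v, hv, hne⟩ := hcon
    have h4 : K.m v p ≤ ∑ v ∈ T, K.m v p :=
      single_le_sum (f := fun v => K.m v p) (fun _ _ => Nat.zero_le _) hv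
    have h5 : ∑ v ∈ T, K.m v p = 1 := by omega
    rw [h5] at h1 h3
    have h6 : (n1 K x T {p} : ℤ) ≤ 1 := by exact_mod_cast h3
    have h7 : ((a : ℤ) - b) * (n1 K x T {p} : ℤ) ≤ (a : ℤ) - b := by nlinarith
    push_cast at h1
    linarith
  have hcr : cross a b K T {p} = 0 := by
    unfold cross
    refine sum_eq_zero fun v hv => ?_
    rw [sum_singleton]
    unfold wt
    rw [hm0 v hv, H.wf.hsymm, H.hI0 p hp v (S.hT hv)]
    simp
  have hn1 : n1 K x T {p} = 0 := by
    unfold n1
    refine sum_eq_zero fun v hv => ?_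
    rw [sum_singleton, hm0 v hv, H.wf.hsymm, H.hI0 p hp v (S.hT hv)]
    simp
  have hgp : gn a b K x T {p} = a := by
    unfold gn
    rw [hrp, hcr, hn1]
    simp
  -- colour `p` with `false`
  have hcp : IsCol ((K.ctr T x).res {p}) (fun _ => false) (fun _ _ => 0) := by
    refine ⟨fun _ _ _ _ hne => absurd rfl hne, ?_⟩
    intro w hw
    have hw' : w = p := mem_singleton.1 hw
    subst hw'
    have e1 : load ((K.ctr T x).res {w}) (fun _ => false) (fun _ _ => 0)
        ((K.ctr T x).res {w}).V w = 0 := by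
      unfold load
      show ∑ z ∈ {w}, _ = 0
      rw [sum_singleton]
      show (if false = false then K.h w w else 0) + 0 = 0
      rw [H.wf.hirr]
      rfl
    rw [e1, thr_false]
    show 0 + 1 ≤ (K.ctr T x).s w
    have e2 : (∑ v ∈ T, if x v then 0 else K.h v w) = 0 := by
      refine sum_eq_zero fun v hv => ?_
      rw [H.wf.hsymm, H.hI0 w hp v (S.hT hv)]
      split_ifs <;> rfl
    have e3 : (∑ v ∈ T, if x v then K.m v w else 0) = 0 := by
      refine sum_eq_zero fun v hv => ?_
      rw [hm0 v hv]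
      split_ifs <;> rfl
    rw [ctr_s_pos e2, e3, H.sI w hp]
  obtain ⟨x1, C1, hc1, hx1T, hx1p⟩ := combR H.wf S.hT (singleton_subset_iff.2 hpR) S.col hcp
  have hx1p' : x1 p = false := hx1p p (mem_singleton_self p)
  have hT1 : T ∪ {p} ⊆ K.V := union_subset S.hT (singleton_subset_iff.2 hpV)
  have hn1p : ∀ X, n1 K x1 {p} X = 0 := by
    intro X
    unfold n1
    rw [sum_singleton, hx1p']
    simp
  -- gains over `T ∪ {p}`
  have hrel : ∀ X ⊆ K.V \ (T ∪ {p}),
      gn a b K x T ({p} ∪ X) = a + gn a b K x1 (T ∪ {p}) X := by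
    intro X hX
    have hd : Disjoint {p} X := disjoint_left.2 fun v h1 h2 =>
      (mem_sdiff.1 (hX h2)).2 (mem_union_right _ h1)
    rw [gn_union H.wf x T hd, gn_comb x1 hdTp X, hn1p, gn_congr hx1T, hgp]
    push_cast
    ring
  have hsubR : ∀ X ⊆ K.V \ (T ∪ {p}), X ⊆ K.V \ T := fun X hX v hv =>
    mem_sdiff.2 ⟨(mem_sdiff.1 (hX hv)).1, fun h => (mem_sdiff.1 (hX hv)).2 (mem_union_left _ h)⟩
  have hg : ∀ X ⊆ K.V \ (T ∪ {p}), X.Nonempty →
      -(b : ℤ) + 1 ≤ gn a b K x1 (T ∪ {p}) X := by
    intro X hX _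
    have h1 := hbig ({p} ∪ X) (union_subset (singleton_subset_iff.2 hpR) (hsubR X hX))
      (mem_union_left _ (mem_singleton_self p))
    rw [hrel X hX] at h1
    linarith
  obtain ⟨S1, hS1, x', C', h1, h2, h3, h4⟩ :=
    absorb H.ih H.wf H.hN (by have := H.ab; omega) hT1 hc1 hg
  have hS1R := hsubR S1 hS1
  have hpS1 : p ∉ S1 := fun h => (mem_sdiff.1 (hS1 h)).2
    (mem_union_right _ (mem_singleton_self p))
  have hdS : Disjoint (T ∪ {p}) S1 := disjoint_left.2 fun v h1 h2 => (mem_sdiff.1 (hS1 h2)).2 h1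
  have e0 : gn a b K x1 (T ∪ {p}) S1 ≤ 0 := by
    have := h4 ∅ (empty_subset _)
    rw [gn_empty] at this
    exact this
  have hrT1 : rho a b K (T ∪ {p}) = rho a b K T + a := by
    rw [rho_union H.wf hdTp, hrp, hcr]
    ring
  have hn1S : n1 K x1 (T ∪ {p}) S1 = n1 K x T S1 := by
    rw [n1_union_left x1 hdTp, hn1p, n1_congr hx1T]
    rfl
  have e1 := rho_gn (a := a) (b := b) H.wf x1 hdS
  rw [hrT1, hn1S] at e1
  have hpB : p ∉ B := fun h => hpT (S.hBT h)
  have hcard : (#(insert p B) : ℤ) = #B + 1 := by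
    rw [card_insert_of_notMem hpB]
    push_cast
    ring
  have hTV' : T ∪ {p} ∪ S1 ⊆ K.V := union_subset hT1 (hS1.trans sdiff_subset)
  obtain ⟨L', hL'⟩ : ∃ L' : ℤ, L' = L - gn a b K x1 (T ∪ {p}) S1
      + ((a : ℤ) - b) * (n1 K x T S1 : ℤ) := ⟨_, rfl⟩
  have hJ : (0 : ℤ) ≤ (a : ℤ) - b := by linarith
  have hJn : (0 : ℤ) ≤ ((a : ℤ) - b) * (n1 K x T S1 : ℤ) :=
    mul_nonneg hJ (Int.natCast_nonneg _)
  have hx'T : ∀ v ∈ T, x' v = x v := fun v hv => by
    rw [h2 v (mem_union_left _ hv), hx1T v hv]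
  refine ⟨T ∪ {p} ∪ S1, x', C', L', hTV', ?_, mem_insert_of_mem S.hc, ?_, h1, ?_, ?_, h3, ?_,
    ?_, ?_⟩
  · intro v hv
    rcases mem_insert.1 hv with h | h
    · rw [h]
      exact mem_union_left _ (mem_union_right _ (mem_singleton_self p))
    · exact mem_union_left _ (mem_union_left _ (S.hBT h))
  · intro v hv
    rcases mem_insert.1 hv with h | h
    · rw [h]
      exact mem_insert_of_mem hp
    · exact S.hBI h
  · rw [hx'T c hcT]
    exact S.xc
  · intro v hv hne
    rcases mem_insert.1 hv with h | h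
    · rw [h, h2 p (mem_union_right _ (mem_singleton_self p))]
      exact hx1p'
    · rw [hx'T v (S.hBT h)]
      exact S.xB v h hne
  · rw [e1, S.f2, hcard, hL']
    ring
  · intro X hX
    have hX2 : X \ T ⊆ {p} ∪ S1 := by
      intro v hv
      obtain ⟨hv1, hv2⟩ := mem_sdiff.1 hv
      rcases mem_union.1 (hX hv1) with h | h
      · rcases mem_union.1 h with h | h
        · exact absurd h hv2
        · exact mem_union_left _ h
      · exact mem_union_right _ h
    have hXV : X ⊆ K.V := hX.trans hTV'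
    have hX2R : X \ T ⊆ K.V \ T := fun v hv =>
      mem_sdiff.2 ⟨hXV (mem_sdiff.1 hv).1, (mem_sdiff.1 hv).2⟩
    have hdT2 : Disjoint T (X \ T) := disjoint_sdiff
    have k1 := rho_submod_le (a := a) (b := b) H.wf ha1 X T
    have k2 : X ∪ T = T ∪ (X \ T) := by
      ext v
      simp only [mem_union, mem_sdiff]
      tauto
    rw [k2] at k1
    have k3 := rho_gn (a := a) (b := b) H.wf x hdT2
    have k4 := S.f3 (X ∩ T) inter_subset_right
    have k5 : (n1 K x T (X \ T) : ℤ) ≤ n1 K x T S1 := by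
      have h5 : n1 K x T (X \ T) ≤ n1 K x T ({p} ∪ S1) := n1_mono _ _ hX2
      have h6 : n1 K x T ({p} ∪ S1) = n1 K x T S1 := by
        rw [n1_union_right x T (disjoint_singleton_left.2 hpS1), hn1, zero_add]
      rw [h6] at h5
      exact_mod_cast h5
    have k6 : ((a : ℤ) - b) * (n1 K x T (X \ T) : ℤ) ≤ ((a : ℤ) - b) * (n1 K x T S1 : ℤ) :=
      mul_le_mul_of_nonneg_left k5 hJ
    by_cases hpX : p ∈ X
    · have hX3 : (X \ T) \ {p} ⊆ K.V \ (T ∪ {p}) := by
        intro v hv
        obtain ⟨hv1, hv2⟩ := mem_sdiff.1 hv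
        obtain ⟨hv3, hv4⟩ := mem_sdiff.1 hv1
        refine mem_sdiff.2 ⟨hXV hv3, fun h => ?_⟩
        rcases mem_union.1 h with h | h
        · exact hv4 h
        · exact hv2 h
      have k7 : {p} ∪ ((X \ T) \ {p}) = X \ T := by
        ext v
        simp only [mem_union, mem_singleton, mem_sdiff]
        constructor
        · rintro (h | h)
          · rw [h]
            exact ⟨hpX, hpT⟩
          · exact h.1
        · intro h
          by_cases hvp : v = p
          · exact Or.inl hvp
          · exact Or.inr ⟨h, hvp⟩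
      have k8 := hrel _ hX3
      rw [k7] at k8
      have k9 := h4 _ hX3
      have k10 : (#(X ∩ insert p B) : ℤ) = #(X ∩ T ∩ B) + 1 := by
        have : X ∩ insert p B = insert p (X ∩ T ∩ B) := by
          ext v
          simp only [mem_inter, mem_insert]
          constructor
          · rintro ⟨h5, h6 | h6⟩
            · exact Or.inl h6
            · exact Or.inr ⟨⟨h5, S.hBT h6⟩, h6⟩
          · rintro (h5 | ⟨⟨h5, _⟩, h6⟩)
            · rw [h5]
              exact ⟨hpX, Or.inl rfl⟩
            · exact ⟨h5, Or.inr h6⟩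
        rw [this, card_insert_of_notMem (fun h => hpB (mem_inter.1 h).2)]
        push_cast
        ring
      rw [k10, hL']
      linarith
    · have hX3 : X \ T ⊆ K.V \ (T ∪ {p}) := by
        intro v hv
        obtain ⟨hv3, hv4⟩ := mem_sdiff.1 hv
        refine mem_sdiff.2 ⟨hXV hv3, fun h => ?_⟩
        rcases mem_union.1 h with h | h
        · exact hv4 h
        · exact hpX (mem_singleton.1 h ▸ hv3)
      have k8 := hrel _ hX3
      have hdp : Disjoint {p} (X \ T) := disjoint_singleton_left.2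
        fun h => hpX (mem_sdiff.1 h).1
      have k9 := gn_union (a := a) (b := b) H.wf x T hdp
      have k10 : 0 ≤ cross a b K {p} (X \ T) := cross_nonneg ha1 _ _
      have k11 := h4 _ hX3
      have k12 : (#(X ∩ insert p B) : ℤ) = #(X ∩ T ∩ B) := by
        have : X ∩ insert p B = X ∩ T ∩ B := by
          ext v
          simp only [mem_inter, mem_insert]
          constructor
          · rintro ⟨h5, h6 | h6⟩
            · exact absurd (h6 ▸ h5) hpX
            · exact ⟨⟨h5, S.hBT h6⟩, h6⟩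
          · rintro ⟨⟨h5, _⟩, h6⟩
            exact ⟨h5, Or.inr h6⟩
        rw [this]
      rw [k12, hL']
      linarith
  · intro hu
    have hL0 := S.L0
    rcases mem_union.1 hu with h | h
    · rcases mem_union.1 h with h | h
      · have := S.f4 h
        rw [hL']
        linarith
      · exact absurd (mem_singleton.1 h ▸ hp) H.huI
    · have h5 : 1 ≤ n1 K x T S1 := by
        have h6 := n1_ge (G := K) (x := x) (T := T) (S := S1) hcT h S.xc
        have h7 := H.mc u H.huV
        rw [if_pos rfl] at h7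
        omega
      have h8 : (1 : ℤ) ≤ n1 K x T S1 := by exact_mod_cast h5
      have h9 : (a : ℤ) - b ≤ ((a : ℤ) - b) * (n1 K x T S1 : ℤ) := by nlinarith
      rw [hL']
      linarith

/-- A maximal state. -/
theorem Phase.max (H : Phase a b N K I c u) :
    ∃ T B x C L, State a b K I c u T B x C L ∧
      ∀ p ∈ I, p ∉ T → ∃ X ⊆ K.V \ T, p ∈ X ∧ gn a b K x T X ≤ (a : ℤ) - b := by
  classical
  by_contra hcon
  push Not at hcon
  have key : ∀ n : ℕ, ∃ T B x C L, State a b K I c u T B x C L ∧ n + 1 ≤ #B := by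
    intro n
    induction n with
    | zero =>
      obtain ⟨T, x, C, L, hS⟩ := H.base
      exact ⟨T, {c}, x, C, L, hS, by rw [card_singleton]⟩
    | succ n ihn =>
      obtain ⟨T, B, x, C, L, hS, hn⟩ := ihn
      obtain ⟨p, hp, hpT, hX⟩ := hcon T B x C L hS
      obtain ⟨T', x', C', L', hS'⟩ := H.step hS hp hpT (fun X hX1 hX2 => by
        have := hX X hX1 hX2
        omega)
      refine ⟨T', insert p B, x', C', L', hS', ?_⟩
      rw [card_insert_of_notMem (fun h => hpT (hS.hBT h))]
      omega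
  obtain ⟨T, B, x, C, L, hS, hn⟩ := key (#I + 1)
  have h1 := card_le_card hS.hBI
  have h2 := card_insert_le c I
  omega

end

end Pool.Agent.Lib.MP_4006b4_co_b
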