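import Mathlib
import Pool.Agent.Lib.MP_4006b4_co_b.State

/-!
# Phase two: the net is coloured in the second part
-/

open Finset

namespace Pool.Agent.Lib.MP_4006b4_co_b

section

variable {a b N : ℕ} {K : Str} {I : Finset ℕ} {c u : ℕ}

theorem inner_nonneg (ha : 1 ≤ a) (S : Finset ℕ) : 0 ≤ inner a b K S := by
  unfold inner
  refine sum_nonneg fun v _ => sum_nonneg fun w _ => ?_
  split_ifs
  · exact wt_nonneg ha _ _ _
  · exact le_rfl

theorem wt_ge1 (ha : 2 ≤ a) (hb : 1 ≤ b) {v w : ℕ} (h : K.h v w + K.m v w ≠ 0) :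
    1 ≤ wt a b K v w := by
  unfold wt
  have ha' : (2 : ℤ) ≤ a := by exact_mod_cast ha
  have hb' : (1 : ℤ) ≤ b := by exact_mod_cast hb
  have h1 : (0 : ℤ) ≤ K.h v w := Int.natCast_nonneg _
  have h2 : (0 : ℤ) ≤ K.m v w := Int.natCast_nonneg _
  have h3 : (1 : ℤ) ≤ (b : ℤ) * (a - 1) := by nlinarith
  have h4 : (1 : ℤ) ≤ (K.h v w : ℤ) + K.m v w := by
    have : 1 ≤ K.h v w + K.m v w := Nat.one_le_iff_ne_zero.2 h
    exact_mod_cast this
  nlinarith [mul_le_mul_of_nonneg_right h3 h1]

theorem State.psi (H : Phase a b N K I c u) {T B : Finset ℕ} {x : ℕ → Bool}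
    {C : ℕ → ℕ → ℕ} {L : ℤ} (S : State a b K I c u T B x C L) (hL : L ≤ (b : ℤ) - 1) :
    ∃ y D, IsCol (K.res T) y D ∧ y c = false ∧ ∀ v ∈ B, v ≠ c → y v = true := by
  classical
  have hab : (b : ℤ) + 2 ≤ a := by exact_mod_cast H.ab
  have ha1 : 1 ≤ a := by have := H.ab; omega
  have hBV : B ⊆ K.V := S.hBT.trans S.hT
  have hts : ∀ v ∈ B, K.t v = 1 ∧ K.s v = 1 := by
    intro v hv
    rcases mem_insert.1 (S.hBI hv) with h | h
    · rw [h]
      exact ⟨H.tc, H.sc⟩
    · exact ⟨H.tI v h, H.sI v h⟩
  have hh0 : ∀ v ∈ B, ∀ w ∈ K.V, K.h v w = 0 := by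
    intro v hv w hw
    rcases mem_insert.1 (S.hBI hv) with h | h
    · rw [h]
      exact H.hc0 w hw
    · exact H.hI0 v h w hw
  have hm0 : ∀ v ∈ B, ∀ w ∈ B, K.m v w = 0 := by
    intro v hv w hw
    have hcI : ∀ p ∈ I, K.m c p = 0 := by
      intro p hp
      rw [H.mc p (H.hI hp), if_neg (fun h : p = u => H.huI (h ▸ hp))]
    rcases mem_insert.1 (S.hBI hv) with h | h <;> rcases mem_insert.1 (S.hBI hw) with h' | h'
    · rw [h, h', H.wf.mirr]
    · rw [h]
      exact hcI w h'
    · rw [h', H.wf.msymm]
      exact hcI v h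
    · exact H.mII v h w h'
  obtain ⟨y0, hy0⟩ : ∃ y0 : ℕ → Bool, y0 = fun v => decide (v ≠ c) := ⟨_, rfl⟩
  have hcolB : IsCol (K.res B) y0 (fun _ _ => 0) := by
    refine ⟨?_, ?_⟩
    · intro v hv w hw _
      show K.m v w ≤ 0 + 0
      rw [hm0 v hv w hw]
    · intro v hv
      have hv' : v ∈ B := hv
      have e : load (K.res B) y0 (fun _ _ => 0) (K.res B).V v = 0 := by
        unfold load
        refine sum_eq_zero fun w hw => ?_
        show (if y0 v = y0 w then K.h v w else 0) + 0 = 0
        rw [hh0 v hv' w (hBV hw)]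
        simp
      rw [e]
      obtain ⟨h1, h2⟩ := hts v hv'
      show 0 + 1 ≤ (if y0 v = true then K.t v else K.s v)
      rw [h1, h2]
      simp
  have hrB : rho a b K B ≤ a * (#B : ℤ) := by
    unfold rho
    have e : ∑ v ∈ B, rv a b K v = a * (#B : ℤ) := by
      rw [sum_congr rfl fun v hv => ?_, sum_const, nsmul_eq_mul, mul_comm]
      unfold rv
      rw [(hts v hv).1, (hts v hv).2]
      push_cast
      ring
    have := inner_nonneg (a := a) (b := b) (K := K) ha1 B
    rw [e]
    linarith
  have hTB : B ∪ (T \ B) = T := union_sdiff_of_subset S.hBT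
  obtain ⟨y, D, h1, h2⟩ := extcol (K := K) H.ih H.wf H.hN (T := B) (R := T \ B) hBV
    (fun v hv => mem_sdiff.2 ⟨S.hT (mem_sdiff.1 hv).1, (mem_sdiff.1 hv).2⟩) hcolB (by
      intro X hX _
      have hd : Disjoint B X := disjoint_left.2 fun v h3 h4 => (mem_sdiff.1 (hX h4)).2 h3
      have k1 := rho_gn (a := a) (b := b) H.wf y0 hd
      have k2 := S.f3 (B ∪ X) (union_subset S.hBT (hX.trans sdiff_subset))
      have k3 : (B ∪ X) ∩ B = B := by
        ext v
        simp only [mem_inter, mem_union]
        tauto
      rw [k3] at k2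
      have k4 : (0 : ℤ) ≤ ((a : ℤ) - b) * (n1 K y0 B X : ℤ) :=
        mul_nonneg (by linarith) (Int.natCast_nonneg _)
      linarith)
  rw [hTB] at h1
  refine ⟨y, D, h1, ?_, ?_⟩
  · rw [h2 c S.hc, hy0]
    simp
  · intro v hv hne
    rw [h2 v hv, hy0]
    simpa using hne

/-- Gluing two colourings of parts without edges between them. -/
theorem glue {K : Str} (wf : K.WF a b) {X Y : Finset ℕ} (hd : Disjoint X Y)
    (h0 : ∀ v ∈ X, ∀ w ∈ Y, K.h v w + K.m v w = 0) {z1 z2 : ℕ → Bool} {E1 E2 : ℕ → ℕ → ℕ}
    (h1 : IsCol (K.res X) z1 E1) (h2 : IsCol (K.res Y) z2 E2) :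
    ∃ z E, IsCol (K.res (X ∪ Y)) z E ∧ (∀ v ∈ X, z v = z1 v) ∧ (∀ v ∈ Y, z v = z2 v) := by
  classical
  let z : ℕ → Bool := fun v => if v ∈ X then z1 v else z2 v
  let E : ℕ → ℕ → ℕ := fun v w => if v ∈ X then (if w ∈ X then E1 v w else 0)
    else (if w ∈ X then 0 else E2 v w)
  have hY : ∀ v ∈ Y, v ∉ X := fun v hv h => disjoint_left.1 hd h hv
  have hz1 : ∀ v ∈ X, z v = z1 v := fun v hv => if_pos hv
  have hz2 : ∀ v ∈ Y, z v = z2 v := fun v hv => if_neg (hY v hv)
  refine ⟨z, E, ⟨?_, ?_⟩, hz1, hz2⟩
  · intro v hv w hw hne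
    show K.m v w ≤ E v w + E w v
    rcases mem_union.1 hv with hv | hv <;> rcases mem_union.1 hw with hw | hw
    · rw [hz1 v hv, hz1 w hw] at hne
      have := h1.cov v hv w hw hne
      simp only [E, hv, hw, if_true]
      exact this
    · have := h0 v hv w hw
      omega
    · have := h0 w hw v hv
      rw [wf.msymm]
      omega
    · rw [hz2 v hv, hz2 w hw] at hne
      have := h2.cov v hv w hw hne
      simp only [E, hY v hv, hY w hw, if_false]
      exact this
  · intro v hv
    show (∑ w ∈ X ∪ Y, ((if z v = z w then K.h v w else 0) + E v w)) + 1 ≤ thr K (z v) v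
    rw [sum_union hd]
    rcases mem_union.1 hv with hv | hv
    · have e1 : ∑ w ∈ Y, ((if z v = z w then K.h v w else 0) + E v w) = 0 := by
        refine sum_eq_zero fun w hw => ?_
        have h3 := h0 v hv w hw
        have h4 : K.h v w = 0 := by omega
        rw [h4]
        simp [E, hv, hY w hw]
      have e2 : ∑ w ∈ X, ((if z v = z w then K.h v w else 0) + E v w)
          = ∑ w ∈ X, ((if z1 v = z1 w then K.h v w else 0) + E1 v w) := by
        refine sum_congr rfl fun w hw => ?_
        rw [hz1 v hv, hz1 w hw]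
        simp [E, hv, hw]
      rw [e1, e2, add_zero, hz1 v hv]
      exact h1.cap v hv
    · have e1 : ∑ w ∈ X, ((if z v = z w then K.h v w else 0) + E v w) = 0 := by
        refine sum_eq_zero fun w hw => ?_
        have h3 := h0 w hw v hv
        have h4 : K.h v w = 0 := by
          rw [wf.hsymm]
          omega
        rw [h4]
        simp [E, hw, hY v hv]
      have e2 : ∑ w ∈ Y, ((if z v = z w then K.h v w else 0) + E v w)
          = ∑ w ∈ Y, ((if z2 v = z2 w then K.h v w else 0) + E2 v w) := by
        refine sum_congr rfl fun w hw => ?_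
        rw [hz2 v hv, hz2 w hw]
        simp [E, hY v hv, hY w hw]
      rw [e1, e2, zero_add, hz2 v hv]
      exact h2.cap v hv

/-- No pods touch across the two families. -/
def Sep (K : Str) (X Y : Finset ℕ) : Prop :=
  Disjoint X Y ∧ ∀ v ∈ X, ∀ w ∈ Y, K.h v w + K.m v w = 0

theorem grow (wf : K.WF a b) (ha : 2 ≤ a) (hb : 1 ≤ b) {T : Finset ℕ} {x : ℕ → Bool}
    {J : ℤ} (hf : ∀ X ⊆ K.V \ T, X.Nonempty → 1 ≤ gn a b K x T X) {P : Finset ℕ}
    {Sp : ℕ → Finset ℕ} (hSp : ∀ p ∈ P, Sp p ⊆ K.V \ T)
    (hJ : ∀ p ∈ P, gn a b K x T (Sp p) ≤ J)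
    (hns : ∀ P1 ⊆ P, P1.Nonempty → P1 ≠ P → ¬ Sep K (P1.biUnion Sp) ((P \ P1).biUnion Sp))
    (hP : P.Nonempty) :
    gn a b K x T (P.biUnion Sp) ≤ J * (#P : ℤ) - (#P : ℤ) + 1 := by
  classical
  have key : ∀ n : ℕ, n + 1 ≤ #P → ∃ P1 ⊆ P, #P1 = n + 1 ∧
      gn a b K x T (P1.biUnion Sp) ≤ J * ((n : ℤ) + 1) - n := by
    intro n
    induction n with
    | zero =>
      intro _
      obtain ⟨p, hp⟩ := hP
      refine ⟨{p}, singleton_subset_iff.2 hp, by rw [card_singleton], ?_⟩
      rw [singleton_biUnion]
      have := hJ p hp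
      push_cast
      linarith
    | succ n ihn =>
      intro hn
      obtain ⟨P1, hP1, hc1, hg1⟩ := ihn (by omega)
      have hP1ne : P1.Nonempty := by
        rw [← card_pos]
        omega
      have hP1P : P1 ≠ P := fun h => by
        rw [h] at hc1
        omega
      have hsep := hns P1 hP1 hP1ne hP1P
      have hMsub : P1.biUnion Sp ⊆ K.V \ T := by
        intro v hv
        obtain ⟨p, hp, hvp⟩ := mem_biUnion.1 hv
        exact hSp p (hP1 hp) hvp
      -- a touching pod
      obtain ⟨q, hq, hqq⟩ : ∃ q ∈ P \ P1, gn a b K x T (P1.biUnion Sp ∪ Sp q)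
          ≤ gn a b K x T (P1.biUnion Sp) + gn a b K x T (Sp q) - 1 := by
        by_contra hcon
        push Not at hcon
        apply hsep
        have hno : ∀ q ∈ P \ P1, Sep K (P1.biUnion Sp) (Sp q) := by
          intro q hq
          have h1 := hcon q hq
          have h2 := gn_submod wf x T (P1.biUnion Sp) (Sp q)
          have hqs := hSp q (mem_sdiff.1 hq).1
          have h3 : P1.biUnion Sp ∩ Sp q = ∅ := by
            by_contra hne
            have h4 := hf (P1.biUnion Sp ∩ Sp q) (inter_subset_right.trans hqs)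
              (nonempty_iff_ne_empty.2 hne)
            have h5 : 0 ≤ cross a b K (P1.biUnion Sp \ Sp q) (Sp q \ P1.biUnion Sp) :=
              cross_nonneg (by omega) _ _
            linarith
          have hdis : Disjoint (P1.biUnion Sp) (Sp q) := disjoint_iff_inter_eq_empty.2 h3
          refine ⟨hdis, ?_⟩
          intro v hv w hw
          by_contra hne
          have h4 := wt_ge1 (K := K) ha hb hne
          rw [h3, gn_empty] at h2
          have h5 : wt a b K v w
              ≤ cross a b K (P1.biUnion Sp \ Sp q) (Sp q \ P1.biUnion Sp) := by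
            have hv' : v ∈ P1.biUnion Sp \ Sp q :=
              mem_sdiff.2 ⟨hv, fun h => disjoint_left.1 hdis hv h⟩
            have hw' : w ∈ Sp q \ P1.biUnion Sp :=
              mem_sdiff.2 ⟨hw, fun h => disjoint_left.1 hdis h hw⟩
            unfold cross
            refine le_trans ?_ (single_le_sum (f := fun v => ∑ w ∈ Sp q \ P1.biUnion Sp,
              wt a b K v w) (fun v _ => sum_nonneg fun w _ => wt_nonneg (by omega) _ _ _) hv')
            exact single_le_sum (f := fun w => wt a b K v w)
              (fun w _ => wt_nonneg (by omega) _ _ _) hw'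
          linarith
        refine ⟨?_, ?_⟩
        · rw [disjoint_left]
          intro v hv hv2
          obtain ⟨q, hq, hvq⟩ := mem_biUnion.1 hv2
          exact disjoint_left.1 (hno q hq).1 hv hvq
        · intro v hv w hw
          obtain ⟨q, hq, hwq⟩ := mem_biUnion.1 hw
          exact (hno q hq).2 v hv w hwq
      refine ⟨insert q P1, insert_subset (mem_sdiff.1 hq).1 hP1, ?_, ?_⟩
      · rw [card_insert_of_notMem (mem_sdiff.1 hq).2]
        omega
      · rw [biUnion_insert, union_comm]
        have := hJ q (mem_sdiff.1 hq).1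
        push_cast
        linarith
  have hPc : 1 ≤ #P := card_pos.2 hP
  obtain ⟨P1, hP1, hc1, hg1⟩ := key (#P - 1) (by omega)
  have hPe : P1 = P := eq_of_subset_of_card_le hP1 (by omega)
  rw [hPe] at hg1
  have h1 : ((#P - 1 : ℕ) : ℤ) = (#P : ℤ) - 1 := by
    push_cast [hPc]
    ring
  rw [h1] at hg1
  linarith

/-- Phase two colouring of the pods. -/
theorem Phase.pods (H : Phase a b N K I c u) {T B : Finset ℕ} {x : ℕ → Bool}
    {C : ℕ → ℕ → ℕ} {L : ℤ} (S : State a b K I c u T B x C L) (hb1 : 1 ≤ b)
    (hn : ((a : ℤ) - b) * (n1 K x T (K.V \ T) : ℤ) ≤ (b : ℤ) - 1)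
    {Sp : ℕ → Finset ℕ} (hSp : ∀ p ∈ I, p ∉ T → Sp p ⊆ K.V \ T ∧ p ∈ Sp p ∧
      gn a b K x T (Sp p) ≤ (a : ℤ) - b) (y : ℕ → Bool) :
    ∀ n : ℕ, ∀ P : Finset ℕ, #P ≤ n → P ⊆ I \ T →
      ∃ z E, IsCol ((K.ctr T y).res (P.biUnion Sp)) z E ∧
        (#(P.filter (fun p => z p = false)) : ℤ)
          ≤ ((a : ℤ) - b) * (#P : ℤ) - gn a b K x T (P.biUnion Sp)
            + (n1 K x T (P.biUnion Sp) : ℤ) := by
  classical
  have hab : (b : ℤ) + 2 ≤ a := by exact_mod_cast H.ab
  have ha1 : 1 ≤ a := by have := H.ab; omega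
  have ha2 : 2 ≤ a := by have := H.ab; omega
  have hJ : (0 : ℤ) ≤ (a : ℤ) - b := by linarith
  intro n
  induction n with
  | zero =>
    intro P hP _
    have hP0 : P = ∅ := card_eq_zero.1 (by omega)
    subst hP0
    refine ⟨fun _ => true, fun _ _ => 0, ⟨?_, ?_⟩, ?_⟩
    · intro v hv
      exact absurd hv (by simp [Str.res])
    · intro v hv
      exact absurd hv (by simp [Str.res])
    · rw [biUnion_empty, gn_empty]
      simp
  | succ n ihn =>
    intro P hPn hPI
    have hSpP : ∀ p ∈ P, Sp p ⊆ K.V \ T ∧ p ∈ Sp p ∧ gn a b K x T (Sp p) ≤ (a : ℤ) - b :=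
      fun p hp => hSp p (mem_sdiff.1 (hPI hp)).1 (mem_sdiff.1 (hPI hp)).2
    by_cases hsplit : ∃ P1 ⊆ P, P1.Nonempty ∧ P1 ≠ P ∧
        Sep K (P1.biUnion Sp) ((P \ P1).biUnion Sp)
    · obtain ⟨P1, hP1, hP1ne, hP1P, hsep⟩ := hsplit
      have hP2ne : (P \ P1).Nonempty := by
        rw [sdiff_nonempty]
        intro h
        exact hP1P (Subset.antisymm hP1 h)
      have hc : #P1 + #(P \ P1) = #P := by
        rw [add_comm]
        exact card_sdiff_add_card_eq_card hP1
      have hc1 : 1 ≤ #P1 := card_pos.2 hP1ne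
      have hc2 : 1 ≤ #(P \ P1) := card_pos.2 hP2ne
      obtain ⟨z1, E1, h1, h1c⟩ := ihn P1 (by omega) (hP1.trans hPI)
      obtain ⟨z2, E2, h2, h2c⟩ := ihn (P \ P1) (by omega) (sdiff_subset.trans hPI)
      obtain ⟨z, E, hz, hz1, hz2⟩ := glue (K := K.ctr T y) (ctr_wf H.wf T y) hsep.1
        (fun v hv w hw => hsep.2 v hv w hw) h1 h2
      have hPU : P1 ∪ (P \ P1) = P := union_sdiff_of_subset hP1
      have hMU : P1.biUnion Sp ∪ (P \ P1).biUnion Sp = P.biUnion Sp := by
        rw [← union_biUnion, hPU]
      rw [hMU] at hz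
      refine ⟨z, E, hz, ?_⟩
      have e1 : P.filter (fun p => z p = false)
          = P1.filter (fun p => z1 p = false) ∪ (P \ P1).filter (fun p => z2 p = false) := by
        ext p
        simp only [mem_filter, mem_union, mem_sdiff]
        constructor
        · rintro ⟨h3, h4⟩
          by_cases hp1 : p ∈ P1
          · left
            refine ⟨hp1, ?_⟩
            rw [← hz1 p (mem_biUnion.2 ⟨p, hp1, (hSpP p h3).2.1⟩)]
            exact h4
          · right
            refine ⟨⟨h3, hp1⟩, ?_⟩
            rw [← hz2 p (mem_biUnion.2 ⟨p, mem_sdiff.2 ⟨h3, hp1⟩, (hSpP p h3).2.1⟩)]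
            exact h4
        · rintro (⟨h3, h4⟩ | ⟨⟨h3, h5⟩, h4⟩)
          · refine ⟨hP1 h3, ?_⟩
            rw [hz1 p (mem_biUnion.2 ⟨p, h3, (hSpP p (hP1 h3)).2.1⟩)]
            exact h4
          · refine ⟨h3, ?_⟩
            rw [hz2 p (mem_biUnion.2 ⟨p, mem_sdiff.2 ⟨h3, h5⟩, (hSpP p h3).2.1⟩)]
            exact h4
      have e2 : #(P.filter (fun p => z p = false))
          ≤ #(P1.filter (fun p => z1 p = false)) + #((P \ P1).filter (fun p => z2 p = false)) := by
        rw [e1]
        exact card_union_le _ _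
      have e3 := gn_union (a := a) (b := b) H.wf x T hsep.1
      have e4 := n1_union_right (K := K) x T hsep.1
      rw [hMU] at e3 e4
      have e5 : cross a b K (P1.biUnion Sp) ((P \ P1).biUnion Sp) = 0 := by
        unfold cross
        refine sum_eq_zero fun v hv => sum_eq_zero fun w hw => ?_
        have h3 := hsep.2 v hv w hw
        have h4 : K.h v w = 0 := by omega
        have h5 : K.m v w = 0 := by omega
        unfold wt
        rw [h4, h5]
        simp
      rw [e5] at e3
      have e2' : (#(P.filter (fun p => z p = false)) : ℤ)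
          ≤ #(P1.filter (fun p => z1 p = false))
            + #((P \ P1).filter (fun p => z2 p = false)) := by exact_mod_cast e2
      have e6 : (#P : ℤ) = #P1 + #(P \ P1) := by exact_mod_cast hc.symm
      have e7 : (n1 K x T (P.biUnion Sp) : ℤ) = n1 K x T (P1.biUnion Sp)
          + n1 K x T ((P \ P1).biUnion Sp) := by exact_mod_cast e4
      rw [e3, e6, e7]
      linarith
    · by_cases hPe : P = ∅
      · subst hPe
        refine ⟨fun _ => true, fun _ _ => 0, ⟨?_, ?_⟩, ?_⟩
        · intro v hv
          exact absurd hv (by simp [Str.res])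
        · intro v hv
          exact absurd hv (by simp [Str.res])
        · rw [biUnion_empty, gn_empty]
          simp
      · have hPne : P.Nonempty := nonempty_iff_ne_empty.2 hPe
        have hgr := grow H.wf ha2 hb1 (J := (a : ℤ) - b) S.f1 (P := P) (Sp := Sp)
          (fun p hp => (hSpP p hp).1) (fun p hp => (hSpP p hp).2.2)
          (fun P1 h1 h2 h3 h4 => hsplit ⟨P1, h1, h2, h3, h4⟩) hPne
        have hMsub : P.biUnion Sp ⊆ K.V \ T := by
          intro v hv
          obtain ⟨p, hp, hvp⟩ := mem_biUnion.1 hv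
          exact (hSpP p hp).1 hvp
        have hlow : ∀ X ⊆ K.V \ T, gn a b K x T X - ((a : ℤ) - b) * (n1 K x T X : ℤ)
            ≤ gn a b K y T X := by
          intro X _
          unfold gn
          have : (0 : ℤ) ≤ ((a : ℤ) - b) * (n1 K y T X : ℤ) :=
            mul_nonneg hJ (Int.natCast_nonneg _)
          linarith
        have hcardle : (#(P.filter (fun p => (fun _ : ℕ => false) p = false)) : ℤ) ≤ #P := by
          exact_mod_cast card_filter_le _ _
        by_cases hn0 : n1 K x T (P.biUnion Sp) = 0
        · -- one of the ports can be put in the first part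
          obtain ⟨p, hp⟩ := hPne
          obtain ⟨hpI, hpT⟩ := mem_sdiff.1 (hPI hp)
          have hpM : p ∈ P.biUnion Sp := mem_biUnion.2 ⟨p, hp, (hSpP p hp).2.1⟩
          obtain ⟨K2, hK2⟩ : ∃ K2, K2 = (K.ctr T y).res (P.biUnion Sp) := ⟨_, rfl⟩
          have wf2 : K2.WF a b := by
            rw [hK2]
            exact res_wf (ctr_wf H.wf T y) hMsub
          have hK2V : K2.V = P.biUnion Sp := by rw [hK2]; rfl
          have hN2 : hc K2 < N := by
            refine lt_of_le_of_lt ?_ H.hN
            rw [hK2]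
            exact hc_mono (G := K) (G' := (K.ctr T y).res (P.biUnion Sp))
              (hMsub.trans sdiff_subset) fun v _ w _ => le_rfl
          have hrho2 : ∀ X ⊆ P.biUnion Sp, X.Nonempty → 1 ≤ rho a b K2 X := by
            intro X hX hXne
            have k1 := ctr_rho H.wf S.hT y (S := X) ((hX.trans hMsub).trans sdiff_subset)
            have k2 := hlow X (hX.trans hMsub)
            have k3 := S.f1 X (hX.trans hMsub) hXne
            have k4 : n1 K x T X = 0 := by
              have := n1_mono (K := K) x T hX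
              omega
            have k1' : gn a b K y T X ≤ rho a b (K.ctr T y) X := k1
            have k6 : ((a : ℤ) - b) * (n1 K x T X : ℤ) = 0 := by rw [k4]; simp
            have k5 : rho a b K2 X = rho a b (K.ctr T y) X := by rw [hK2]; rfl
            rw [k5]
            linarith
          have hp2 : {p} ⊆ K2.V := by
            rw [hK2V]
            exact singleton_subset_iff.2 hpM
          have hs2 : K2.s p ≤ 1 := by
            rw [hK2]
            show (K.ctr T y).s p ≤ 1
            exact (ctr_s_le K T y p).trans (H.sI p hpI).le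
          have ht2' : K2.t p ≤ 1 := by
            rw [hK2]
            show (K.ctr T y).t p ≤ 1
            exact (ctr_t_le K T y p).trans (H.tI p hpI).le
          have ht2 : 1 ≤ K2.t p := by
            have k1 := hrho2 {p} (singleton_subset_iff.2 hpM) (singleton_nonempty p)
            rw [rho_singleton] at k1
            unfold rv at k1
            by_contra hcon
            have k2 : K2.t p = 0 := by omega
            have k3 : (K2.s p : ℤ) ≤ 1 := by exact_mod_cast hs2
            rw [k2] at k1
            have hb0 : (0 : ℤ) ≤ b := Int.natCast_nonneg _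
            push_cast at k1
            nlinarith
          have hcol2 : IsCol (K2.res {p}) (fun _ => true) (fun _ _ => 0) := by
            refine ⟨fun _ _ _ _ hne => absurd rfl hne, ?_⟩
            intro w hw
            have hw' : w = p := mem_singleton.1 hw
            subst hw'
            have : load (K2.res {w}) (fun _ => true) (fun _ _ => 0) (K2.res {w}).V w = 0 := by
              unfold load
              show ∑ z ∈ {w}, _ = 0
              rw [sum_singleton]
              show (if true = true then K2.h w w else 0) + 0 = 0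
              rw [wf2.hirr]
              rfl
            rw [this]
            show 0 + 1 ≤ K2.t w
            omega
          have hh2 : ∀ v ∈ K2.V, K2.h p v = 0 := by
            intro v hv
            rw [hK2V] at hv
            have : K2.h p v = K.h p v := by rw [hK2]; rfl
            rw [this]
            exact H.hI0 p hpI v (mem_sdiff.1 (hMsub hv)).1
          have hm2 : ∑ v ∈ K2.V, K2.m p v ≤ 1 := by
            rw [hK2V]
            have : ∀ v, K2.m p v = K.m p v := fun v => by rw [hK2]; rfl
            rw [sum_congr rfl fun v _ => this v]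
            exact (sum_le_sum_of_subset (hMsub.trans sdiff_subset)).trans (H.mI p hpI)
          have hsub2 : K2.V \ {p} ⊆ K2.V \ {p} := Subset.refl _
          obtain ⟨z, E, hz, hzp⟩ := extcol (K := K2) H.ih wf2 hN2 (T := {p})
            (R := K2.V \ {p}) hp2 hsub2 hcol2 (by
              intro X hX hXne
              have hXV : X ⊆ K2.V := hX.trans sdiff_subset
              have k1 := hrho2 X (by rw [← hK2V]; exact hXV) hXne
              unfold gn
              have k2 : cross a b K2 {p} X = a * ((∑ v ∈ X, K2.m p v : ℕ) : ℤ) := by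
                rw [cross_singleton]
                push_cast
                rw [mul_sum]
                refine sum_congr rfl fun v hv => ?_
                unfold wt
                rw [hh2 v (hXV hv)]
                push_cast
                ring
              have k3 : n1 K2 (fun _ => true) {p} X = ∑ v ∈ X, K2.m p v := by
                unfold n1
                rw [sum_singleton]
                refine sum_congr rfl fun v hv => ?_
                rw [if_pos rfl, hh2 v (hXV hv), zero_add]
              have k4 : ∑ v ∈ X, K2.m p v ≤ 1 := (sum_le_sum_of_subset hXV).trans hm2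
              rw [k2, k3]
              have k5 : ((∑ v ∈ X, K2.m p v : ℕ) : ℤ) ≤ 1 := by exact_mod_cast k4
              have hb0 : (0 : ℤ) ≤ b := Int.natCast_nonneg _
              nlinarith)
          have hU : {p} ∪ (K2.V \ {p}) = K2.V := union_sdiff_of_subset hp2
          rw [hU] at hz
          have hK2r : K2.res K2.V = (K.ctr T y).res (P.biUnion Sp) := by
            rw [hK2V, hK2]
            rfl
          rw [hK2r] at hz
          refine ⟨z, E, hz, ?_⟩
          have e1 : P.filter (fun p => z p = false) ⊆ P.erase p := by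
            intro q hq
            obtain ⟨h1, h2⟩ := mem_filter.1 hq
            refine mem_erase.2 ⟨fun h => ?_, h1⟩
            rw [h, hzp p (mem_singleton_self p)] at h2
            exact absurd h2 (by simp)
          have e2 : #(P.filter (fun p => z p = false)) + 1 ≤ #P := by
            have h1 := card_le_card e1
            have h2 := card_erase_add_one hp
            omega
          have e3 : (#(P.filter (fun p => z p = false)) : ℤ) + 1 ≤ #P := by exact_mod_cast e2
          rw [hn0]
          push_cast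
          linarith
        · obtain ⟨z, E, hz⟩ := ctrcol H.ih H.wf H.hN S.hT y (R := P.biUnion Sp) hMsub (by
            intro X hX hXne
            have k1 := hlow X (hX.trans hMsub)
            have k2 := S.f1 X (hX.trans hMsub) hXne
            have k3 : (n1 K x T X : ℤ) ≤ n1 K x T (K.V \ T) := by
              exact_mod_cast n1_mono (K := K) x T (hX.trans hMsub)
            have k4 := mul_le_mul_of_nonneg_left k3 hJ
            linarith)
          refine ⟨z, E, hz, ?_⟩
          have e3 : (#(P.filter (fun p => z p = false)) : ℤ) ≤ #P := by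
            exact_mod_cast card_filter_le _ _
          have e4 : (1 : ℤ) ≤ n1 K x T (P.biUnion Sp) := by
            exact_mod_cast Nat.one_le_iff_ne_zero.2 hn0
          linarith

end

end Pool.Agent.Lib.MP_4006b4_co_b
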