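import Mathlib
import Pool.Agent.Lib.MP_4006b4_co_b.Pods

/-!
# The core contradiction
-/

open Finset

namespace Pool.Agent.Lib.MP_4006b4_co_b

/-- The situation after the choice of the gate `c`. -/
structure PreCore (a b : ℕ) (G : Str) (I : Finset ℕ) (c u w : ℕ) : Prop where
  wf : G.WF a b
  nc : ¬ Colorable G
  ih : IH a b (hc G)
  ab : b + 2 ≤ a
  b1 : 1 ≤ b
  pos : -(b : ℤ) + 1 ≤ rho a b G G.V
  p1 : ∀ X ⊆ G.V, c ∈ X → X ≠ G.V → rho a b G G.V + a ≤ rho a b G X
  cV : c ∈ G.V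
  uV : u ∈ G.V
  wV : w ∈ G.V
  huc : u ≠ c
  hcw : c ≠ w
  huw : u ≠ w
  hI : I ⊆ G.V
  hcI : c ∉ I
  huI : u ∉ I
  hwI : w ∉ I
  tc : G.t c = 1
  sc : G.s c = 1
  hcw1 : G.h c w = 1
  hc0 : ∀ v ∈ G.V, v ≠ w → G.h c v = 0
  mc : ∀ v ∈ G.V, G.m c v = if v = u then 1 else 0
  hw0 : ∀ v ∈ G.V, v ≠ c → G.h w v = 0
  mwI : ∀ p ∈ I, G.m w p = 1
  tI : ∀ p ∈ I, G.t p = 1
  sI : ∀ p ∈ I, G.s p = 1
  hI0 : ∀ p ∈ I, ∀ v ∈ G.V, G.h p v = 0
  mI : ∀ p ∈ I, ∑ v ∈ G.V \ {w}, G.m p v ≤ 1
  mII : ∀ p ∈ I, ∀ q ∈ I, G.m p q = 0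

/-- The final situation: all links at `w` go to ports. -/
structure Core (a b : ℕ) (G : Str) (I : Finset ℕ) (c u w : ℕ) : Prop extends
    PreCore a b G I c u w where
  mw : ∀ v ∈ G.V, v ∉ I → G.m w v = 0

section

variable {a b : ℕ} {G : Str} {I : Finset ℕ} {c u w : ℕ}

theorem Core.addw (H : Core a b G I c u w) (val : Bool) {x : ℕ → Bool} {C : ℕ → ℕ → ℕ}
    (hc : IsCol (G.res (G.V \ {w})) x C) (hx : x c = !val)
    (hcap : #(I.filter (fun p => x p = !val)) + 1 ≤ thr G val w) : Colorable G := by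
  classical
  let x' : ℕ → Bool := fun v => if v = w then val else x v
  let A : ℕ → ℕ → ℕ := fun v p => if v = w then (if p ∈ I ∧ x p = !val then 1 else 0)
    else (if p = w then 0 else C v p)
  have hx'w : x' w = val := if_pos rfl
  have hx'v : ∀ v, v ≠ w → x' v = x v := fun v hv => if_neg hv
  have hV : ∀ v, v ∈ G.V → v ≠ w → v ∈ G.V \ {w} := fun v h1 h2 =>
    mem_sdiff.2 ⟨h1, fun h => h2 (mem_singleton.1 h)⟩
  have hbool : ∀ p q : Bool, p ≠ q ↔ p = !q := by decide
  have hwcov : ∀ v ∈ G.V, v ≠ w → val ≠ x' v → G.m w v ≤ A w v := by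
    intro v hv hvw hne
    by_cases hvI : v ∈ I
    · have h1 : x v = !val := by
        rw [hx'v v hvw] at hne
        exact (hbool _ _).1 (Ne.symm hne)
      have h2 : A w v = 1 := by simp [A, hvI, h1]
      rw [h2, H.mwI v hvI]
    · rw [H.mw v hv hvI]
      exact Nat.zero_le _
  have hins : G.V = insert w (G.V \ {w}) := by
    ext v
    simp only [mem_insert, mem_sdiff, mem_singleton]
    constructor
    · intro h
      by_cases hvw : v = w
      · exact Or.inl hvw
      · exact Or.inr ⟨h, hvw⟩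
    · rintro (h | h)
      · rw [h]
        exact H.wV
      · exact h.1
  have hwn : w ∉ G.V \ {w} := fun h => (mem_sdiff.1 h).2 (mem_singleton_self w)
  refine ⟨x', A, ⟨?_, ?_⟩⟩
  · intro v hv v' hv' hne
    by_cases hvw : v = w
    · by_cases hvw' : v' = w
      · rw [hvw, hvw'] at hne
        exact absurd rfl hne
      · rw [hvw] at hne ⊢
        rw [hx'w] at hne
        exact (hwcov v' hv' hvw' hne).trans (Nat.le_add_right _ _)
    · by_cases hvw' : v' = w
      · rw [hvw'] at hne ⊢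
        rw [hx'w] at hne
        rw [H.wf.msymm]
        exact (hwcov v hv hvw (Ne.symm hne)).trans (Nat.le_add_left _ _)
      · have h1 : A v v' = C v v' := by simp [A, hvw, hvw']
        have h2 : A v' v = C v' v := by simp [A, hvw, hvw']
        rw [hx'v v hvw, hx'v v' hvw'] at hne
        rw [h1, h2]
        exact hc.cov v (hV v hv hvw) v' (hV v' hv' hvw') hne
  · intro v hv
    by_cases hvw : v = w
    · subst hvw
      rw [hx'w]
      refine le_trans (Nat.add_le_add_right (le_of_eq ?_) 1) hcap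
      unfold load
      have e1 : ∀ p ∈ G.V, ((if x' v = x' p then G.h v p else 0) + A v p)
          = if p ∈ I ∧ x p = !val then 1 else 0 := by
        intro p hp
        have h1 : A v p = if p ∈ I ∧ x p = !val then 1 else 0 := if_pos rfl
        rw [h1]
        have h2 : (if x' v = x' p then G.h v p else 0) = 0 := by
          by_cases hpc : p = c
          · subst hpc
            rw [hx'w, hx'v p H.hcw, hx]
            cases val <;> simp
          · rw [H.hw0 p hp hpc]
            simp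
        rw [h2, zero_add]
      rw [sum_congr rfl e1, card_eq_sum_ones, sum_filter]
      have e2 : ∀ p ∈ G.V, (if p ∈ I ∧ x p = !val then 1 else 0)
          = if p ∈ I then (if x p = !val then 1 else 0) else 0 := by
        intro p _
        by_cases h1 : p ∈ I
        · simp [h1]
        · simp [h1]
      rw [sum_congr rfl e2, ← sum_filter]
      have e3 : G.V.filter (fun p => p ∈ I) = I := by
        ext p
        simp only [mem_filter]
        exact ⟨fun h => h.2, fun h => ⟨H.hI h, h⟩⟩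
      rw [e3]
    · rw [hx'v v hvw]
      have h1 := hc.cap v (hV v hv hvw)
      refine le_trans (Nat.add_le_add_right (le_of_eq ?_) 1) h1
      unfold load
      show ∑ z ∈ G.V, _ = ∑ z ∈ G.V \ {w}, _
      have e0 : ∑ z ∈ G.V, ((if x' v = x' z then G.h v z else 0) + A v z)
          = ((if x' v = x' w then G.h v w else 0) + A v w)
            + ∑ z ∈ G.V \ {w}, ((if x' v = x' z then G.h v z else 0) + A v z) := by
        rw [← sum_insert hwn (f := fun z => (if x' v = x' z then G.h v z else 0) + A v z),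
          ← hins]
      rw [e0]
      have e1 : (if x' v = x' w then G.h v w else 0) + A v w = 0 := by
        have h2 : A v w = 0 := by simp [A, hvw]
        rw [h2, add_zero]
        by_cases hvc : v = c
        · subst hvc
          rw [hx'w, hx'v v hvw, hx]
          cases val <;> simp
        · rw [H.wf.hsymm, H.hw0 v hv hvc]
          simp
      rw [e1, zero_add]
      refine sum_congr rfl fun z hz => ?_
      have hzw : z ≠ w := fun h => (mem_sdiff.1 hz).2 (mem_singleton.2 h)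
      have h2 : A v z = C v z := by simp [A, hvw, hzw]
      rw [h2, hx'v v hvw, hx'v z hzw]
      rfl

theorem Core.contra (H : Core a b G I c u w) : False := by
  classical
  have hab : (b : ℤ) + 2 ≤ a := by exact_mod_cast H.ab
  have hb1 : (1 : ℤ) ≤ b := by exact_mod_cast H.b1
  have ha1 : 1 ≤ a := by have := H.ab; omega
  have hJ : (2 : ℤ) ≤ (a : ℤ) - b := by linarith
  obtain ⟨K, hK⟩ : ∃ K, K = G.res (G.V \ {w}) := ⟨_, rfl⟩
  have hKV : K.V = G.V \ {w} := by rw [hK]; rfl
  have hKVG : K.V ⊆ G.V := by rw [hKV]; exact sdiff_subset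
  have hKh : K.h = G.h := by rw [hK]; rfl
  have hKm : K.m = G.m := by rw [hK]; rfl
  have hKt : K.t = G.t := by rw [hK]; rfl
  have hKs : K.s = G.s := by rw [hK]; rfl
  have hKrho : ∀ X, rho a b K X = rho a b G X := fun X => by rw [hK]; rfl
  have hwK : ∀ X ⊆ K.V, w ∉ X := by
    intro X hX h
    have := hX h
    rw [hKV] at this
    exact (mem_sdiff.1 this).2 (mem_singleton_self w)
  have hmemK : ∀ v, v ∈ G.V → v ≠ w → v ∈ K.V := by
    intro v h1 h2
    rw [hKV]
    exact mem_sdiff.2 ⟨h1, fun h => h2 (mem_singleton.1 h)⟩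
  have hcK := hmemK c H.cV H.hcw
  have huK := hmemK u H.uV H.huw
  have hIK : I ⊆ K.V := fun p hp => hmemK p (H.hI hp) (fun h => H.hwI (h ▸ hp))
  have hNK : hc K < hc G := by
    unfold hc
    have h1 : ∀ v ∈ G.V, ∑ z ∈ K.V, G.h v z ≤ ∑ z ∈ G.V, G.h v z := fun v _ =>
      sum_le_sum_of_subset hKVG
    rw [hKh]
    refine lt_of_le_of_lt (sum_le_sum_of_subset (f := fun v => ∑ z ∈ K.V, G.h v z) hKVG) ?_
    refine sum_lt_sum h1 ⟨c, H.cV, ?_⟩
    have h2 : ∑ z ∈ G.V, G.h c z = G.h c w + ∑ z ∈ G.V \ {w}, G.h c z := by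
      rw [← erase_eq, add_sum_erase _ _ H.wV]
    rw [h2, hKV, H.hcw1]
    omega
  have HP : Phase a b (hc G) K I c u := by
    refine ⟨?_, H.ih, hNK, H.ab, hcK, huK, H.huc, hIK, H.hcI, H.huI, ?_, ?_, ?_, ?_, ?_, ?_, ?_,
      ?_, ?_, ?_⟩
    · rw [hK]
      exact res_wf H.wf sdiff_subset
    · rw [hKt]; exact H.tc
    · rw [hKs]; exact H.sc
    · intro v hv
      rw [hKh]
      exact H.hc0 v (hKVG hv) (fun h => hwK K.V (Subset.refl _) (h ▸ hv))
    · intro v hv
      rw [hKm]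
      exact H.mc v (hKVG hv)
    · rw [hKt]; exact H.tI
    · rw [hKs]; exact H.sI
    · intro p hp v hv
      rw [hKh]
      exact H.hI0 p hp v (hKVG hv)
    · rw [hKm, hKV]
      exact H.mI
    · rw [hKm]
      exact H.mII
    · intro X hX hcX
      rw [hKrho]
      have h1 := H.p1 X (hX.trans hKVG) hcX (fun h => hwK X hX (h ▸ H.wV))
      have h2 := H.pos
      linarith
  obtain ⟨T, B, x, C, L, S, hmax⟩ := HP.max
  have hcT : c ∈ T := S.hBT S.hc
  -- the pods
  have hch : ∀ p, ∃ X, p ∈ I → p ∉ T → X ⊆ K.V \ T ∧ p ∈ X ∧ gn a b K x T X ≤ (a : ℤ) - b := by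
    intro p
    by_cases hp : p ∈ I
    · by_cases hpT : p ∈ T
      · exact ⟨∅, fun _ h => absurd hpT h⟩
      · obtain ⟨X, h1, h2, h3⟩ := hmax p hp hpT
        exact ⟨X, fun _ _ => ⟨h1, h2, h3⟩⟩
    · exact ⟨∅, fun h => absurd h hp⟩
  choose Sp hSp' using hch
  have hSp : ∀ p ∈ I, p ∉ T → Sp p ⊆ K.V \ T ∧ p ∈ Sp p ∧
      gn a b K x T (Sp p) ≤ (a : ℤ) - b := fun p h1 h2 => hSp' p h1 h2
  obtain ⟨Y, hYd⟩ : ∃ Y, Y = I \ T := ⟨_, rfl⟩
  have hYI : ∀ p ∈ Y, p ∈ I ∧ p ∉ T := fun p hp => by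
    rw [hYd] at hp
    exact mem_sdiff.1 hp
  obtain ⟨M, hMd⟩ : ∃ M, M = Y.biUnion Sp := ⟨_, rfl⟩
  have hMK : M ⊆ K.V \ T := by
    intro v hv
    rw [hMd] at hv
    obtain ⟨p, hp, hvp⟩ := mem_biUnion.1 hv
    exact (hSp p (hYI p hp).1 (hYI p hp).2).1 hvp
  have hYM : ∀ p ∈ Y, p ∈ M := by
    intro p hp
    rw [hMd]
    exact mem_biUnion.2 ⟨p, hp, (hSp p (hYI p hp).1 (hYI p hp).2).2.1⟩
  -- the total gain of the pods
  have hLam : ∀ P ⊆ Y, gn a b K x T (P.biUnion Sp) ≤ ((a : ℤ) - b) * (#P : ℤ) := by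
    intro P
    induction P using Finset.induction_on with
    | empty =>
      intro _
      rw [biUnion_empty, gn_empty]
      simp
    | insert p P hp ihP =>
      intro hP
      have h1 := ihP ((subset_insert p P).trans hP)
      have hpY := hYI p (hP (mem_insert_self p P))
      have h2 := hSp p hpY.1 hpY.2
      have h3 := gn_submod_le (a := a) (b := b) HP.wf ha1 x T (Sp p) (P.biUnion Sp)
      have h4 : 0 ≤ gn a b K x T (Sp p ∩ P.biUnion Sp) := by
        by_cases hne : (Sp p ∩ P.biUnion Sp).Nonempty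
        · have := S.f1 _ (inter_subset_left.trans h2.1) hne
          linarith
        · rw [not_nonempty_iff_eq_empty] at hne
          rw [hne, gn_empty]
      rw [biUnion_insert, card_insert_of_notMem hp]
      push_cast
      linarith [h2.2.2]
  have hLamY := hLam Y (Subset.refl _)
  rw [← hMd] at hLamY
  -- zeros and ones of `I ∩ T`
  obtain ⟨Z0, hZ0⟩ : ∃ Z0, Z0 = (I ∩ T).filter (fun p => x p = false) := ⟨_, rfl⟩
  obtain ⟨Z1, hZ1⟩ : ∃ Z1, Z1 = (I ∩ T).filter (fun p => ¬ x p = false) := ⟨_, rfl⟩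
  have hZc : #Z0 + #Z1 = #(I ∩ T) := by
    rw [hZ0, hZ1]
    exact card_filter_add_card_filter_not (fun p => x p = false)
  have hIc : #(I ∩ T) + #Y = #I := by
    rw [hYd]
    exact card_inter_add_card_sdiff I T
  have hBZ : B.erase c ⊆ Z0 := by
    intro p hp
    obtain ⟨h1, h2⟩ := mem_erase.1 hp
    rw [hZ0]
    refine mem_filter.2 ⟨mem_inter.2 ⟨?_, S.hBT h2⟩, S.xB p h2 h1⟩
    rcases mem_insert.1 (S.hBI h2) with h | h
    · exact absurd h h1
    · exact h
  have hBc : #(B.erase c) + 1 = #B := card_erase_add_one S.hc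
  have hBZc := card_le_card hBZ
  -- the number of zeros is at most `#I - s w`
  have hzero : #Z0 + G.s w ≤ #I := by
    by_contra hcon
    have hall : T ∪ (K.V \ T) = K.V := union_sdiff_of_subset S.hT
    obtain ⟨x2, C2, h1, h2⟩ := extcol HP.ih HP.wf HP.hN S.hT (R := K.V \ T) (Subset.refl _)
      S.col (fun X hX hne => by
        have := S.f1 X hX hne
        linarith)
    rw [hall] at h1
    have h1' : IsCol (G.res (G.V \ {w})) x2 C2 := by
      have e : K.res K.V = G.res (G.V \ {w}) := by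
        rw [hKV, hK]
        rfl
      rw [e] at h1
      exact h1
    refine H.nc (H.addw false h1' ?_ ?_)
    · rw [h2 c hcT, S.xc]
      rfl
    · rw [thr_false]
      have h3 : Z0 ⊆ I.filter (fun p => ¬ x2 p = !false) := by
        intro p hp
        rw [hZ0] at hp
        obtain ⟨h4, h5⟩ := mem_filter.1 hp
        obtain ⟨h6, h7⟩ := mem_inter.1 h4
        refine mem_filter.2 ⟨h6, ?_⟩
        rw [h2 p h7, h5]
        simp
      have h4 := card_le_card h3
      have h5 := card_filter_add_card_filter_not (s := I) (fun p => x2 p = !false)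
      omega
  -- the potential of `T ∪ M ∪ {w}`
  have hdTM : Disjoint T M := disjoint_left.2 fun v h1 h2 => (mem_sdiff.1 (hMK h2)).2 h1
  have hTMK : T ∪ M ⊆ K.V := union_subset S.hT (hMK.trans sdiff_subset)
  have hITM : I ⊆ T ∪ M := by
    intro p hp
    by_cases hpT : p ∈ T
    · exact mem_union_left _ hpT
    · refine mem_union_right _ (hYM p ?_)
      rw [hYd]
      exact mem_sdiff.2 ⟨hp, hpT⟩
  have hwTM : w ∉ T ∪ M := hwK _ hTMK
  have hsumw : ∑ v ∈ T ∪ M, wt a b G w v = (b : ℤ) * (a - 1) + a * (#I : ℤ) := by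
    have e1 : ∀ v ∈ T ∪ M, wt a b G w v = (if v = c then (b : ℤ) * (a - 1) else 0)
        + (if v ∈ I then (a : ℤ) else 0) := by
      intro v hv
      have hvG := hKVG (hTMK hv)
      unfold wt
      by_cases hvc : v = c
      · subst hvc
        rw [H.wf.hsymm, H.hcw1, H.mw v hvG H.hcI, if_pos rfl, if_neg H.hcI]
        push_cast
        ring
      · rw [H.hw0 v hvG hvc, if_neg hvc]
        by_cases hvI : v ∈ I
        · rw [H.mwI v hvI, if_pos hvI]
          push_cast
          ring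
        · rw [H.mw v hvG hvI, if_neg hvI]
          push_cast
          ring
    rw [sum_congr rfl e1, sum_add_distrib, sum_ite_eq', if_pos (mem_union_left _ hcT),
      ← sum_filter]
    have e2 : (T ∪ M).filter (fun v => v ∈ I) = I := by
      ext p
      simp only [mem_filter]
      exact ⟨fun h => h.2, fun h => ⟨hITM h, h⟩⟩
    rw [e2, sum_const, nsmul_eq_mul]
    ring
  have hrZ : rho a b G (insert w (T ∪ M)) = rv a b G w + rho a b G (T ∪ M)
      - ∑ v ∈ T ∪ M, wt a b G w v := rho_insert H.wf hwTM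
  have hrTM := rho_gn (a := a) (b := b) HP.wf x hdTM
  rw [hKrho, S.f2] at hrTM
  rw [hsumw, hrTM] at hrZ
  have htw : G.t w + 1 ≤ b := H.wf.tb w H.wV c H.cV (by
    rw [H.wf.hsymm, H.hcw1]
    exact one_ne_zero)
  unfold rv at hrZ
  -- integral variables
  have i1 : (#Z0 : ℤ) + #Z1 = #(I ∩ T) := by exact_mod_cast hZc
  have i2 : (#(I ∩ T) : ℤ) + #Y = #I := by exact_mod_cast hIc
  have i3 : (#(B.erase c) : ℤ) + 1 = #B := by exact_mod_cast hBc
  have i4 : (#(B.erase c) : ℤ) ≤ #Z0 := by exact_mod_cast hBZc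
  have i5 : (#Z0 : ℤ) + G.s w ≤ #I := by exact_mod_cast hzero
  have i6 : (G.t w : ℤ) + 1 ≤ b := by exact_mod_cast htw
  have i7 : (0 : ℤ) ≤ n1 K x T M := Int.natCast_nonneg _
  have i8 : (0 : ℤ) ≤ #Z1 := Int.natCast_nonneg _
  have i9 := S.L0
  obtain ⟨Λ, hΛ⟩ : ∃ Λ : ℤ, Λ = ((a : ℤ) - b) * (#Y : ℤ) - gn a b K x T M := ⟨_, rfl⟩
  have i10 : 0 ≤ Λ := by rw [hΛ]; linarith
  -- the key identity
  have star : -rho a b G (insert w (T ∪ M)) = a * ((b : ℤ) - 1 - G.t w)
      + ((a : ℤ) - b) * (#Z1 : ℤ) + b * ((#I : ℤ) - #Z0 - G.s w)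
      + a * ((#Z0 : ℤ) - #(B.erase c)) + L + Λ + ((a : ℤ) - b) * (n1 K x T M : ℤ) := by
    rw [hrZ, hΛ, ← i2, ← i1, ← i3]
    ring
  have j1 : (0 : ℤ) ≤ (a : ℤ) * ((b : ℤ) - 1 - G.t w) := mul_nonneg (by linarith) (by linarith)
  have j2 : (0 : ℤ) ≤ ((a : ℤ) - b) * (#Z1 : ℤ) := mul_nonneg (by linarith) i8
  have j3 : (0 : ℤ) ≤ (b : ℤ) * ((#I : ℤ) - #Z0 - G.s w) := mul_nonneg (by linarith) (by linarith)
  have j4 : (0 : ℤ) ≤ (a : ℤ) * ((#Z0 : ℤ) - #(B.erase c)) :=
    mul_nonneg (by linarith) (by linarith)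
  have j5 : (0 : ℤ) ≤ ((a : ℤ) - b) * (n1 K x T M : ℤ) := mul_nonneg (by linarith) i7
  have hZsub : insert w (T ∪ M) ⊆ G.V := insert_subset H.wV (hTMK.trans hKVG)
  have hcZ : c ∈ insert w (T ∪ M) := mem_insert_of_mem (mem_union_left _ hcT)
  have hposV := H.pos
  have hZV : insert w (T ∪ M) = G.V := by
    by_contra hne
    have := H.p1 _ hZsub hcZ hne
    linarith
  rw [hZV] at star
  have k1 : G.t w + 1 = b := by
    by_contra hne
    have h1 : (G.t w : ℤ) + 2 ≤ b := by
      have : G.t w + 2 ≤ b := by omega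
      exact_mod_cast this
    have h2 : (a : ℤ) ≤ a * ((b : ℤ) - 1 - G.t w) := by nlinarith
    linarith
  have k3 : (#(B.erase c) : ℤ) = #Z0 := by
    by_contra hne
    have h1 : (#(B.erase c) : ℤ) + 1 ≤ #Z0 := by omega
    have h2 : (a : ℤ) ≤ a * ((#Z0 : ℤ) - #(B.erase c)) := by nlinarith
    linarith
  have hsum : ((a : ℤ) - b) * (#Z1 : ℤ) + L + Λ + ((a : ℤ) - b) * (n1 K x T M : ℤ)
      ≤ (b : ℤ) - 1 := by linarith
  -- everything is covered
  have hKTM : K.V = T ∪ M := by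
    refine Subset.antisymm ?_ hTMK
    intro v hv
    have h1 : v ∈ insert w (T ∪ M) := by
      rw [hZV]
      exact hKVG hv
    rcases mem_insert.1 h1 with h | h
    · exact absurd (h ▸ hv) (hwK K.V (Subset.refl _))
    · exact h
  have hKM : K.V \ T = M := by
    rw [hKTM]
    exact union_sdiff_cancel_left hdTM
  -- phase two
  obtain ⟨y, D, hy, hyc, hyB⟩ := S.psi HP (by linarith)
  obtain ⟨z, E, hz, hzc⟩ := HP.pods S H.b1 (by rw [hKM]; linarith) hSp y #Y Y le_rfl
    (by rw [hYd])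
  rw [← hMd] at hz hzc
  obtain ⟨x4, C4, h4, h4T, h4M⟩ := combR HP.wf S.hT hMK hy hz
  rw [← hKTM] at h4
  have h4' : IsCol (G.res (G.V \ {w})) x4 C4 := by
    have e : K.res K.V = G.res (G.V \ {w}) := by
      rw [hKV, hK]
      rfl
    rw [e] at h4
    exact h4
  refine H.nc (H.addw true h4' ?_ ?_)
  · rw [h4T c hcT, hyc]
    rfl
  · rw [thr_true]
    have hsub : I.filter (fun p => x4 p = !true) ⊆ ((I ∩ T) \ B.erase c)
        ∪ Y.filter (fun p => z p = false) := by
      intro p hp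
      obtain ⟨h5, h6⟩ := mem_filter.1 hp
      by_cases hpT : p ∈ T
      · refine mem_union_left _ (mem_sdiff.2 ⟨mem_inter.2 ⟨h5, hpT⟩, fun h7 => ?_⟩)
        obtain ⟨h8, h9⟩ := mem_erase.1 h7
        rw [h4T p hpT, hyB p h9 h8] at h6
        exact absurd h6 (by decide)
      · refine mem_union_right _ (mem_filter.2 ⟨?_, ?_⟩)
        · rw [hYd]
          exact mem_sdiff.2 ⟨h5, hpT⟩
        · rw [← h4M p (hYM p (by rw [hYd]; exact mem_sdiff.2 ⟨h5, hpT⟩)), h6]
          rfl
    have hcard := (card_le_card hsub).trans (card_union_le _ _)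
    have hBI : B.erase c ⊆ I ∩ T := by
      refine hBZ.trans ?_
      rw [hZ0]
      exact filter_subset _ _
    have hcard2 : #((I ∩ T) \ B.erase c) + #(B.erase c) = #(I ∩ T) :=
      card_sdiff_add_card_eq_card hBI
    have hZ1c : (#((I ∩ T) \ B.erase c) : ℤ) = #Z1 := by
      have : (#((I ∩ T) \ B.erase c) : ℤ) + #(B.erase c) = #(I ∩ T) := by exact_mod_cast hcard2
      linarith
    have hzc' : (#(Y.filter (fun p => z p = false)) : ℤ) ≤ Λ + (n1 K x T M : ℤ) := by
      rw [hΛ]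
      exact hzc
    have hcardZ : (#(I.filter (fun p => x4 p = !true)) : ℤ)
        ≤ #Z1 + Λ + (n1 K x T M : ℤ) := by
      have : (#(I.filter (fun p => x4 p = !true)) : ℤ) ≤ #((I ∩ T) \ B.erase c)
          + #(Y.filter (fun p => z p = false)) := by exact_mod_cast hcard
      linarith
    have hfin : (#(I.filter (fun p => x4 p = !true)) : ℤ) + 1 ≤ G.t w := by
      have hk1 : (G.t w : ℤ) + 1 = b := by exact_mod_cast k1
      have m1 : 2 * (#Z1 : ℤ) ≤ ((a : ℤ) - b) * (#Z1 : ℤ) := mul_le_mul_of_nonneg_right hJ i8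
      have m2 : 2 * (n1 K x T M : ℤ) ≤ ((a : ℤ) - b) * (n1 K x T M : ℤ) :=
        mul_le_mul_of_nonneg_right hJ i7
      by_cases huT : u ∈ T
      · have := S.f4 huT
        linarith
      · have huM : u ∈ M := by
          rw [hKTM] at huK
          rcases mem_union.1 huK with h | h
          · exact absurd h huT
          · exact h
        have h5 : 1 ≤ n1 K x T M := by
          have h6 := n1_ge (G := K) (x := x) (T := T) (S := M) hcT huM S.xc
          have h7 := HP.mc u (hmemK u H.uV H.huw)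
          rw [if_pos rfl] at h7
          omega
        have h8 : (1 : ℤ) ≤ n1 K x T M := by exact_mod_cast h5
        linarith
    exact_mod_cast hfin

end

end Pool.Agent.Lib.MP_4006b4_co_b
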