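import Mathlib
import Pool.Agent.Lib.MP_4006b4_co_b.Gain

/-!
# Orientation of the edges and a sink with exactly one edge
-/

open Finset

namespace Pool.Agent.Lib.MP_4006b4_co_b

section

variable {a b : ℕ} {G : Str}

theorem MinCE.noboth (M : MinCE a b G) (P : Par a b) {u w : ℕ} (hh : G.h u w ≠ 0)
    {S S' : Finset ℕ} (hS : S ⊆ G.V) (hS' : S' ⊆ G.V) (hr : rho a b G S ≤ a)
    (hr' : rho a b G S' ≤ a) (h1 : u ∈ S) (h2 : w ∉ S) (h3 : w ∈ S') (h4 : u ∉ S') : False := by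
  have hU := P.hU
  have hab := P.hab
  have hb3 := P.hb3
  have ha1 : 1 ≤ a := by have := P.ab; omega
  have ha0 : (0 : ℤ) ≤ a := Int.natCast_nonneg _
  have k1 := gn_submod (a := a) (b := b) M.wf (fun _ => true) ∅ S S'
  simp only [gn_nil] at k1
  have k2 := M.pos (S ∪ S') (union_subset hS hS') ⟨u, mem_union_left _ h1⟩
  have k3 : 0 ≤ rho a b G (S ∩ S') := by
    by_cases hne : (S ∩ S').Nonempty
    · have := M.p1' P (inter_subset_left.trans hS) hne (fun h => by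
        have h5 : w ∈ S ∩ S' := by
          rw [h]
          exact hS' h3
        exact h2 (mem_inter.1 h5).1)
      linarith
    · rw [not_nonempty_iff_eq_empty] at hne
      rw [hne, rho_empty]
  have k4 : wt a b G u w ≤ cross a b G (S \ S') (S' \ S) := by
    have hu' : u ∈ S \ S' := mem_sdiff.2 ⟨h1, h4⟩
    have hw' : w ∈ S' \ S := mem_sdiff.2 ⟨h3, h2⟩
    unfold cross
    refine le_trans ?_ (single_le_sum (f := fun v => ∑ z ∈ S' \ S, wt a b G v z)
      (fun v _ => sum_nonneg fun z _ => wt_nonneg ha1 _ _ _) hu')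
    exact single_le_sum (f := fun z => wt a b G u z) (fun z _ => wt_nonneg ha1 _ _ _) hw'
  have k5 : (b : ℤ) * (a - 1) ≤ wt a b G u w := by
    unfold wt
    have h5 : (1 : ℤ) ≤ G.h u w := by exact_mod_cast Nat.one_le_iff_ne_zero.2 hh
    have h6 : (0 : ℤ) ≤ G.m u w := Int.natCast_nonneg _
    have h7 : (0 : ℤ) ≤ (b : ℤ) * (a - 1) := by linarith
    nlinarith [mul_nonneg ha0 h6]
  linarith

/-- There is a vertex with an edge all of whose edges come in. -/
theorem MinCE.sink (M : MinCE a b G) (P : Par a b) (hH : ∃ u ∈ G.V, ∃ w ∈ G.V, G.h u w ≠ 0) :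
    ∃ w ∈ G.V, (∃ u ∈ G.V, G.h u w ≠ 0) ∧ ∀ v ∈ G.V, G.h v w ≠ 0 →
      ∃ S ⊆ G.V, rho a b G S ≤ a ∧ v ∈ S ∧ w ∉ S := by
  classical
  let D : ℕ → Finset ℕ := fun w => G.V.filter (fun z => ∀ S ⊆ G.V, rho a b G S ≤ a →
    w ∈ S → z ∈ S)
  have hD : ∀ w z, z ∈ D w ↔ z ∈ G.V ∧ ∀ S ⊆ G.V, rho a b G S ≤ a → w ∈ S → z ∈ S := by
    intro w z
    simp [D]
  obtain ⟨u0, hu0, w0, hw0, h0⟩ := hH
  obtain ⟨w, hw, hmax⟩ := exists_max_image (G.V.filter (fun w => ∃ u ∈ G.V, G.h u w ≠ 0))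
    (fun w => #(D w)) ⟨w0, mem_filter.2 ⟨hw0, u0, hu0, h0⟩⟩
  obtain ⟨hwV, hwu⟩ := mem_filter.1 hw
  refine ⟨w, hwV, hwu, ?_⟩
  intro v hv hvw
  obtain ⟨S, hS, hne, hSV, hsm, h⟩ := M.f5 P hv hwV hvw
  rcases h with ⟨h1, h2⟩ | ⟨h1, h2⟩
  · exact ⟨S, hS, hsm, h1, h2⟩
  · exfalso
    have hvW : v ∈ G.V.filter (fun w => ∃ u ∈ G.V, G.h u w ≠ 0) :=
      mem_filter.2 ⟨hv, w, hwV, by rw [M.wf.hsymm]; exact hvw⟩
    have h3 := hmax v hvW
    have h4 : D w ⊆ D v := by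
      intro z hz
      rw [hD] at hz ⊢
      refine ⟨hz.1, fun S' hS' hr' hvS' => hz.2 S' hS' hr' ?_⟩
      by_contra hwS'
      exact M.noboth P (u := v) (w := w) hvw hS' hS hr' hsm hvS' hwS' h1 h2
    have h5 : v ∈ D v := (hD v v).2 ⟨hv, fun S' _ _ h => h⟩
    have h6 : v ∉ D w := fun h => h2 (((hD w v).1 h).2 S hS hsm h1)
    have h7 : #(D w) < #(D v) := card_lt_card ((ssubset_iff_subset_ne).2
      ⟨h4, fun h => h6 (h ▸ h5)⟩)
    have h8 : #(D v) ≤ #(D w) := h3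
    omega

theorem satout {S : Finset ℕ} {v0 : ℕ} (hv0 : v0 ∈ S) {x : ℕ → Bool} {B : ℕ → ℕ → ℕ}
    (hsat : load G x B S v0 + 1 = thr G (x v0) v0) {K : Str} (hSK : S ⊆ K.V)
    (hKh : ∀ z ∈ S, G.h v0 z ≤ K.h v0 z) (hcap : load K x B K.V v0 + 1 ≤ thr G (x v0) v0) :
    ∀ z ∈ K.V \ S, (x v0 = x z → K.h v0 z = 0) ∧ B v0 z = 0 := by
  have h1 : load K x B K.V v0 = (∑ z ∈ K.V \ S, ((if x v0 = x z then K.h v0 z else 0) + B v0 z))
      + ∑ z ∈ S, ((if x v0 = x z then K.h v0 z else 0) + B v0 z) := by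
    unfold load
    rw [sum_sdiff hSK]
  have h2 : load G x B S v0 ≤ ∑ z ∈ S, ((if x v0 = x z then K.h v0 z else 0) + B v0 z) := by
    unfold load
    refine sum_le_sum fun z hz => Nat.add_le_add_right ?_ _
    split_ifs
    · exact hKh z hz
    · exact le_rfl
  have h3 : ∑ z ∈ K.V \ S, ((if x v0 = x z then K.h v0 z else 0) + B v0 z) = 0 := by omega
  rw [sum_eq_zero_iff] at h3
  intro z hz
  have h4 := h3 z hz
  refine ⟨fun h => ?_, by omega⟩
  rw [if_pos h] at h4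
  omega

theorem MinCE.satin (M : MinCE a b G) (P : Par a b) {S : Finset ℕ} (hS : S ⊆ G.V)
    (hsm : rho a b G S ≤ a) {v0 z0 : ℕ} (hv0 : v0 ∈ bd G S) (hz0 : z0 ∈ S) (hne : v0 ≠ z0)
    {x : ℕ → Bool} {B : ℕ → ℕ → ℕ} (hcol : IsCol (G.res S) x B)
    (hcov : G.m v0 z0 + 1 ≤ B v0 z0 + B z0 v0) : B v0 z0 = 0 := by
  classical
  by_contra hB
  have hv0S := (mem_bd.1 hv0).1
  let B2 : ℕ → ℕ → ℕ := fun p q => if p = v0 ∧ q = z0 then B v0 z0 - 1 else B p q
  have hB2 : ∀ p q, B2 p q ≤ B p q := by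
    intro p q
    show (if p = v0 ∧ q = z0 then B v0 z0 - 1 else B p q) ≤ B p q
    split_ifs with h
    · rw [h.1, h.2]
      omega
    · exact le_rfl
  have hcol2 : IsCol (G.res S) x B2 := by
    refine ⟨?_, ?_⟩
    · intro p hp q hq hpq
      have h1 := hcol.cov p hp q hq hpq
      show G.m p q ≤ (if p = v0 ∧ q = z0 then B v0 z0 - 1 else B p q)
        + (if q = v0 ∧ p = z0 then B v0 z0 - 1 else B q p)
      have h1' : G.m p q ≤ B p q + B q p := h1
      by_cases h2 : p = v0 ∧ q = z0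
      · rw [if_pos h2, if_neg (by rintro ⟨h3, h4⟩; exact hne (h2.1.symm.trans h4))]
        rw [h2.1, h2.2]
        omega
      · rw [if_neg h2]
        by_cases h3 : q = v0 ∧ p = z0
        · rw [if_pos h3, h3.1, h3.2, M.wf.msymm]
          omega
        · rw [if_neg h3]
          exact h1'
    · intro p hp
      refine le_trans (Nat.add_le_add_right ?_ 1) (hcol.cap p hp)
      unfold load
      exact sum_le_sum fun q _ => Nat.add_le_add_left (hB2 p q) _
  have h1 := M.sat P hS hsm hcol hv0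
  have h2 := M.sat P hS hsm hcol2 hv0
  have h3 : load G x B2 S v0 < load G x B S v0 := by
    unfold load
    refine sum_lt_sum (fun q _ => Nat.add_le_add_left (hB2 v0 q) _) ⟨z0, hz0, ?_⟩
    refine Nat.add_lt_add_left ?_ _
    show (if v0 = v0 ∧ z0 = z0 then B v0 z0 - 1 else B v0 z0) < B v0 z0
    rw [if_pos ⟨rfl, rfl⟩]
    omega
  omega

/-- At a sink there is only one edge. -/
theorem MinCE.onein (M : MinCE a b G) (P : Par a b) {u1 u2 w : ℕ} (hu1 : u1 ∈ G.V)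
    (hu2 : u2 ∈ G.V) (hw : w ∈ G.V) (h1 : G.h u1 w ≠ 0) (h2 : G.h u2 w ≠ 0)
    {S1 S2 : Finset ℕ} (hS1 : S1 ⊆ G.V) (hS2 : S2 ⊆ G.V) (hr1 : rho a b G S1 ≤ a)
    (hr2 : rho a b G S2 ≤ a) (hu1S : u1 ∈ S1) (hu2S : u2 ∈ S2) (hw1 : w ∉ S1) (hw2 : w ∉ S2) :
    u1 = u2 := by
  classical
  by_contra hne
  have hU := P.hU
  have hab := P.hab
  have hb3 := P.hb3
  have ha0 : (0 : ℤ) ≤ a := Int.natCast_nonneg _
  have hu2w : u2 ≠ w := fun h => h2 (by rw [h]; exact M.wf.hirr w)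
  have hu1w : u1 ≠ w := fun h => h1 (by rw [h]; exact M.wf.hirr w)
  have hh2 : 1 ≤ G.h u2 w := Nat.one_le_iff_ne_zero.2 h2
  obtain ⟨G1, hG1⟩ : ∃ G1, G1 = G.rem u2 w 1 0 G.t G.s := ⟨_, rfl⟩
  have wf1 : G1.WF a b := by
    rw [hG1]
    exact rem_wf M.wf (fun _ => le_rfl) (fun _ => le_rfl)
  obtain ⟨G', hG'⟩ : ∃ G' : Str,
    G' = ⟨G.V, G1.h, fun v z => G.m v z + dl u1 u2 v z, G.t, G.s⟩ := ⟨_, rfl⟩
  have hV' : G'.V = G.V := by rw [hG']
  have hh' : ∀ v z, G'.h v z = G.h v z - 1 * dl u2 w v z := by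
    intro v z
    rw [hG', hG1]
    rfl
  have hm' : ∀ v z, G'.m v z = G.m v z + dl u1 u2 v z := by
    intro v z
    rw [hG']
  have hhle : ∀ v z, G'.h v z ≤ G.h v z := fun v z => by
    rw [hh']
    exact Nat.sub_le _ _
  have hwf' : G'.WF a b := by
    refine ⟨?_, ?_, ?_, ?_, ?_, ?_, ?_⟩
    · intro v z
      rw [hh', hh', M.wf.hsymm, dl_symm]
    · intro v z
      rw [hm', hm', M.wf.msymm, dl_symm]
    · intro v
      rw [hh', M.wf.hirr]
      exact Nat.zero_sub _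
    · intro v
      rw [hm', M.wf.mirr, dl_zero]
      rintro (⟨h3, h4⟩ | ⟨h3, h4⟩)
      · exact hne (h3.symm.trans h4)
      · exact hne (h4.symm.trans h3)
    · intro v z
      exact (hhle v z).trans (M.wf.hle v z)
    · intro v hv z hz h
      rw [hV'] at hv hz
      have : G'.t v = G.t v := by rw [hG']
      rw [this]
      exact M.wf.tb v hv z hz (fun h0 => h (by have := hhle v z; omega))
    · intro v hv z hz h
      rw [hV'] at hv hz
      have : G'.s v = G.s v := by rw [hG']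
      rw [this]
      exact M.wf.sb v hv z hz (fun h0 => h (by have := hhle v z; omega))
  have hrho' : ∀ S, rho a b G' S = rho a b G S
      + (if u2 ∈ S ∧ w ∈ S then (b : ℤ) * (a - 1) else 0)
      - (if u1 ∈ S ∧ u2 ∈ S then (a : ℤ) else 0) := by
    intro S
    have e1 := rem_rho (a := a) (b := b) M.wf hu2w hh2 (Nat.zero_le _) G.t G.s S
    rw [← hG1, sum_same, sum_same] at e1
    have e2 : rho a b G' S = rho a b G1 S - (∑ v ∈ S, (0 : ℤ))
        + if u1 ∈ S ∧ u2 ∈ S then (b : ℤ) * (a - 1) * 0 + a * (-1) else 0 := by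
      refine rho_mod (G := G1) (G' := G') hne S 0 (-1) (fun _ => 0) ?_ ?_ ?_
      · intro v _ z _
        rw [hG']
        simp
      · intro v _ z _
        rw [hm']
        have : G1.m v z = G.m v z := by
          rw [hG1]
          show G.m v z - 0 * dl u2 w v z = G.m v z
          rw [Nat.zero_mul, Nat.sub_zero]
        rw [this]
        push_cast
        ring
      · intro v _
        have h3 : G'.t v = G1.t v := by rw [hG', hG1]; rfl
        have h4 : G'.s v = G1.s v := by rw [hG', hG1]; rfl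
        unfold rv
        rw [h3, h4]
        ring
    rw [e2, e1]
    split_ifs <;> simp <;> ring
  have hpos' : ∀ S ⊆ G'.V, S.Nonempty → -(b : ℤ) + 1 ≤ rho a b G' S := by
    intro S hS hSne
    rw [hV'] at hS
    rw [hrho']
    have k1 := M.pos S hS hSne
    by_cases h3 : u1 ∈ S ∧ u2 ∈ S
    · rw [if_pos h3]
      by_cases h4 : u2 ∈ S ∧ w ∈ S
      · rw [if_pos h4]
        linarith
      · rw [if_neg h4]
        have k2 := M.p1 P hS hSne (fun h => h4 ⟨h3.2, h ▸ hw⟩)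
        have k3 := M.rhoV
        linarith
    · rw [if_neg h3]
      split_ifs <;> linarith
  have hless : Less G' G := by
    left
    have e1 : hc G' = hc G1 := by
      unfold hc
      rw [hG', hG1]
      rfl
    rw [e1, hG1]
    exact hc_rem_lt hu2 hw h2 G.t G.s
  obtain ⟨x, B, hc⟩ := M.ih G' hwf' hpos' hless
  have hheq : ∀ p z, p ≠ w → z ≠ w → G'.h p z = G.h p z := by
    intro p z hp hz
    rw [hh', dl_zero_right hp hz, Nat.mul_zero, Nat.sub_zero]
  have hcol : ∀ S ⊆ G.V, w ∉ S → IsCol (G.res S) x B := by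
    intro S hS hwS
    refine IsCol.mono (G := G') (G' := G.res S) (by rw [hV']; exact hS) ?_ ?_ ?_ ?_ hc
    · intro v hv z hz
      show G.h v z ≤ G'.h v z
      exact (hheq v z (fun h : v = w => hwS (h ▸ hv)) (fun h : z = w => hwS (h ▸ hz))).ge
    · intro v _ z _
      show G.m v z ≤ G'.m v z
      rw [hm']
      exact Nat.le_add_right _ _
    · intro v _
      rw [hG']
      exact le_rfl
    · intro v _
      rw [hG']
      exact le_rfl
  have hthr : ∀ v, thr G' (x v) v = thr G (x v) v := by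
    intro v
    rw [hG']
    rfl
  have key : ∀ (p q : ℕ) (S : Finset ℕ), S ⊆ G.V → rho a b G S ≤ a → p ∈ S → w ∉ S → p ≠ q →
      p ∈ G.V → q ∈ G.V → G.h p w ≠ 0 → G.m p q + 1 ≤ B p q + B q p → B p q = 0 := by
    intro p q S hS hr hp hwS hpq hpV hqV hpw hcov
    have hbd : p ∈ bd G S := mem_bd.2 ⟨hp, w, mem_sdiff.2 ⟨hw, hwS⟩, by omega⟩
    by_cases hqS : q ∈ S
    · exact M.satin P hS hr hbd hqS hpq (hcol S hS hwS) hcov
    · have hsat := M.sat P hS hr (hcol S hS hwS) hbd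
      have hcap := hc.cap p (by rw [hV']; exact hpV)
      rw [hthr] at hcap
      exact (satout (G := G) hp hsat (K := G') (by rw [hV']; exact hS) (fun z hz =>
        (hheq p z (fun h : p = w => hwS (h ▸ hp)) (fun h : z = w => hwS (h ▸ hz))).ge)
        hcap q (mem_sdiff.2 ⟨by rw [hV']; exact hqV, hqS⟩)).2
  have hx12 : x u1 = x u2 := by
    by_contra hx
    have hcov := hc.cov u1 (by rw [hV']; exact hu1) u2 (by rw [hV']; exact hu2) hx
    rw [hm', dl_pq] at hcov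
    have k1 := key u1 u2 S1 hS1 hr1 hu1S hw1 hne hu1 hu2 h1 hcov
    have k2 := key u2 u1 S2 hS2 hr2 hu2S hw2 (Ne.symm hne) hu2 hu1 h2 (by
      rw [M.wf.msymm]
      omega)
    omega
  have hx1w : x u1 ≠ x w := by
    intro hx
    have hbd : u1 ∈ bd G S1 := mem_bd.2 ⟨hu1S, w, mem_sdiff.2 ⟨hw, hw1⟩, by omega⟩
    have hsat := M.sat P hS1 hr1 (hcol S1 hS1 hw1) hbd
    have hcap := hc.cap u1 (by rw [hV']; exact hu1)
    rw [hthr] at hcap
    have k1 := (satout (G := G) hu1S hsat (K := G') (by rw [hV']; exact hS1) (fun z hz =>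
      (hheq u1 z hu1w (fun h : z = w => hw1 (h ▸ hz))).ge)
      hcap w (mem_sdiff.2 ⟨by rw [hV']; exact hw, hw1⟩)).1 hx
    rw [hh', dl_zero_left hne hu1w] at k1
    omega
  have hx2w : x u2 ≠ x w := by
    rw [← hx12]
    exact hx1w
  refine M.nc ⟨x, B, ?_, ?_⟩
  · intro v hv z hz hvz
    have := hc.cov v (by rw [hV']; exact hv) z (by rw [hV']; exact hz) hvz
    rw [hm'] at this
    omega
  · intro v hv
    have hcap := hc.cap v (by rw [hV']; exact hv)
    rw [hthr, hV'] at hcap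
    refine le_trans (Nat.add_le_add_right (le_of_eq ?_) 1) hcap
    unfold load
    refine sum_congr rfl fun z _ => ?_
    congr 1
    split_ifs with hxx
    · rw [hh', dl_zero, Nat.mul_zero, Nat.sub_zero]
      rintro (⟨h3, h4⟩ | ⟨h3, h4⟩)
      · rw [h3, h4] at hxx
        exact hx2w hxx
      · rw [h3, h4] at hxx
        exact hx2w hxx.symm
    · rfl

theorem MinCE.rhoV0 (M : MinCE a b G) (P : Par a b) {u w : ℕ} (hu : u ∈ G.V) (hw : w ∈ G.V)
    (hh : G.h u w ≠ 0) : rho a b G G.V ≤ 0 := by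
  obtain ⟨S, hS, hne, hSV, hsm, h⟩ := M.f5 P hu hw hh
  have key : ∀ p q, p ∈ S → q ∈ G.V → q ∉ S → G.h p q ≠ 0 → rho a b G G.V ≤ 0 := by
    intro p q hp hq hqS hpq
    have hqR : q ∈ G.V \ S := mem_sdiff.2 ⟨hq, hqS⟩
    have hbd : p ∈ bd G S := mem_bd.2 ⟨hp, q, hqR, by omega⟩
    obtain ⟨x, A, hc, hx⟩ := M.both P hS hSV hsm hbd true
    have h1 := M.n1le P hS hne hsm hc
    have h2 := n1_ge (G := G) hp hqR hx
    have h3 : (1 : ℤ) ≤ n1 G x S (G.V \ S) := by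
      have : 1 ≤ n1 G x S (G.V \ S) := by omega
      exact_mod_cast this
    have h4 := P.hab
    nlinarith
  rcases h with ⟨h1, h2⟩ | ⟨h1, h2⟩
  · exact key u w h1 hw h2 hh
  · exact key w u h1 hu h2 (by rw [M.wf.hsymm]; exact hh)

end

end Pool.Agent.Lib.MP_4006b4_co_b
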