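import Mathlib
import Pool.Agent.Lib.MP_4006b4_co_b.Sink
import Pool.Agent.Lib.MP_4006b4_co_b.Core

/-!
# Inserting a net at the unique edge of the sink
-/

open Finset

namespace Pool.Agent.Lib.MP_4006b4_co_b

/-- The edge `uw` is replaced by a link `uc` and an edge `cw`, where `c` is a net. -/
def Str.gate (G : Str) (u w c : ℕ) : Str where
  V := insert c G.V
  h := fun v z => if v = c then (if z = w then 1 else 0)
    else if z = c then (if v = w then 1 else 0) else G.h v z - 1 * dl u w v z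
  m := fun v z => if v = c then (if z = u then 1 else 0)
    else if z = c then (if v = u then 1 else 0) else G.m v z
  t := fun v => if v = c then 1 else G.t v
  s := fun v => if v = c then 1 else G.s v

section

variable {a b : ℕ} {G : Str} {u w c : ℕ}

theorem gate_h (hvc : u ≠ c) {v z : ℕ} (hv : v ≠ c) (hz : z ≠ c) :
    (G.gate u w c).h v z = G.h v z - 1 * dl u w v z := by
  show (if v = c then (if z = w then 1 else 0)
    else if z = c then (if v = w then 1 else 0) else G.h v z - 1 * dl u w v z) = _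
  rw [if_neg hv, if_neg hz]

theorem gate_m {v z : ℕ} (hv : v ≠ c) (hz : z ≠ c) :
    (G.gate u w c).m v z = G.m v z := by
  show (if v = c then (if z = u then 1 else 0)
    else if z = c then (if v = u then 1 else 0) else G.m v z) = _
  rw [if_neg hv, if_neg hz]

theorem gate_hc (z : ℕ) : (G.gate u w c).h c z = if z = w then 1 else 0 := if_pos rfl

theorem gate_mc (z : ℕ) : (G.gate u w c).m c z = if z = u then 1 else 0 := if_pos rfl

theorem gate_hc' (hcw : c ≠ w) (v : ℕ) : (G.gate u w c).h v c = if v = w then 1 else 0 := by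
  show (if v = c then (if c = w then 1 else 0)
    else if c = c then (if v = w then 1 else 0) else G.h v c - 1 * dl u w v c) = _
  by_cases hv : v = c
  · rw [if_pos hv, hv]
  · rw [if_neg hv, if_pos rfl]

theorem gate_mc' (hcu : c ≠ u) (v : ℕ) : (G.gate u w c).m v c = if v = u then 1 else 0 := by
  show (if v = c then (if c = u then 1 else 0)
    else if c = c then (if v = u then 1 else 0) else G.m v c) = _
  by_cases hv : v = c
  · rw [if_pos hv, hv]
  · rw [if_neg hv, if_pos rfl]

theorem gate_t {v : ℕ} (hv : v ≠ c) : (G.gate u w c).t v = G.t v := if_neg hv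

theorem gate_s {v : ℕ} (hv : v ≠ c) : (G.gate u w c).s v = G.s v := if_neg hv

theorem gate_wf (wf : G.WF a b) (ha : 2 ≤ a) (hb : 2 ≤ b) (hu : u ∈ G.V)
    (hw : w ∈ G.V) (hcn : c ∉ G.V) (hh : G.h u w ≠ 0) : (G.gate u w c).WF a b := by
  have hcu : c ≠ u := fun h => hcn (h ▸ hu)
  have hcw : c ≠ w := fun h => hcn (h ▸ hw)
  have hle : ∀ v z, (G.gate u w c).h v z ≤ 1 := by
    intro v z
    by_cases hv : v = c
    · rw [hv, gate_hc]
      split_ifs <;> omega
    · by_cases hz : z = c
      · rw [hz, gate_hc' hcw]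
        split_ifs <;> omega
      · rw [gate_h hcu.symm hv hz]
        exact (Nat.sub_le _ _).trans (wf.hle v z)
  have hmem : ∀ v ∈ (G.gate u w c).V, v ≠ c → v ∈ G.V := by
    intro v hv hne
    rcases mem_insert.1 hv with h | h
    · exact absurd h hne
    · exact h
  refine ⟨?_, ?_, ?_, ?_, hle, ?_, ?_⟩
  · intro v z
    by_cases hv : v = c
    · rw [hv, gate_hc, gate_hc' hcw]
    · by_cases hz : z = c
      · rw [hz, gate_hc, gate_hc' hcw]
      · rw [gate_h hcu.symm hv hz, gate_h hcu.symm hz hv, wf.hsymm, dl_symm]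
  · intro v z
    by_cases hv : v = c
    · rw [hv, gate_mc, gate_mc' hcu]
    · by_cases hz : z = c
      · rw [hz, gate_mc, gate_mc' hcu]
      · rw [gate_m hv hz, gate_m hz hv, wf.msymm]
  · intro v
    by_cases hv : v = c
    · rw [hv, gate_hc, if_neg hcw]
    · rw [gate_h hcu.symm hv hv, wf.hirr]
      exact Nat.zero_sub _
  · intro v
    by_cases hv : v = c
    · rw [hv, gate_mc, if_neg hcu]
    · rw [gate_m hv hv, wf.mirr]
  · intro v hv z hz h
    by_cases hvc : v = c
    · rw [hvc]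
      show (if c = c then 1 else G.t c) + 1 ≤ b
      rw [if_pos rfl]
      omega
    · rw [gate_t hvc]
      by_cases hzc : z = c
      · rw [hzc, gate_hc' hcw] at h
        by_cases hvw : v = w
        · rw [hvw]
          exact wf.tb w hw u hu (by rw [wf.hsymm]; exact hh)
        · rw [if_neg hvw] at h
          exact absurd rfl h
      · rw [gate_h hcu.symm hvc hzc] at h
        exact wf.tb v (hmem v hv hvc) z (hmem z hz hzc) (fun h0 => h (by rw [h0]; exact Nat.zero_sub _))
  · intro v hv z hz h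
    by_cases hvc : v = c
    · rw [hvc]
      show (if c = c then 1 else G.s c) + 1 ≤ a
      rw [if_pos rfl]
      omega
    · rw [gate_s hvc]
      by_cases hzc : z = c
      · rw [hzc, gate_hc' hcw] at h
        by_cases hvw : v = w
        · rw [hvw]
          exact wf.sb w hw u hu (by rw [wf.hsymm]; exact hh)
        · rw [if_neg hvw] at h
          exact absurd rfl h
      · rw [gate_h hcu.symm hvc hzc] at h
        exact wf.sb v (hmem v hv hvc) z (hmem z hz hzc) (fun h0 => h (by rw [h0]; exact Nat.zero_sub _))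

theorem gate_rho (wf : G.WF a b) (huw : u ≠ w) (hu : u ∈ G.V) (hcn : c ∉ G.V)
    (hh : G.h u w ≠ 0) {Z : Finset ℕ} (hZ : Z ⊆ G.V) :
    rho a b (G.gate u w c) Z = rho a b G Z
      + if u ∈ Z ∧ w ∈ Z then (b : ℤ) * (a - 1) else 0 := by
  have hcu : c ≠ u := fun h => hcn (h ▸ hu)
  have hZc : ∀ v ∈ Z, v ≠ c := fun v hv h => hcn (h ▸ hZ hv)
  have hh1 : 1 ≤ G.h u w := Nat.one_le_iff_ne_zero.2 hh
  rw [rho_mod (G := G) huw Z 1 0 (fun _ => 0)]
  · rw [sum_const_zero]
    split_ifs <;> ring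
  · intro v hv z hz
    rw [gate_h hcu.symm (hZc v hv) (hZc z hz), Nat.cast_sub (dl_le_h wf hh1 v z)]
    push_cast
    ring
  · intro v hv z hz
    rw [gate_m (hZc v hv) (hZc z hz)]
    ring
  · intro v hv
    unfold rv
    rw [gate_t (hZc v hv), gate_s (hZc v hv)]
    ring

theorem gate_rho_c (wf' : (G.gate u w c).WF a b) (huw : u ≠ w) {Z : Finset ℕ} (hcZ : c ∉ Z) :
    rho a b (G.gate u w c) (insert c Z) = a + rho a b (G.gate u w c) Z
      - (if w ∈ Z then (b : ℤ) * (a - 1) else 0) - (if u ∈ Z then (a : ℤ) else 0) := by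
  classical
  rw [rho_insert wf' hcZ]
  have e1 : rv a b (G.gate u w c) c = a := by
    unfold rv
    have h1 : (G.gate u w c).t c = 1 := if_pos rfl
    have h2 : (G.gate u w c).s c = 1 := if_pos rfl
    rw [h1, h2]
    push_cast
    ring
  have e2 : ∑ z ∈ Z, wt a b (G.gate u w c) c z
      = (if w ∈ Z then (b : ℤ) * (a - 1) else 0) + (if u ∈ Z then (a : ℤ) else 0) := by
    have e3 : ∀ z ∈ Z, wt a b (G.gate u w c) c z
        = (if z = w then (b : ℤ) * (a - 1) else 0) + (if z = u then (a : ℤ) else 0) := by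
      intro z _
      unfold wt
      rw [gate_hc, gate_mc]
      by_cases h1 : z = w
      · rw [if_pos h1, if_pos h1, if_neg (fun h => huw (h.symm.trans h1)),
          if_neg (fun h => huw (h.symm.trans h1))]
        push_cast
        ring
      · rw [if_neg h1, if_neg h1]
        by_cases h2 : z = u
        · rw [if_pos h2, if_pos h2]
          push_cast
          ring
        · rw [if_neg h2, if_neg h2]
          push_cast
          ring
    rw [sum_congr rfl e3, sum_add_distrib, sum_ite_eq', sum_ite_eq']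
  rw [e1, e2]
  ring

theorem gate_hcle (wf : G.WF a b) (huw : u ≠ w) (hu : u ∈ G.V) (hw : w ∈ G.V) (hcn : c ∉ G.V)
    (hh : G.h u w ≠ 0) : hc (G.gate u w c) ≤ hc G := by
  classical
  have hcu : c ≠ u := fun h => hcn (h ▸ hu)
  have hcw : c ≠ w := fun h => hcn (h ▸ hw)
  have hVc : ∀ v ∈ G.V, v ≠ c := fun v hv h => hcn (h ▸ hv)
  have hh1 : 1 ≤ G.h u w := Nat.one_le_iff_ne_zero.2 hh
  unfold hc
  show ∑ v ∈ insert c G.V, ∑ z ∈ insert c G.V, (G.gate u w c).h v z ≤ _
  rw [sum_insert hcn]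
  have e1 : ∑ z ∈ insert c G.V, (G.gate u w c).h c z = 1 := by
    rw [sum_congr rfl fun z _ => gate_hc z, sum_ite_eq', if_pos (mem_insert_of_mem hw)]
  have e2 : ∀ v ∈ G.V, ∑ z ∈ insert c G.V, (G.gate u w c).h v z
      = (if v = w then 1 else 0) + ∑ z ∈ G.V, (G.h v z - 1 * dl u w v z) := by
    intro v hv
    rw [sum_insert hcn, gate_hc' hcw]
    congr 1
    exact sum_congr rfl fun z hz => gate_h hcu.symm (hVc v hv) (hVc z hz)
  rw [e1, sum_congr rfl e2, sum_add_distrib, sum_ite_eq', if_pos hw]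
  have e3 : ∑ v ∈ G.V, ∑ z ∈ G.V, (G.h v z - 1 * dl u w v z)
      + ∑ v ∈ G.V, ∑ z ∈ G.V, dl u w v z = ∑ v ∈ G.V, ∑ z ∈ G.V, G.h v z := by
    rw [← sum_add_distrib]
    refine sum_congr rfl fun v _ => ?_
    rw [← sum_add_distrib]
    refine sum_congr rfl fun z _ => ?_
    have := dl_le_h wf hh1 v z
    omega
  have e4 : 2 ≤ ∑ v ∈ G.V, ∑ z ∈ G.V, dl u w v z := by
    have h1 : ∑ z ∈ G.V, dl u w u z + ∑ z ∈ G.V, dl u w w z
        ≤ ∑ v ∈ G.V, ∑ z ∈ G.V, dl u w v z := by
      rw [← add_sum_erase G.V (fun v => ∑ z ∈ G.V, dl u w v z) hu]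
      exact Nat.add_le_add_left (single_le_sum (f := fun v => ∑ z ∈ G.V, dl u w v z)
        (fun _ _ => Nat.zero_le _) (mem_erase.2 ⟨huw.symm, hw⟩)) _
    have h2 : 1 ≤ ∑ z ∈ G.V, dl u w u z := by
      have : dl u w u w ≤ ∑ z ∈ G.V, dl u w u z :=
        single_le_sum (f := fun z => dl u w u z) (fun _ _ => Nat.zero_le _) hw
      rw [dl_pq] at this
      exact this
    have h3 : 1 ≤ ∑ z ∈ G.V, dl u w w z := by
      have : dl u w w u ≤ ∑ z ∈ G.V, dl u w w z :=
        single_le_sum (f := fun z => dl u w w z) (fun _ _ => Nat.zero_le _) hu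
      rw [dl_symm, dl_pq] at this
      exact this
    omega
  omega

/-- The gate structure is not colourable. -/
theorem MinCE.gate_nc (M : MinCE a b G) (P : Par a b) (hu : u ∈ G.V) (hw : w ∈ G.V)
    (hcn : c ∉ G.V) (hh : G.h u w ≠ 0) {S : Finset ℕ} (hS : S ⊆ G.V) (hr : rho a b G S ≤ a)
    (huS : u ∈ S) (hwS : w ∉ S) : ¬ Colorable (G.gate u w c) := by
  classical
  rintro ⟨x, B, hcol⟩
  have huw : u ≠ w := fun h => hh (by rw [h]; exact M.wf.hirr w)
  have hcu : c ≠ u := fun h => hcn (h ▸ hu)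
  have hcw : c ≠ w := fun h => hcn (h ▸ hw)
  have hVc : ∀ v ∈ G.V, v ≠ c := fun v hv h => hcn (h ▸ hv)
  have hcV : c ∈ (G.gate u w c).V := mem_insert_self c G.V
  have hsub : ∀ v ∈ G.V, v ∈ (G.gate u w c).V := fun v hv => mem_insert_of_mem hv
  -- the load of `c` vanishes
  have hlc : load (G.gate u w c) x B (G.gate u w c).V c = 0 := by
    have h1 := hcol.cap c hcV
    have h2 : thr (G.gate u w c) (x c) c = 1 := by
      unfold thr
      show (if (x c) = true then (if c = c then 1 else G.t c)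
        else (if c = c then 1 else G.s c)) = 1
      rw [if_pos rfl, if_pos rfl]
      split_ifs <;> rfl
    omega
  unfold load at hlc
  rw [sum_eq_zero_iff] at hlc
  have hxcw : x c ≠ x w := by
    intro h
    have h1 := hlc w (hsub w hw)
    rw [if_pos h, gate_hc, if_pos rfl] at h1
    omega
  have hBcu : B c u = 0 := by
    have h1 := hlc u (hsub u hu)
    omega
  have hthr : ∀ v ∈ G.V, thr (G.gate u w c) (x v) v = thr G (x v) v := by
    intro v hv
    unfold thr
    rw [gate_t (hVc v hv), gate_s (hVc v hv)]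
  have hheq : ∀ p z, p ≠ c → z ≠ c → p ≠ w → z ≠ w → (G.gate u w c).h p z = G.h p z := by
    intro p z h1 h2 h3 h4
    rw [gate_h hcu.symm h1 h2, dl_zero_right h3 h4, Nat.mul_zero, Nat.sub_zero]
  have hcolS : IsCol (G.res S) x B := by
    refine IsCol.mono (G := G.gate u w c) (G' := G.res S) (fun v hv => hsub v (hS hv)) ?_ ?_ ?_ ?_
      hcol
    · intro v hv z hz
      exact (hheq v z (hVc v (hS hv)) (hVc z (hS hz)) (fun h : v = w => hwS (h ▸ hv))
        (fun h : z = w => hwS (h ▸ hz))).ge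
    · intro v hv z hz
      exact (gate_m (G := G) (u := u) (w := w) (hVc v (hS hv)) (hVc z (hS hz))).ge
    · intro v hv
      exact (gate_t (G := G) (u := u) (w := w) (hVc v (hS hv))).le
    · intro v hv
      exact (gate_s (G := G) (u := u) (w := w) (hVc v (hS hv))).le
  have hbd : u ∈ bd G S := mem_bd.2 ⟨huS, w, mem_sdiff.2 ⟨hw, hwS⟩, by omega⟩
  have hsat := M.sat P hS hr hcolS hbd
  have hcap := hcol.cap u (hsub u hu)
  rw [hthr u hu] at hcap
  have hxuc : x u = x c := by
    by_contra hne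
    have h1 := hcol.cov u (hsub u hu) c hcV hne
    rw [gate_mc' hcu, if_pos rfl] at h1
    have h2 := (satout (G := G) huS hsat (K := G.gate u w c) (fun v hv => hsub v (hS hv))
      (fun z hz => (hheq u z hcu.symm (hVc z (hS hz)) huw
        (fun h : z = w => hwS (h ▸ hz))).ge) hcap c
      (mem_sdiff.2 ⟨hcV, fun h => hcn (hS h)⟩)).2
    omega
  refine M.nc ⟨x, B, ?_, ?_⟩
  · intro v hv z hz hvz
    have := hcol.cov v (hsub v hv) z (hsub z hz) hvz
    rw [gate_m (hVc v hv) (hVc z hz)] at this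
    exact this
  · intro v hv
    have hcap := hcol.cap v (hsub v hv)
    rw [hthr v hv] at hcap
    refine le_trans (Nat.add_le_add_right ?_ 1) hcap
    unfold load
    refine le_trans ?_ (sum_le_sum_of_subset (f := fun z => (if x v = x z
      then (G.gate u w c).h v z else 0) + B v z) (subset_insert c G.V))
    refine sum_le_sum fun z hz => Nat.add_le_add_right ?_ _
    split_ifs with hxx
    · rw [gate_h hcu.symm (hVc v hv) (hVc z hz), dl_zero, Nat.mul_zero, Nat.sub_zero]
      rintro (⟨h3, h4⟩ | ⟨h3, h4⟩)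
      · rw [h3, h4, hxuc] at hxx
        exact hxcw hxx
      · rw [h3, h4, hxuc] at hxx
        exact hxcw hxx.symm
    · exact le_rfl

/-- Sets on the side of `w` have large potential. -/
theorem MinCE.zside (M : MinCE a b G) (P : Par a b) (hu : u ∈ G.V) (hw : w ∈ G.V)
    (hcn : c ∉ G.V) (hh : G.h u w ≠ 0) {S : Finset ℕ} (hS : S ⊆ G.V) (hr : rho a b G S ≤ a)
    (huS : u ∈ S) (hwS : w ∉ S) {Z : Finset ℕ} (hZ : Z ⊆ G.V) (hwZ : w ∈ Z) (huZ : u ∉ Z) :
    (b : ℤ) * (a - 1) + rho a b G G.V ≤ rho a b G Z := by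
  classical
  have hab := P.hab
  have hb3 := P.hb3
  have ha0 : (0 : ℤ) ≤ a := Int.natCast_nonneg _
  have huw : u ≠ w := fun h => hh (by rw [h]; exact M.wf.hirr w)
  have hcu : c ≠ u := fun h => hcn (h ▸ hu)
  have hcw : c ≠ w := fun h => hcn (h ▸ hw)
  have hVc : ∀ v ∈ G.V, v ≠ c := fun v hv h => hcn (h ▸ hv)
  have hnc := M.gate_nc P hu hw hcn hh hS hr huS hwS
  have wf' : (G.gate u w c).WF a b := gate_wf M.wf (by have := P.ab; have := P.b3; omega)
    (by have := P.b3; omega) hu hw hcn hh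
  obtain ⟨Z0, hZ0, hmin⟩ := exists_min_image (G.V.powerset.filter (fun Z => w ∈ Z ∧ u ∉ Z))
    (fun Z => rho a b G Z) ⟨Z, mem_filter.2 ⟨mem_powerset.2 hZ, hwZ, huZ⟩⟩
  obtain ⟨hZ0V, hwZ0, huZ0⟩ := mem_filter.1 hZ0
  rw [mem_powerset] at hZ0V
  have hmin' : ∀ X ⊆ G.V, w ∈ X → u ∉ X → rho a b G Z0 ≤ rho a b G X :=
    fun X h1 h2 h3 => hmin X (mem_filter.2 ⟨mem_powerset.2 h1, h2, h3⟩)
  refine le_trans ?_ (hmin' Z hZ hwZ huZ)
  by_contra hcon
  push Not at hcon
  have hZ0ne : Z0 ≠ G.V := fun h => huZ0 (h ▸ hu)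
  have hcZ0 : c ∉ Z0 := fun h => hcn (hZ0V h)
  have hZc : ∀ v ∈ Z0, v ≠ c := fun v hv h => hcZ0 (h ▸ hv)
  obtain ⟨K, hK⟩ : ∃ K, K = G.gate u w c := ⟨_, rfl⟩
  rw [← hK] at hnc wf'
  have hKV : K.V = insert c G.V := by rw [hK]; rfl
  have hcK : c ∈ K.V := by rw [hKV]; exact mem_insert_self c G.V
  have hZ0K : Z0 ⊆ K.V := by rw [hKV]; exact hZ0V.trans (subset_insert c G.V)
  have hrK : ∀ X ⊆ G.V, rho a b K X = rho a b G X
      + if u ∈ X ∧ w ∈ X then (b : ℤ) * (a - 1) else 0 := fun X hX => by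
    rw [hK]
    exact gate_rho M.wf huw hu hcn hh hX
  have hrKc : ∀ X, c ∉ X → rho a b K (insert c X) = a + rho a b K X
      - (if w ∈ X then (b : ℤ) * (a - 1) else 0) - (if u ∈ X then (a : ℤ) else 0) := fun X hX => by
    rw [hK] at wf' ⊢
    exact gate_rho_c wf' huw hX
  -- every colouring of `Z0` has `w` in the first part
  have key : ∀ x A, IsCol (G.res Z0) x A → x w = true ∧
      rho a b G G.V ≤ rho a b G Z0 + a - (b : ℤ) * (a - 1) - b := by
    intro x A hcol
    have hcolK : IsCol (K.res Z0) x A := by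
      refine IsCol.mono (G := G.res Z0) (G' := K.res Z0) (fun _ h => h) ?_ ?_ ?_ ?_ hcol
      · intro v hv z hz
        show K.h v z ≤ G.h v z
        rw [hK, gate_h hcu.symm (hZc v hv) (hZc z hz)]
        exact Nat.sub_le _ _
      · intro v hv z hz
        show K.m v z ≤ G.m v z
        rw [hK]
        exact (gate_m (hZc v hv) (hZc z hz)).le
      · intro v hv
        show G.t v ≤ K.t v
        rw [hK]
        exact (gate_t (hZc v hv)).ge
      · intro v hv
        show G.s v ≤ K.s v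
        rw [hK]
        exact (gate_s (hZc v hv)).ge
    have hcR : {c} ⊆ K.V \ Z0 := singleton_subset_iff.2 (mem_sdiff.2 ⟨hcK, hcZ0⟩)
    have hcolc : IsCol ((K.ctr Z0 x).res {c}) (fun _ => !(x w)) (fun _ _ => 0) := by
      refine ⟨fun _ _ _ _ hne => absurd rfl hne, ?_⟩
      intro v hv
      have hv' : v = c := mem_singleton.1 hv
      subst hv'
      have e1 : load ((K.ctr Z0 x).res {v}) (fun _ => !(x w)) (fun _ _ => 0)
          ((K.ctr Z0 x).res {v}).V v = 0 := by
        unfold load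
        show ∑ z ∈ {v}, _ = 0
        rw [sum_singleton]
        show (if (!(x w)) = !(x w) then K.h v v else 0) + 0 = 0
        rw [wf'.hirr]
        simp
      rw [e1]
      have hhv : ∀ z ∈ Z0, K.h z v = if z = w then 1 else 0 := fun z _ => by
        rw [hK]
        exact gate_hc' hcw z
      have hmv : ∀ z ∈ Z0, K.m z v = 0 := fun z hz => by
        rw [hK, gate_mc' hcu, if_neg (fun h : z = u => huZ0 (h ▸ hz))]
      have htv : K.t v = 1 := by rw [hK]; exact if_pos rfl
      have hsv : K.s v = 1 := by rw [hK]; exact if_pos rfl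
      cases hxw : x w
      · show 0 + 1 ≤ (K.ctr Z0 x).t v
        have e2 : (∑ z ∈ Z0, if x z then K.h z v else 0) = 0 := by
          refine sum_eq_zero fun z hz => ?_
          rw [hhv z hz]
          by_cases hzw : z = w
          · rw [hzw, hxw]
            simp
          · rw [if_neg hzw]
            simp
        have e3 : (∑ z ∈ Z0, if x z then 0 else K.m z v) = 0 := by
          refine sum_eq_zero fun z hz => ?_
          rw [hmv z hz]
          simp
        rw [ctr_t_pos e2, e3, htv]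
      · show 0 + 1 ≤ (K.ctr Z0 x).s v
        have e2 : (∑ z ∈ Z0, if x z then 0 else K.h z v) = 0 := by
          refine sum_eq_zero fun z hz => ?_
          rw [hhv z hz]
          by_cases hzw : z = w
          · rw [hzw, hxw]
            simp
          · rw [if_neg hzw]
            simp
        have e3 : (∑ z ∈ Z0, if x z then K.m z v else 0) = 0 := by
          refine sum_eq_zero fun z hz => ?_
          rw [hmv z hz]
          simp
        rw [ctr_s_pos e2, e3, hsv]
    obtain ⟨x', C', hcn', hx'Z, hx'c⟩ := combR wf' hZ0K hcR hcolK hcolc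
    have hx'c' : x' c = !(x w) := hx'c c (mem_singleton_self c)
    have hT : Z0 ∪ {c} ⊆ K.V := union_subset hZ0K (singleton_subset_iff.2 hcK)
    have hTe : Z0 ∪ {c} = insert c Z0 := by
      rw [union_comm]
      rfl
    have hncc : ¬ Colorable (K.ctr (Z0 ∪ {c}) x') := by
      rintro ⟨y, D, hy⟩
      obtain ⟨x2, A2, h, _⟩ := comb wf' hT hcn' hy
      exact hnc ⟨x2, A2, h⟩
    have hVs : (K.ctr (Z0 ∪ {c}) x').V = K.V \ (Z0 ∪ {c}) := rfl
    have hVsub : ∀ v ∈ K.V \ (Z0 ∪ {c}), v ∈ G.V ∧ v ∉ Z0 := by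
      intro v hv
      obtain ⟨h1, h2⟩ := mem_sdiff.1 hv
      rw [hKV] at h1
      rcases mem_insert.1 h1 with h | h
      · exact absurd (mem_union_right _ (mem_singleton.2 h)) h2
      · exact ⟨h, fun h3 => h2 (mem_union_left _ h3)⟩
    have hless : Less (K.ctr (Z0 ∪ {c}) x') G := by
      left
      have h1 : hc (K.ctr (Z0 ∪ {c}) x') ≤ ∑ v ∈ G.V \ {w}, ∑ z ∈ G.V, G.h v z := by
        unfold hc
        rw [hVs]
        have h2 : K.V \ (Z0 ∪ {c}) ⊆ G.V \ {w} := fun v hv => mem_sdiff.2 ⟨(hVsub v hv).1,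
          fun h => (hVsub v hv).2 (mem_singleton.1 h ▸ hwZ0)⟩
        refine (sum_le_sum (f := fun v => ∑ z ∈ K.V \ (Z0 ∪ {c}), (K.ctr (Z0 ∪ {c}) x').h v z)
          (g := fun v => ∑ z ∈ G.V, G.h v z) ?_).trans (sum_le_sum_of_subset h2)
        intro v hv
        refine (sum_le_sum (g := fun z => G.h v z) ?_).trans
          (sum_le_sum_of_subset (h2.trans sdiff_subset))
        intro z hz
        show K.h v z ≤ G.h v z
        rw [hK, gate_h hcu.symm (hVc v (hVsub v hv).1) (hVc z (hVsub z hz).1)]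
        exact Nat.sub_le _ _
      have h3 : hc G = (∑ z ∈ G.V, G.h w z) + ∑ v ∈ G.V \ {w}, ∑ z ∈ G.V, G.h v z := by
        unfold hc
        rw [← erase_eq, add_sum_erase G.V (fun v => ∑ z ∈ G.V, G.h v z) hw]
      have h4 : 1 ≤ ∑ z ∈ G.V, G.h w z := by
        have : G.h w u ≤ ∑ z ∈ G.V, G.h w z :=
          single_le_sum (f := fun z => G.h w z) (fun _ _ => Nat.zero_le _) hu
        rw [M.wf.hsymm] at this
        omega
      omega
    obtain ⟨X, hX, hXne, hXr⟩ := M.ihc (ctr_wf wf' (Z0 ∪ {c}) x') hless hncc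
    have hXs : X ⊆ K.V \ (Z0 ∪ {c}) := hX
    have hXG : X ⊆ G.V := fun v hv => (hVsub v (hXs hv)).1
    have hXZ : Disjoint Z0 X := disjoint_left.2 fun v h1 h2 => (hVsub v (hXs h2)).2 h1
    have hcX : c ∉ X := fun h => (mem_sdiff.1 (hXs h)).2 (mem_union_right _ (mem_singleton_self c))
    have k1 := ctr_rho wf' hT x' (S := X) (hXs.trans sdiff_subset)
    have hd : Disjoint (Z0 ∪ {c}) X := disjoint_left.2 fun v h1 h2 =>
      (mem_sdiff.1 (hXs h2)).2 h1
    have k2 := rho_gn (a := a) (b := b) wf' x' hd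
    unfold gn at k2
    have hU : Z0 ∪ {c} ∪ X = insert c (Z0 ∪ X) := by
      ext v
      simp only [mem_union, mem_singleton, mem_insert]
      tauto
    have hcU : c ∉ Z0 ∪ X := fun h => by
      rcases mem_union.1 h with h | h
      · exact hcZ0 h
      · exact hcX h
    have hUG : Z0 ∪ X ⊆ G.V := union_subset hZ0V hXG
    have ea : rho a b K (insert c Z0) = a + rho a b G Z0 - (b : ℤ) * (a - 1) := by
      rw [hrKc _ hcZ0, hrK _ hZ0V, if_neg (fun h : u ∈ Z0 ∧ w ∈ Z0 => huZ0 h.1), if_pos hwZ0,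
        if_neg huZ0]
      ring
    rw [hU, hTe, ea] at k2
    rw [hTe] at k1
    have k3 : (0 : ℤ) ≤ (n1 K x' (insert c Z0) X : ℤ) := Int.natCast_nonneg _
    have k4 : (0 : ℤ) ≤ ((a : ℤ) - b) * (n1 K x' (insert c Z0) X : ℤ) :=
      mul_nonneg (by linarith) k3
    rw [hTe] at hXr
    by_cases huX : u ∈ X
    · have eb : rho a b K (insert c (Z0 ∪ X)) = rho a b G (Z0 ∪ X) := by
        rw [hrKc _ hcU, hrK _ hUG, if_pos ⟨mem_union_right _ huX, mem_union_left _ hwZ0⟩,
          if_pos (mem_union_left _ hwZ0), if_pos (mem_union_right _ huX)]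
        ring
      rw [eb] at k2
      have k5 : Z0 ∪ X = G.V := by
        by_contra hne
        have := M.p1 P hUG ⟨w, mem_union_left _ hwZ0⟩ hne
        linarith
      rw [k5] at k2
      refine ⟨?_, by linarith⟩
      by_contra hxw
      have hxw' : x w = false := by simpa using hxw
      have h1 : x' c = true := by
        rw [hx'c', hxw']
        rfl
      have h2 := n1_ge (G := K) (T := insert c Z0) (S := X) (mem_insert_self c Z0) huX h1
      have h3 : K.m c u = 1 := by rw [hK, gate_mc, if_pos rfl]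
      have h4 : (1 : ℤ) ≤ (n1 K x' (insert c Z0) X : ℤ) := by
        have : 1 ≤ n1 K x' (insert c Z0) X := by omega
        exact_mod_cast this
      nlinarith
    · exfalso
      have huU : u ∉ Z0 ∪ X := fun h => by
        rcases mem_union.1 h with h | h
        · exact huZ0 h
        · exact huX h
      have eb : rho a b K (insert c (Z0 ∪ X)) = a + rho a b G (Z0 ∪ X) - (b : ℤ) * (a - 1) := by
        rw [hrKc _ hcU, hrK _ hUG, if_neg (fun h : u ∈ Z0 ∪ X ∧ w ∈ Z0 ∪ X => huU h.1),
          if_pos (mem_union_left _ hwZ0), if_neg huU]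
        ring
      rw [eb] at k2
      have := hmin' (Z0 ∪ X) hUG (mem_union_left _ hwZ0) huU
      linarith
  obtain ⟨x, A, hcol⟩ := M.colres hZ0V hZ0ne
  have h1 := (key x A hcol).2
  -- forbid the first part at `w`
  let t' : ℕ → ℕ := fun v => if v = w then 0 else G.t v
  have ht' : ∀ v, t' v ≤ G.t v := by
    intro v
    show (if v = w then 0 else G.t v) ≤ _
    split_ifs
    · exact Nat.zero_le _
    · exact le_rfl
  have hn : ¬ Colorable (G.sub Z0 t' G.s) := by
    rintro ⟨y, D, hy⟩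
    have hy' : IsCol (G.res Z0) y D :=
      IsCol.mono (G := G.sub Z0 t' G.s) (G' := G.res Z0) (fun _ h => h)
        (fun _ _ _ _ => le_rfl) (fun _ _ _ _ => le_rfl) (fun v _ => ht' v)
        (fun _ _ => le_rfl) hy
    have h2 := (key y D hy').1
    have h3 := hy.cap w hwZ0
    rw [h2, thr_true] at h3
    have h4 : (G.sub Z0 t' G.s).t w = 0 := if_pos rfl
    omega
  obtain ⟨X, hX, hXne, hXr⟩ := M.sub hZ0V hZ0ne ht' (fun _ => le_rfl) hn
  rw [sum_same] at hXr
  have h2 : ∑ v ∈ X, (a : ℤ) * ((G.t v : ℤ) - t' v) = if w ∈ X then (a : ℤ) * G.t w else 0 := by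
    have e : ∀ v ∈ X, (a : ℤ) * ((G.t v : ℤ) - t' v) = if v = w then (a : ℤ) * G.t w else 0 := by
      intro v _
      show (a : ℤ) * ((G.t v : ℤ) - ((if v = w then 0 else G.t v : ℕ) : ℤ)) = _
      by_cases hvw : v = w
      · rw [if_pos hvw, if_pos hvw, hvw]
        simp
      · rw [if_neg hvw, if_neg hvw]
        ring
    rw [sum_congr rfl e, sum_ite_eq']
  rw [h2] at hXr
  have h3 := M.pos X (hX.trans hZ0V) hXne
  by_cases hwX : w ∈ X
  · rw [if_pos hwX] at hXr
    have h4 := hmin' X (hX.trans hZ0V) hwX (fun h => huZ0 (hX h))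
    have h5 : (G.t w : ℤ) + 1 ≤ b := by
      exact_mod_cast M.wf.tb w hw u hu (by rw [M.wf.hsymm]; exact hh)
    have h6 : (a : ℤ) * G.t w ≤ a * ((b : ℤ) - 1) := by nlinarith
    have h7 := M.rhoV
    nlinarith
  · rw [if_neg hwX] at hXr
    linarith

/-- The gate structure satisfies the requirements of the core. -/
theorem MinCE.precore (M : MinCE a b G) (P : Par a b) (hH : ∃ u ∈ G.V, ∃ w ∈ G.V, G.h u w ≠ 0) :
    ∃ K c u w, PreCore a b K ∅ c u w := by
  classical
  obtain ⟨w, hw, ⟨u, hu, hh⟩, hin⟩ := M.sink P hH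
  obtain ⟨S, hS, hr, huS, hwS⟩ := hin u hu hh
  obtain ⟨c, hcn⟩ := Infinite.exists_notMem_finset G.V
  have hab := P.hab
  have hb3 := P.hb3
  have ha0 : (0 : ℤ) ≤ a := Int.natCast_nonneg _
  have huw : u ≠ w := fun h => hh (by rw [h]; exact M.wf.hirr w)
  have hcu : c ≠ u := fun h => hcn (h ▸ hu)
  have hcw : c ≠ w := fun h => hcn (h ▸ hw)
  have hVc : ∀ v ∈ G.V, v ≠ c := fun v hv h => hcn (h ▸ hv)
  have hone : ∀ v ∈ G.V, v ≠ u → G.h v w = 0 := by
    intro v hv hvu
    by_contra hne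
    obtain ⟨S', hS', hr', hvS', hwS'⟩ := hin v hv hne
    exact hvu (M.onein P hv hu hw hne hh hS' hS hr' hr hvS' huS hwS' hwS)
  have hh1 : G.h u w = 1 := by
    have := M.wf.hle u w
    omega
  have wf' : (G.gate u w c).WF a b := gate_wf M.wf (by have := P.ab; have := P.b3; omega)
    (by have := P.b3; omega) hu hw hcn hh
  have hrK : ∀ X ⊆ G.V, rho a b (G.gate u w c) X = rho a b G X
      + if u ∈ X ∧ w ∈ X then (b : ℤ) * (a - 1) else 0 := fun X hX =>
    gate_rho M.wf huw hu hcn hh hX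
  have hrKc : ∀ X, c ∉ X → rho a b (G.gate u w c) (insert c X) = a + rho a b (G.gate u w c) X
      - (if w ∈ X then (b : ℤ) * (a - 1) else 0) - (if u ∈ X then (a : ℤ) else 0) := fun X hX =>
    gate_rho_c wf' huw hX
  have hrV : rho a b (G.gate u w c) (G.gate u w c).V = rho a b G G.V := by
    show rho a b (G.gate u w c) (insert c G.V) = _
    rw [hrKc _ hcn, hrK _ (Subset.refl _), if_pos ⟨hu, hw⟩, if_pos hw, if_pos hu]
    ring
  refine ⟨G.gate u w c, c, u, w, wf', M.gate_nc P hu hw hcn hh hS hr huS hwS, ?_, P.ab,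
    (by have := P.b3; omega), ?_, ?_, mem_insert_self c G.V, mem_insert_of_mem hu,
    mem_insert_of_mem hw, hcu.symm, hcw, huw, empty_subset _, notMem_empty _, notMem_empty _,
    notMem_empty _, if_pos rfl, if_pos rfl, ?_, ?_, ?_, ?_, ?_, ?_, ?_, ?_, ?_, ?_⟩
  · intro G' h1 h2 h3
    exact M.ih G' h1 h2 (Or.inl (lt_of_lt_of_le h3 (gate_hcle M.wf huw hu hw hcn hh)))
  · rw [hrV]
    exact M.rhoV
  · intro X hX hcX hXne
    rw [hrV]
    obtain ⟨Z, hZ⟩ : ∃ Z, Z = X.erase c := ⟨_, rfl⟩
    have hXZ : X = insert c Z := by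
      rw [hZ, insert_erase hcX]
    have hcZ : c ∉ Z := by
      rw [hZ]
      exact notMem_erase c X
    have hZG : Z ⊆ G.V := by
      intro v hv
      have h1 : v ∈ X := by rw [hXZ]; exact mem_insert_of_mem hv
      rcases mem_insert.1 (hX h1) with h | h
      · exact absurd (h ▸ hv) hcZ
      · exact h
    have hZne : Z ≠ G.V := by
      intro h
      apply hXne
      rw [hXZ, h]
      rfl
    rw [hXZ, hrKc _ hcZ, hrK _ hZG]
    by_cases hwZ : w ∈ Z
    · rw [if_pos hwZ]
      by_cases huZ : u ∈ Z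
      · rw [if_pos huZ, if_pos ⟨huZ, hwZ⟩]
        have := M.p1 P hZG ⟨w, hwZ⟩ hZne
        linarith
      · rw [if_neg huZ, if_neg (fun h => huZ h.1)]
        have := M.zside P hu hw hcn hh hS hr huS hwS hZG hwZ huZ
        linarith
    · rw [if_neg hwZ, if_neg (fun h => hwZ h.2)]
      by_cases huZ : u ∈ Z
      · rw [if_pos huZ]
        have := M.p1 P hZG ⟨u, huZ⟩ hZne
        linarith
      · rw [if_neg huZ]
        have h0 := M.rhoV0 P hu hw hh
        by_cases hZe : Z.Nonempty
        · have := M.p1 P hZG hZe hZne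
          linarith
        · rw [not_nonempty_iff_eq_empty] at hZe
          rw [hZe, rho_empty]
          linarith
  · rw [gate_hc, if_pos rfl]
  · intro v hv hvw
    rw [gate_hc, if_neg hvw]
  · intro v hv
    exact gate_mc v
  · intro v hv hvc
    rcases mem_insert.1 hv with h | h
    · exact absurd h hvc
    · rw [wf'.hsymm, gate_h hcu.symm hvc hcw.symm]
      by_cases hvu : v = u
      · rw [hvu, dl_pq, hh1]
      · rw [hone v h hvu]
        exact Nat.zero_sub _
  all_goals
    intro p hp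
    exact absurd hp (notMem_empty p)

end

end Pool.Agent.Lib.MP_4006b4_co_b
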