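import Mathlib
import Pool.Agent.Lib.MP_4006b4_co_b.Gate

/-!
# Subdividing the links at the sink, and the main theorem
-/

open Finset

namespace Pool.Agent.Lib.MP_4006b4_co_b

/-- One link between `v` and `w` is subdivided by the net `p`. -/
def Str.subd (G : Str) (v w p : ℕ) : Str where
  V := insert p G.V
  h := fun y z => if y = p ∨ z = p then 0 else G.h y z
  m := fun y z => if y = p then (if z = v ∨ z = w then 1 else 0)
    else if z = p then (if y = v ∨ y = w then 1 else 0) else G.m y z - 1 * dl v w y z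
  t := fun y => if y = p then 1 else G.t y
  s := fun y => if y = p then 1 else G.s y

section

variable {a b : ℕ} {G : Str} {v w p : ℕ}

theorem subd_h {y z : ℕ} (hy : y ≠ p) (hz : z ≠ p) : (G.subd v w p).h y z = G.h y z :=
  if_neg (by tauto)

theorem subd_hp (z : ℕ) : (G.subd v w p).h p z = 0 := if_pos (Or.inl rfl)

theorem subd_hp' (y : ℕ) : (G.subd v w p).h y p = 0 := if_pos (Or.inr rfl)

theorem subd_m {y z : ℕ} (hy : y ≠ p) (hz : z ≠ p) :
    (G.subd v w p).m y z = G.m y z - 1 * dl v w y z := by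
  show (if y = p then (if z = v ∨ z = w then 1 else 0)
    else if z = p then (if y = v ∨ y = w then 1 else 0) else G.m y z - 1 * dl v w y z) = _
  rw [if_neg hy, if_neg hz]

theorem subd_mp (z : ℕ) : (G.subd v w p).m p z = if z = v ∨ z = w then 1 else 0 := if_pos rfl

theorem subd_mp' (hpv : p ≠ v) (hpw : p ≠ w) (y : ℕ) :
    (G.subd v w p).m y p = if y = v ∨ y = w then 1 else 0 := by
  show (if y = p then (if p = v ∨ p = w then 1 else 0)
    else if p = p then (if y = v ∨ y = w then 1 else 0) else G.m y p - 1 * dl v w y p) = _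
  by_cases hy : y = p
  · rw [if_pos hy, hy]
  · rw [if_neg hy, if_pos rfl]

theorem subd_t {y : ℕ} (hy : y ≠ p) : (G.subd v w p).t y = G.t y := if_neg hy

theorem subd_s {y : ℕ} (hy : y ≠ p) : (G.subd v w p).s y = G.s y := if_neg hy

theorem subd_wf (wf : G.WF a b) (hv : v ∈ G.V) (hw : w ∈ G.V) (hp : p ∉ G.V) :
    (G.subd v w p).WF a b := by
  have hpv : p ≠ v := fun h => hp (h ▸ hv)
  have hpw : p ≠ w := fun h => hp (h ▸ hw)
  have hmem : ∀ y ∈ (G.subd v w p).V, y ≠ p → y ∈ G.V := by
    intro y hy hne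
    rcases mem_insert.1 hy with h | h
    · exact absurd h hne
    · exact h
  refine ⟨?_, ?_, ?_, ?_, ?_, ?_, ?_⟩
  · intro y z
    by_cases hy : y = p
    · rw [hy, subd_hp, subd_hp']
    · by_cases hz : z = p
      · rw [hz, subd_hp, subd_hp']
      · rw [subd_h hy hz, subd_h hz hy, wf.hsymm]
  · intro y z
    by_cases hy : y = p
    · rw [hy, subd_mp, subd_mp' hpv hpw]
    · by_cases hz : z = p
      · rw [hz, subd_mp, subd_mp' hpv hpw]
      · rw [subd_m hy hz, subd_m hz hy, wf.msymm, dl_symm]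
  · intro y
    by_cases hy : y = p
    · rw [hy, subd_hp]
    · rw [subd_h hy hy, wf.hirr]
  · intro y
    by_cases hy : y = p
    · rw [hy, subd_mp, if_neg (by tauto)]
    · rw [subd_m hy hy, wf.mirr]
      exact Nat.zero_sub _
  · intro y z
    by_cases hy : y = p
    · rw [hy, subd_hp]
      omega
    · by_cases hz : z = p
      · rw [hz, subd_hp']
        omega
      · rw [subd_h hy hz]
        exact wf.hle y z
  · intro y hy z hz h
    by_cases hyp : y = p
    · rw [hyp, subd_hp] at h
      exact absurd rfl h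
    · by_cases hzp : z = p
      · rw [hzp, subd_hp'] at h
        exact absurd rfl h
      · rw [subd_h hyp hzp] at h
        rw [subd_t hyp]
        exact wf.tb y (hmem y hy hyp) z (hmem z hz hzp) h
  · intro y hy z hz h
    by_cases hyp : y = p
    · rw [hyp, subd_hp] at h
      exact absurd rfl h
    · by_cases hzp : z = p
      · rw [hzp, subd_hp'] at h
        exact absurd rfl h
      · rw [subd_h hyp hzp] at h
        rw [subd_s hyp]
        exact wf.sb y (hmem y hy hyp) z (hmem z hz hzp) h

theorem subd_rho (wf : G.WF a b) (hvw : v ≠ w) (hp : p ∉ G.V) (hm : 1 ≤ G.m v w)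
    {Z : Finset ℕ} (hZ : Z ⊆ G.V) :
    rho a b (G.subd v w p) Z = rho a b G Z + if v ∈ Z ∧ w ∈ Z then (a : ℤ) else 0 := by
  have hZp : ∀ y ∈ Z, y ≠ p := fun y hy h => hp (h ▸ hZ hy)
  rw [rho_mod (G := G) hvw Z 0 1 (fun _ => 0)]
  · rw [sum_const_zero]
    split_ifs <;> ring
  · intro y hy z hz
    rw [subd_h (hZp y hy) (hZp z hz)]
    ring
  · intro y hy z hz
    rw [subd_m (hZp y hy) (hZp z hz), Nat.cast_sub (dl_le_m wf hm y z)]
    push_cast
    ring
  · intro y hy
    unfold rv
    rw [subd_t (hZp y hy), subd_s (hZp y hy)]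
    ring

theorem subd_rho_p (wf' : (G.subd v w p).WF a b) (hvw : v ≠ w) {Z : Finset ℕ} (hpZ : p ∉ Z) :
    rho a b (G.subd v w p) (insert p Z) = a + rho a b (G.subd v w p) Z
      - (if v ∈ Z then (a : ℤ) else 0) - (if w ∈ Z then (a : ℤ) else 0) := by
  classical
  rw [rho_insert wf' hpZ]
  have e1 : rv a b (G.subd v w p) p = a := by
    unfold rv
    have h1 : (G.subd v w p).t p = 1 := if_pos rfl
    have h2 : (G.subd v w p).s p = 1 := if_pos rfl
    rw [h1, h2]
    push_cast
    ring
  have e2 : ∑ z ∈ Z, wt a b (G.subd v w p) p z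
      = (if v ∈ Z then (a : ℤ) else 0) + (if w ∈ Z then (a : ℤ) else 0) := by
    have e3 : ∀ z ∈ Z, wt a b (G.subd v w p) p z
        = (if z = v then (a : ℤ) else 0) + (if z = w then (a : ℤ) else 0) := by
      intro z _
      unfold wt
      rw [subd_hp, subd_mp]
      by_cases h1 : z = v
      · rw [if_pos (Or.inl h1), if_pos h1, if_neg (fun h => hvw (h1.symm.trans h))]
        push_cast
        ring
      · by_cases h2 : z = w
        · rw [if_pos (Or.inr h2), if_neg h1, if_pos h2]
          push_cast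
          ring
        · rw [if_neg (by tauto), if_neg h1, if_neg h2]
          push_cast
          ring
    rw [sum_congr rfl e3, sum_add_distrib, sum_ite_eq', sum_ite_eq']
  rw [e1, e2]
  ring

theorem subd_hcle (hp : p ∉ G.V) : hc (G.subd v w p) ≤ hc G := by
  classical
  unfold hc
  show ∑ y ∈ insert p G.V, ∑ z ∈ insert p G.V, (G.subd v w p).h y z ≤ _
  have hVp : ∀ y ∈ G.V, y ≠ p := fun y hy h => hp (h ▸ hy)
  rw [sum_insert hp]
  have e1 : ∑ z ∈ insert p G.V, (G.subd v w p).h p z = 0 :=
    sum_eq_zero fun z _ => subd_hp z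
  rw [e1, zero_add]
  refine sum_le_sum fun y hy => ?_
  rw [sum_insert hp, subd_hp', zero_add]
  exact sum_le_sum fun z hz => (subd_h (hVp y hy) (hVp z hz)).le

theorem subd_nc (wf : G.WF a b) (hvw : v ≠ w) (hv : v ∈ G.V) (hw : w ∈ G.V) (hp : p ∉ G.V)
    (hm : 1 ≤ G.m v w) (hnc : ¬ Colorable G) : ¬ Colorable (G.subd v w p) := by
  classical
  rintro ⟨x, B, hcol⟩
  have hpv : p ≠ v := fun h => hp (h ▸ hv)
  have hpw : p ≠ w := fun h => hp (h ▸ hw)
  have hVp : ∀ y ∈ G.V, y ≠ p := fun y hy h => hp (h ▸ hy)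
  have hpV : p ∈ (G.subd v w p).V := mem_insert_self p G.V
  have hsub : ∀ y ∈ G.V, y ∈ (G.subd v w p).V := fun y hy => mem_insert_of_mem hy
  have hlp : load (G.subd v w p) x B (G.subd v w p).V p = 0 := by
    have h1 := hcol.cap p hpV
    have h2 : thr (G.subd v w p) (x p) p = 1 := by
      unfold thr
      show (if (x p) = true then (if p = p then 1 else G.t p)
        else (if p = p then 1 else G.s p)) = 1
      rw [if_pos rfl, if_pos rfl]
      split_ifs <;> rfl
    omega
  unfold load at hlp
  rw [sum_eq_zero_iff] at hlp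
  have hB0 : ∀ z ∈ G.V, B p z = 0 := by
    intro z hz
    have := hlp z (hsub z hz)
    omega
  -- new charges
  let A : ℕ → ℕ → ℕ := fun y z => B y z + if (y = v ∧ z = w) ∨ (y = w ∧ z = v) then B y p else 0
  refine hnc ⟨x, A, ?_, ?_⟩
  · intro y hy z hz hyz
    have h1 := hcol.cov y (hsub y hy) z (hsub z hz) hyz
    rw [subd_m (hVp y hy) (hVp z hz)] at h1
    show G.m y z ≤ (B y z + if (y = v ∧ z = w) ∨ (y = w ∧ z = v) then B y p else 0)
      + (B z y + if (z = v ∧ y = w) ∨ (z = w ∧ y = v) then B z p else 0)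
    by_cases hd : (y = v ∧ z = w) ∨ (y = w ∧ z = v)
    · rw [if_pos hd, if_pos (by tauto)]
      have hd1 : dl v w y z = 1 := if_pos hd
      rw [hd1] at h1
      have h2 : 1 ≤ B y p + B z p := by
        have hyp : ∀ q ∈ G.V, (q = v ∨ q = w) → x q ≠ x p → 1 ≤ B q p := by
          intro q hq hqq hne
          have h3 := hcol.cov q (hsub q hq) p hpV hne
          rw [subd_mp' hpv hpw, if_pos hqq, hB0 q hq] at h3
          omega
        by_cases h3 : x y = x p
        · have h4 : x z ≠ x p := fun h => hyz (h3.trans h.symm)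
          have := hyp z hz (by tauto) h4
          omega
        · have := hyp y hy (by tauto) h3
          omega
      omega
    · rw [if_neg hd, if_neg (by tauto)]
      have hd1 : dl v w y z = 0 := if_neg hd
      rw [hd1] at h1
      omega
  · intro y hy
    have h1 := hcol.cap y (hsub y hy)
    have h2 : thr (G.subd v w p) (x y) y = thr G (x y) y := by
      unfold thr
      rw [subd_t (hVp y hy), subd_s (hVp y hy)]
    rw [h2] at h1
    refine le_trans (Nat.add_le_add_right ?_ 1) h1
    have h3 : load (G.subd v w p) x B (G.subd v w p).V y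
        = B y p + ∑ z ∈ G.V, ((if x y = x z then G.h y z else 0) + B y z) := by
      unfold load
      show ∑ z ∈ insert p G.V, _ = _
      rw [sum_insert hp, subd_hp']
      congr 1
      · split_ifs <;> simp
      · refine sum_congr rfl fun z hz => ?_
        rw [subd_h (hVp y hy) (hVp z hz)]
    rw [h3]
    unfold load
    show ∑ z ∈ G.V, ((if x y = x z then G.h y z else 0)
      + (B y z + if (y = v ∧ z = w) ∨ (y = w ∧ z = v) then B y p else 0)) ≤ _
    have e1 : ∀ z ∈ G.V, ((if x y = x z then G.h y z else 0)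
        + (B y z + if (y = v ∧ z = w) ∨ (y = w ∧ z = v) then B y p else 0))
        = (if (y = v ∧ z = w) ∨ (y = w ∧ z = v) then B y p else 0)
          + ((if x y = x z then G.h y z else 0) + B y z) := by
      intro z _
      ring
    rw [sum_congr rfl e1, sum_add_distrib]
    refine Nat.add_le_add_right ?_ _
    by_cases hyv : y = v
    · have e2 : ∀ z ∈ G.V, (if (y = v ∧ z = w) ∨ (y = w ∧ z = v) then B y p else 0)
          = if z = w then B y p else 0 := by
        intro z _
        have : ((y = v ∧ z = w) ∨ (y = w ∧ z = v)) ↔ z = w := by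
          constructor
          · rintro (⟨_, h⟩ | ⟨h, _⟩)
            · exact h
            · exact absurd (hyv.symm.trans h) hvw
          · exact fun h => Or.inl ⟨hyv, h⟩
        simp only [this]
      rw [sum_congr rfl e2, sum_ite_eq', if_pos hw]
    · by_cases hyw : y = w
      · have e2 : ∀ z ∈ G.V, (if (y = v ∧ z = w) ∨ (y = w ∧ z = v) then B y p else 0)
            = if z = v then B y p else 0 := by
          intro z _
          have : ((y = v ∧ z = w) ∨ (y = w ∧ z = v)) ↔ z = v := by
            constructor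
            · rintro (⟨h, _⟩ | ⟨_, h⟩)
              · exact absurd h hyv
              · exact h
            · exact fun h => Or.inr ⟨hyw, h⟩
          simp only [this]
        rw [sum_congr rfl e2, sum_ite_eq', if_pos hv]
      · rw [sum_eq_zero fun z _ => if_neg (by tauto)]
        exact Nat.zero_le _

end

section

variable {a b : ℕ} {G : Str} {I : Finset ℕ} {c u w : ℕ}

theorem PreCore.step (H : PreCore a b G I c u w) {v : ℕ} (hv : v ∈ G.V) (hvI : v ∉ I)
    (hm : G.m w v ≠ 0) {p : ℕ} (hp : p ∉ G.V) :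
    PreCore a b (G.subd v w p) (insert p I) c u w := by
  classical
  have hab : (b : ℤ) + 2 ≤ a := by exact_mod_cast H.ab
  have hvw : v ≠ w := fun h => hm (by rw [h]; exact H.wf.mirr w)
  have hvc : v ≠ c := by
    intro h
    apply hm
    rw [h, H.wf.msymm, H.mc w H.wV, if_neg H.huw.symm]
  have hm1 : 1 ≤ G.m v w := by
    rw [H.wf.msymm]
    exact Nat.one_le_iff_ne_zero.2 hm
  have hVp : ∀ y ∈ G.V, y ≠ p := fun y hy h => hp (h ▸ hy)
  have hIp : ∀ q ∈ I, q ≠ p := fun q hq => hVp q (H.hI hq)
  have hpv : p ≠ v := fun h => hp (h ▸ hv)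
  have hpw : p ≠ w := fun h => hp (h ▸ H.wV)
  have wf' := subd_wf (p := p) H.wf hv H.wV hp
  have hrK : ∀ X ⊆ G.V, rho a b (G.subd v w p) X = rho a b G X
      + if v ∈ X ∧ w ∈ X then (a : ℤ) else 0 := fun X hX => subd_rho H.wf hvw hp hm1 hX
  have hrKp : ∀ X, p ∉ X → rho a b (G.subd v w p) (insert p X)
      = a + rho a b (G.subd v w p) X
      - (if v ∈ X then (a : ℤ) else 0) - (if w ∈ X then (a : ℤ) else 0) := fun X hX =>
    subd_rho_p wf' hvw hX
  have hrV : rho a b (G.subd v w p) (G.subd v w p).V = rho a b G G.V := by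
    show rho a b (G.subd v w p) (insert p G.V) = _
    rw [hrKp _ hp, hrK _ (Subset.refl _), if_pos ⟨hv, H.wV⟩, if_pos hv, if_pos H.wV]
    ring
  refine ⟨wf', subd_nc H.wf hvw hv H.wV hp hm1 H.nc, ?_, H.ab, H.b1, ?_, ?_,
    mem_insert_of_mem H.cV, mem_insert_of_mem H.uV, mem_insert_of_mem H.wV, H.huc, H.hcw, H.huw,
    insert_subset_insert p H.hI, ?_, ?_, ?_, ?_, ?_, ?_, ?_, ?_, ?_, ?_, ?_, ?_, ?_, ?_, ?_⟩
  · intro G' h1 h2 h3
    exact H.ih G' h1 h2 (lt_of_lt_of_le h3 (subd_hcle hp))
  · rw [hrV]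
    exact H.pos
  · intro X hX hcX hXne
    rw [hrV]
    have hV' : (G.subd v w p).V = insert p G.V := rfl
    have ha0 : (0 : ℤ) ≤ a := Int.natCast_nonneg _
    by_cases hpX : p ∈ X
    · obtain ⟨Z, hZ⟩ : ∃ Z, Z = X.erase p := ⟨_, rfl⟩
      have hXZ : X = insert p Z := by
        rw [hZ, insert_erase hpX]
      have hpZ : p ∉ Z := by
        rw [hZ]
        exact notMem_erase p X
      have hZG : Z ⊆ G.V := by
        intro y hy
        have h1 : y ∈ X := by rw [hXZ]; exact mem_insert_of_mem hy
        rcases mem_insert.1 (hX h1) with h | h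
        · exact absurd (h ▸ hy) hpZ
        · exact h
      have hcZ : c ∈ Z := by
        rw [hZ]
        exact mem_erase.2 ⟨hVp c H.cV, hcX⟩
      have hZne : Z ≠ G.V := by
        intro h
        apply hXne
        rw [hXZ, h]
        rfl
      have k1 := H.p1 Z hZG hcZ hZne
      rw [hXZ, hrKp _ hpZ, hrK _ hZG]
      by_cases h1 : v ∈ Z
      · by_cases h2 : w ∈ Z
        · rw [if_pos ⟨h1, h2⟩, if_pos h1, if_pos h2]
          linarith
        · rw [if_neg (fun h : v ∈ Z ∧ w ∈ Z => h2 h.2), if_pos h1, if_neg h2]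
          linarith
      · rw [if_neg (fun h : v ∈ Z ∧ w ∈ Z => h1 h.1), if_neg h1]
        split_ifs <;> linarith
    · have hXG : X ⊆ G.V := by
        intro y hy
        rcases mem_insert.1 (hX hy) with h | h
        · exact absurd (h ▸ hy) hpX
        · exact h
      rw [hrK _ hXG]
      by_cases hXV : X = G.V
      · rw [hXV, if_pos ⟨hv, H.wV⟩]
      · have k1 := H.p1 X hXG hcX hXV
        split_ifs <;> linarith
  · intro h
    rcases mem_insert.1 h with h | h
    · exact hp (h ▸ H.cV)
    · exact H.hcI h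
  · intro h
    rcases mem_insert.1 h with h | h
    · exact hp (h ▸ H.uV)
    · exact H.huI h
  · intro h
    rcases mem_insert.1 h with h | h
    · exact hp (h ▸ H.wV)
    · exact H.hwI h
  · rw [subd_t (hVp c H.cV)]
    exact H.tc
  · rw [subd_s (hVp c H.cV)]
    exact H.sc
  · rw [subd_h (hVp c H.cV) (hVp w H.wV)]
    exact H.hcw1
  · intro y hy hyw
    rcases mem_insert.1 hy with h | h
    · rw [h, subd_hp']
    · rw [subd_h (hVp c H.cV) (hVp y h)]
      exact H.hc0 y h hyw
  · intro y hy
    rcases mem_insert.1 hy with h | h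
    · rw [h, subd_mp' hpv hpw, if_neg (by
        rintro (h1 | h1)
        · exact hvc h1.symm
        · exact H.hcw h1), if_neg (fun h1 : p = u => hp (h1 ▸ H.uV))]
    · rw [subd_m (hVp c H.cV) (hVp y h), dl_zero_left hvc.symm H.hcw, Nat.mul_zero, Nat.sub_zero]
      exact H.mc y h
  · intro y hy hyc
    rcases mem_insert.1 hy with h | h
    · rw [h, subd_hp']
    · rw [subd_h (hVp w H.wV) (hVp y h)]
      exact H.hw0 y h hyc
  · intro q hq
    rcases mem_insert.1 hq with h | h
    · rw [h, subd_mp' hpv hpw, if_pos (Or.inr rfl)]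
    · have hqv : q ≠ v := fun h1 => hvI (h1 ▸ h)
      have hqw : q ≠ w := fun h1 => H.hwI (h1 ▸ h)
      rw [subd_m (hVp w H.wV) (hIp q h), dl_symm, dl_zero_left hqv hqw, Nat.mul_zero,
        Nat.sub_zero]
      exact H.mwI q h
  · intro q hq
    rcases mem_insert.1 hq with h | h
    · rw [h]
      exact if_pos rfl
    · rw [subd_t (hIp q h)]
      exact H.tI q h
  · intro q hq
    rcases mem_insert.1 hq with h | h
    · rw [h]
      exact if_pos rfl
    · rw [subd_s (hIp q h)]
      exact H.sI q h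
  · intro q hq y hy
    rcases mem_insert.1 hq with h | h
    · rw [h, subd_hp]
    · rcases mem_insert.1 hy with h' | h'
      · rw [h', subd_hp']
      · rw [subd_h (hIp q h) (hVp y h')]
        exact H.hI0 q h y h'
  · intro q hq
    have hV' : (G.subd v w p).V \ {w} = insert p (G.V \ {w}) := by
      show insert p G.V \ {w} = _
      rw [insert_sdiff_of_notMem _ (fun h => hpw (mem_singleton.1 h))]
    have hpn : p ∉ G.V \ {w} := fun h => hp (mem_sdiff.1 h).1
    rw [hV', sum_insert hpn]
    rcases mem_insert.1 hq with h | h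
    · rw [h, wf'.mirr, zero_add]
      have e1 : ∀ y ∈ G.V \ {w}, (G.subd v w p).m p y = if y = v then 1 else 0 := by
        intro y hy
        have hyw : y ≠ w := fun h => (mem_sdiff.1 hy).2 (mem_singleton.2 h)
        rw [subd_mp]
        by_cases h1 : y = v
        · rw [if_pos (Or.inl h1), if_pos h1]
        · rw [if_neg (by tauto), if_neg h1]
      rw [sum_congr rfl e1, sum_ite_eq']
      split_ifs <;> omega
    · have hqv : q ≠ v := fun h1 => hvI (h1 ▸ h)
      have hqw : q ≠ w := fun h1 => H.hwI (h1 ▸ h)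
      rw [subd_mp' hpv hpw, if_neg (by tauto), zero_add]
      refine (sum_le_sum fun y hy => ?_).trans (H.mI q h)
      rw [subd_m (hIp q h) (hVp y (mem_sdiff.1 hy).1)]
      exact Nat.sub_le _ _
  · intro q hq q' hq'
    rcases mem_insert.1 hq with h | h
    · rcases mem_insert.1 hq' with h' | h'
      · rw [h, h', wf'.mirr]
      · have hqv : q' ≠ v := fun h1 => hvI (h1 ▸ h')
        have hqw : q' ≠ w := fun h1 => H.hwI (h1 ▸ h')
        rw [h, subd_mp, if_neg (by tauto)]
    · have hqv : q ≠ v := fun h1 => hvI (h1 ▸ h)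
      have hqw : q ≠ w := fun h1 => H.hwI (h1 ▸ h)
      rcases mem_insert.1 hq' with h' | h'
      · rw [h', subd_mp' hpv hpw, if_neg (by tauto)]
      · rw [subd_m (hIp q h) (hIp q' h'), H.mII q h q' h']
        exact Nat.zero_sub _

theorem PreCore.contra : ∀ (n : ℕ) (G : Str) (I : Finset ℕ), PreCore a b G I c u w →
    ∑ v ∈ G.V \ I, G.m w v = n → False := by
  classical
  intro n
  induction n with
  | zero =>
    intro G I H hn
    rw [sum_eq_zero_iff] at hn
    exact Core.contra (I := I) ⟨H, fun v hv hvI => hn v (mem_sdiff.2 ⟨hv, hvI⟩)⟩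
  | succ n ihn =>
    intro G I H hn
    have h1 : ∃ v ∈ G.V \ I, G.m w v ≠ 0 := by
      by_contra hcon
      push Not at hcon
      rw [sum_eq_zero hcon] at hn
      omega
    obtain ⟨v, hvs, hm⟩ := h1
    obtain ⟨hv, hvI⟩ := mem_sdiff.1 hvs
    obtain ⟨p, hp⟩ := Infinite.exists_notMem_finset G.V
    have hvw : v ≠ w := fun h => hm (by rw [h]; exact H.wf.mirr w)
    have hVp : ∀ y ∈ G.V, y ≠ p := fun y hy h => hp (h ▸ hy)
    refine ihn (G.subd v w p) (insert p I) (H.step hv hvI hm hp) ?_
    have hV' : (G.subd v w p).V \ insert p I = G.V \ I := by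
      show insert p G.V \ insert p I = _
      ext y
      simp only [mem_sdiff, mem_insert]
      constructor
      · rintro ⟨h1 | h1, h2⟩
        · exact absurd (Or.inl h1) h2
        · exact ⟨h1, fun h3 => h2 (Or.inr h3)⟩
      · rintro ⟨h1, h2⟩
        refine ⟨Or.inr h1, ?_⟩
        rintro (h3 | h3)
        · exact hp (h3 ▸ h1)
        · exact h2 h3
    rw [hV']
    have e1 : ∑ y ∈ G.V \ I, (G.subd v w p).m w y + ∑ y ∈ G.V \ I, (if y = v then 1 else 0)
        = ∑ y ∈ G.V \ I, G.m w y := by
      rw [← sum_add_distrib]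
      refine sum_congr rfl fun y hy => ?_
      rw [subd_m (hVp w H.wV) (hVp y (mem_sdiff.1 hy).1)]
      by_cases hyv : y = v
      · rw [if_pos hyv, hyv, dl_symm, dl_pq]
        omega
      · rw [if_neg hyv, dl_zero (by
          rintro (⟨h2, _⟩ | ⟨_, h2⟩)
          · exact hvw h2.symm
          · exact hyv h2)]
        omega
    rw [sum_ite_eq', if_pos hvs, hn] at e1
    omega

theorem MinCE.contra (M : MinCE a b G) (P : Par a b) : False := by
  classical
  by_cases hH : ∃ u ∈ G.V, ∃ w ∈ G.V, G.h u w ≠ 0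
  · obtain ⟨K, c, u, w, H⟩ := M.precore P hH
    exact PreCore.contra _ K ∅ H rfl
  · push Not at hH
    refine M.nc ⟨fun _ => true, fun _ _ => 0, fun _ _ _ _ hne => absurd rfl hne, ?_⟩
    intro v hv
    have h0 : load G (fun _ => true) (fun _ _ => 0) G.V v = 0 := by
      unfold load
      refine sum_eq_zero fun w hw => ?_
      rw [hH v hv w hw]
      simp
    rw [h0]
    have h1 := M.tpos P hv
    show 0 + 1 ≤ G.t v
    omega

end

/-- **Main theorem.** Every structure all of whose nonempty vertex sets have potential at least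
`-b + 1` is colourable. -/
theorem main {a b : ℕ} (P : Par a b) (G : Str) (wf : G.WF a b)
    (pos : ∀ S ⊆ G.V, S.Nonempty → -(b : ℤ) + 1 ≤ rho a b G S) : Colorable G := by
  revert wf pos
  refine less_wf.induction (C := fun G => G.WF a b →
    (∀ S ⊆ G.V, S.Nonempty → -(b : ℤ) + 1 ≤ rho a b G S) → Colorable G) G ?_
  intro G ih wf pos
  by_contra hnc
  exact MinCE.contra ⟨wf, pos, hnc, fun G' wf' pos' hl => ih G' hl wf' pos'⟩ P

end Pool.Agent.Lib.MP_4006b4_co_b
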